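import Pool.Agent.Lib.MP_12eaff_co.Frz.Acc2.Ev
import Pool.Agent.Lib.MP_12eaff_co.Frz.Acc2.Sup

set_option autoImplicit false
set_option linter.unusedSectionVars false

namespace Pool.Agent.Lib.MP_12eaff_co.Frz.Acc2

open Finset Pool.Agent.Lib.MP_12eaff_co.Frz.BK
open scoped Classical

variable {V : Type} [Fintype V] {G : SimpleGraph V} {D : ℕ}

namespace Tr

variable (T : Tr G D) (Ct Ok Use : V → V → Prop)

/-- The target `u` of `v` has a used unit in the supply of `v`. -/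
def HasI (v u : V) : Prop := ∃ x ∈ T.Int v, T.Pr x v u ∧ Use x v

/-- Arcs without port ticket that are paid by a used unit of the supply. -/
noncomputable def HI (v : V) : Finset V := (T.NT v).filter fun u => T.HasI Use v u ∧ ¬ T.PT v u

/-- Arcs charged to `n` and passed to an internal child. -/
noncomputable def NI (v : V) : Finset V :=
  (T.NT v).filter fun u => ¬ T.Pd Ct Use v u ∧ ∃ x ∈ T.Int v, T.p x = u

/-- Unused supply of the tail `v`. -/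
noncomputable def spare (v : V) : ℕ := (T.Int v).card - ((T.HI Use v).card + (T.NI Ct Use v).card)

/-- Admissible units without target among the non-tree arcs that have no port ticket. -/
noncomputable def idle (v : V) : Finset V :=
  (T.Int v).filter fun x => Use x v ∧ ∀ u ∈ T.NT v, T.Pr x v u → T.PT v u

/-- Real children with a token. -/
noncomputable def TK4 (v : V) : Finset V := (T.ch v).filter fun u => u ∈ T.O v ∧ T.HasI Use v u

/-- Pairs charged to a head outside the supply. -/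
noncomputable def pE (x : V) : Finset V := T.R.filter fun v =>
  Use x v ∧ ∃ u ∈ T.NT v, T.Pr x v u ∧ ¬ T.HasI Use v u ∧ ¬ T.PT v u

/-- Arcs charged to `n` at a head without a free internal child. -/
noncomputable def nK (u : V) : Finset V := T.R.filter fun v =>
  u ∈ T.NT v ∧ (¬ T.Pd Ct Use v u ∧ ¬ ∃ x ∈ T.Int v, T.p x = u)

noncomputable def load4 (y : V) : ℕ :=
  (T.tE Ct Use y).card + (T.WQ Use y).card + (T.pE Use y).card + (T.nK Ct Use y).card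

variable {T Ct Ok Use} {u v w x e y z m : V}

theorem HasI.hasQ (h : T.HasI Use v u) : T.HasQ Use v u :=
  let ⟨_, _, a, b⟩ := h; a.hasQ b

theorem mem_HI : u ∈ T.HI Use v ↔ u ∈ T.NT v ∧ T.HasI Use v u ∧ ¬ T.PT v u := mem_filter

theorem mem_NI : u ∈ T.NI Ct Use v ↔ u ∈ T.NT v ∧ ¬ T.Pd Ct Use v u ∧ ∃ x ∈ T.Int v, T.p x = u :=
  mem_filter

theorem mem_idle :
    x ∈ T.idle Use v ↔ x ∈ T.Int v ∧ Use x v ∧ ∀ u ∈ T.NT v, T.Pr x v u → T.PT v u := mem_filter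

theorem idle_of (a : x ∈ T.Int v) (b : Use x v) (c : ∀ u ∈ T.NT v, ¬ T.Pr x v u) :
    x ∈ T.idle Use v := mem_idle.2 ⟨a, b, fun u p q => absurd q (c u p)⟩

theorem mem_TK4 : u ∈ T.TK4 Use v ↔ u ∈ T.ch v ∧ u ∈ T.O v ∧ T.HasI Use v u := mem_filter

theorem mem_pE : v ∈ T.pE Use x ↔
    v ∈ T.R ∧ Use x v ∧ ∃ u ∈ T.NT v, T.Pr x v u ∧ ¬ T.HasI Use v u ∧ ¬ T.PT v u := mem_filter

theorem mem_nK : v ∈ T.nK Ct Use u ↔
    v ∈ T.R ∧ u ∈ T.NT v ∧ ¬ T.Pd Ct Use v u ∧ ¬ ∃ x ∈ T.Int v, T.p x = u := mem_filter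

theorem nK_sub : T.nK Ct Use u ⊆ T.nE Ct Use u := fun _ k =>
  mem_nE.2 ⟨(mem_nK.1 k).1, (mem_nK.1 k).2.1, (mem_nK.1 k).2.2.1⟩

theorem pE_sub : T.pE Use x ⊆ T.piQ Use x := fun _ k =>
  let ⟨a, b, u, c, d, _, e⟩ := mem_pE.1 k
  mem_piQ.2 ⟨a, b, u, c, d, e⟩

theorem pE_int (k : v ∈ T.pE Use x) : x ∉ T.Int v := fun p =>
  let ⟨_, b, _, _, d, e, _⟩ := mem_pE.1 k
  e ⟨x, p, d, b⟩

/-- A set of units that can be avoided is spare. -/
theorem spare_ge (hc : T.Cl Ct Ok Use) (hv : v ∈ T.R) (F : Finset V) (hF : F ⊆ T.Int v)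
    (h1 : ∀ u ∈ T.HI Use v, ∃ x ∈ T.Int v, x ∉ F ∧ T.Pr x v u ∧ Use x v)
    (h2 : ∀ u ∈ T.NI Ct Use v, ∃ x ∈ T.Int v, x ∉ F ∧ T.p x = u) :
    F.card + ((T.HI Use v).card + (T.NI Ct Use v).card) ≤ (T.Int v).card := by
  choose! σ s1 s2 s3 s4 using h1
  choose! τ t1 t2 t3 using h2
  have c1 : ((T.HI Use v).image σ).card = (T.HI Use v).card :=
    card_image_of_injOn fun a ha b hb e => O_inj hv (T.mem_NT.1 (mem_HI.1 ha).1).1
      (T.mem_NT.1 (mem_HI.1 hb).1).1 (by rw [← (s3 a ha).2.2.2, e, (s3 b hb).2.2.2])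
  have c2 : ((T.NI Ct Use v).image τ).card = (T.NI Ct Use v).card :=
    card_image_of_injOn fun a ha b hb e => by rw [← t3 a ha, e, t3 b hb]
  rw [← c1, ← c2, ← card_union_of_disjoint, ← card_union_of_disjoint]
  · refine card_le_card (union_subset hF (union_subset ?_ ?_)) <;> intro x hx <;>
      obtain ⟨a, ha, rfl⟩ := mem_image.1 hx
    exacts [s1 a ha, t1 a ha]
  · refine disjoint_left.2 fun x h3 h4 => ?_
    rcases mem_union.1 h4 with h4 | h4 <;> obtain ⟨a, ha, rfl⟩ := mem_image.1 h4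
    exacts [s2 a ha h3, t2 a ha h3]
  · refine disjoint_left.2 fun x h3 h4 => ?_
    obtain ⟨a, ha, rfl⟩ := mem_image.1 h3
    obtain ⟨b, hb, e⟩ := mem_image.1 h4
    obtain ⟨b1, b2, -⟩ := mem_NI.1 hb
    have := (hc _ v (s4 a ha)).2
    rw [← e, t3 b hb] at this
    exact b2 (this b1)

theorem idle_le (hc : T.Cl Ct Ok Use) (hv : v ∈ T.R) :
    (T.idle Use v).card + ((T.HI Use v).card + (T.NI Ct Use v).card) ≤ (T.Int v).card :=
  spare_ge hc hv _ (filter_subset _ _)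
    (fun u k => let ⟨a, ⟨x, b, c, d⟩, e⟩ := mem_HI.1 k
      ⟨x, b, fun p => e ((mem_idle.1 p).2.2 u a c), c, d⟩)
    fun _ k => let ⟨a, b, x, c, d⟩ := mem_NI.1 k
      ⟨x, c, fun p => b (d ▸ (hc x v (mem_idle.1 p).2.1).2 (d ▸ a)), d⟩

theorem idle_spare (hc : T.Cl Ct Ok Use) (hv : v ∈ T.R) :
    (T.idle Use v).card ≤ T.spare Ct Use v := by
  have := idle_le hc hv
  unfold spare
  omega

theorem sum_pE : ∑ v ∈ T.R, ((T.NT v).filter fun u =>
    T.HasQ Use v u ∧ ¬ T.HasI Use v u ∧ ¬ T.PT v u).card ≤ ∑ x ∈ T.R, (T.pE Use x).card := by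
  have : ∑ x ∈ T.R, (T.pE Use x).card = ∑ v ∈ T.R, (T.R.filter fun x =>
      Use x v ∧ ∃ u ∈ T.NT v, T.Pr x v u ∧ ¬ T.HasI Use v u ∧ ¬ T.PT v u).card := by
    simp only [pE, card_filter]
    exact sum_comm
  rw [this]
  refine sum_le_sum fun v hv => ?_
  have : ∀ u, ∃ x, T.HasQ Use v u → ¬ T.PT v u → T.Pr x v u ∧ Use x v := fun u => by
    by_cases k : ∃ x, T.Pr x v u ∧ Use x v
    exacts [k.imp fun _ k _ _ => k, ⟨u, fun x y => absurd (x.resolve_right y) k⟩]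
  choose f hf using this
  refine card_le_card_of_injOn f (fun u k => ?_) fun a ha b hb e => ?_
  · obtain ⟨k1, k2, k3⟩ := mem_filter.1 k
    exact mem_filter.2 ⟨(hf u k2 k3.2).1.1, (hf u k2 k3.2).2, u, k1, (hf u k2 k3.2).1, k3⟩
  · obtain ⟨a1, a2, -, a3⟩ := mem_filter.1 ha
    obtain ⟨b1, b2, -, b3⟩ := mem_filter.1 hb
    exact O_inj hv (T.mem_NT.1 a1).1 (T.mem_NT.1 b1).1
      (by rw [← (hf a a2 a3).1.2.2.2, e, (hf b b2 b3).1.2.2.2])

/-- One step of a chain for sets closed under open witnesses. -/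
theorem step2 {S : V → Prop} (hS : T.IsSig2 v S) (hv : v ∈ T.R)
    (he : e ∈ T.O v) (hz : T.MinE S v e z) : (∃ x, T.PayP S x v e) ∨ T.PayZ v e ∧ T.Anc e z ∨
      T.PayT v e ∧ (T.CaseA v e ∧ T.Anc e z ∨ ¬ T.Anc (T.p v) z ∧ Uq G (T.col z) v (T.p v)) ∨
      T.PayD S v e := by
  obtain ⟨z1, z2, mn⟩ := hz
  have zR := hS.mem z z1
  have n := hS.nanc z z1
  have l := T.lt v hv e he
  have er := O_real hv he
  by_cases k : ∃ m, G.Adj v m ∧ (T.PayT v e → m ≠ T.p v) ∧ T.col z m = T.col v e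
  swap
  · push Not at k
    obtain ⟨m, m1, m2⟩ := wit_ex hS hv he z1
    have : T.PayT v e ∧ m = T.p v := by
      by_contra p
      exact k m m1 (fun a b => p ⟨a, b⟩) m2
    obtain ⟨t, rfl⟩ := this
    exact .inr (.inr (.inl ⟨t, .inr ⟨fun p => col_ne_base (t_nr hv he t) p (m2.trans t.2),
      fun m p q => m2 ▸ k m p fun _ => q⟩⟩))
  obtain ⟨m, m1, m2, m3⟩ := k
  have vis : ∀ b, T.Vis v z b → S b := fun b q => q.2.elim (· ▸ z1) (hS.up z b z1 q.1)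
  refine (high hv he zR n m1 (fun p => z2 (p ▸ m3)) m2 m3).imp (fun ⟨x, p⟩ => ⟨x, p.mono vis⟩) ?_
  rintro (⟨b, x, k1, xz, k3, k4, k5, k6, k7⟩ | q)
  swap
  · exact .inr (.inr (q.mono vis))
  have bz := (anc_ch k1).trans xz
  have bR := bz.mem.1
  have := d_ch k1
  have := xz.le
  have cb := mn b (hS.up z b z1 bz k5) (by omega)
  have pth : T.Anc b e ∧ T.Anc e z := by
    by_contra p
    exact z2 (by rw [col_diff bz er p, cb])
  have be : b ≠ e := fun p => by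
    rw [← cb, p, col_self pth.1.mem.2] at l
    omega
  have := pth.1.lt be
  have ce : T.c e = T.col v e := by rw [← cb, col_base bR er fun p => by have := p.le; omega]
  have := (IsA.O_mem hv he).2
  have := (IsA.O_mem bR k5).2
  obtain ⟨p1, p2, p3⟩ := T.mem_ch.1 k1
  obtain rfl : x = e := by
    by_contra p
    exact c_ch_ne ((Anc.under k1 xz pth.1 pth.2 be).ch_of_d p (by omega)) p2 (by rw [ce, k4])
  subst p3
  by_cases q : T.PayT v x ∧ ¬ T.Anc (T.p v) (T.p x)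
  · exact .inr (.inl ⟨q.1, .inl ⟨⟨p1, p2, k5, k6, q.2, ce.trans q.1.2,
      fun m' s t r => ce ▸ k7 m' s t fun _ => r⟩, xz⟩⟩)
  · refine .inl ⟨⟨p2, k5, ce.symm, fun m' s t => by_contra fun r => k7 m' s r (fun ht w => ?_)
      (t.trans ce), ch_O k1 (.inr (by omega))⟩, xz⟩
    exact col_ne_base (t_nr hv he ht) (by_contra fun g => q ⟨ht, g⟩) (by rw [← w, t, ce, ht.2, w])

/-- End of a chain at the parent of the tail, with the state. -/
def TEnd2 (T : Tr G D) (Ct : V → V → Prop) (S : V → Prop) (v e : V) : Prop :=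
  e ∈ T.NT v ∧ v ∈ T.H e ∧ T.PayT v e ∧ ¬ Ct v e ∧ (∀ x, ¬ T.PayP S x v e) ∧ (∃ z, T.MinE S v e z ∧
    ((T.PayZ v e ∨ T.CaseA v e) ∧ T.Anc e z ∨ ¬ T.Anc (T.p v) z ∧ Uq G (T.col z) v (T.p v))) ∧
    ¬ T.PT v e

/-- CHAIN for sets closed under open witnesses. -/
theorem chain2 {S : V → Prop} (hS : T.IsSig2 v S) (hv : v ∈ T.R)
    (hu : u ∈ T.O v) (k : T.PayP S x v u) : T.HasQ (T.UI Ct Ok) v u ∨
      (∃ x e, T.Mv S v u e ∧ T.PayP S x v e ∧ ¬ Ok x v) ∨ ∃ e, e ≠ u ∧ T.TEnd2 Ct S v e := by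
  by_contra h
  simp only [not_or, not_exists, not_and, not_not] at h
  obtain ⟨h1, h2, h3⟩ := h
  have mo : ∀ e, T.Mv S v u e → e ∈ T.O v := fun e p =>
    p.elim (fun p => p ▸ hu) fun p => (T.mem_NT.1 p.1).1
  refine h1 (.inl ⟨x, k.pr, fun a b => b = v ∧ ∃ e, T.Mv S v u e ∧ T.PayP S a v e, ?_, rfl, u,
    .inl rfl, k⟩)
  rintro a b ⟨rfl, e, p, q⟩
  refine ⟨h2 a e p q, fun n => ?_⟩
  have mv : T.Mv S b u (T.p a) := .inr ⟨n, a, e, mo e p, rfl, q⟩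
  by_cases r : ∃ x, T.PayP S x b (T.p a)
  · obtain ⟨x', r⟩ := r
    exact .inr (.inr (.inl ⟨x', r.pr, rfl, _, mv, r⟩))
  by_cases pt : T.PT b (T.p a)
  · exact .inr (.inr pt.hasQ)
  have ne : T.p a ≠ u := fun z => r ⟨x, z ▸ k⟩
  obtain ⟨z, hz⟩ := exists_minE ((expl_iff hS.mem hv (mo _ mv)).1 q.expl)
  have s := ((step2 hS hv (mo _ mv) hz).resolve_left r).imp_right
    fun s => s.resolve_right fun s => pt (s.pt hS.mem)
  by_cases t : T.PayT b (T.p a)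
  · refine .inl ⟨t, by_contra fun c => h3 _ ne ⟨n, q.2.2.1, t, c, not_exists.1 r, ⟨z, hz, ?_⟩, pt⟩⟩
    exact s.elim (fun s => .inl ⟨.inl s.1, s.2⟩) fun s => s.2.imp_left fun s => ⟨.inr s.1, s.2⟩
  · exact .inr (.inl ⟨(s.resolve_right fun s => t s.1).1, t⟩)

/-- An explained arc is paid unless a unit is declined. -/
theorem pd_of_expl {S : V → Prop} (hS : T.IsSig2 v S) (hv : v ∈ T.R)
    (hC : ∀ e, T.Expl S v e → Ct v e) (ok : ∀ x e, T.PayP S x v e → Ok x v) (hu : u ∈ T.O v)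
    (k : T.Expl S v u) : T.Pd Ct (T.UI Ct Ok) v u := by
  by_cases t : T.PayT v u
  · exact .inl ⟨t, hC u k⟩
  obtain ⟨z, hz⟩ := exists_minE ((expl_iff hS.mem hv hu).1 k)
  rcases step2 hS hv hu hz with ⟨x, p⟩ | p | p | p
  exacts [.inr (.inr (((chain2 hS hv hu p).resolve_right fun q => q.elim
    (fun ⟨x, e, _, a, b⟩ => b (ok x e a)) fun ⟨e, _, _, _, _, a, _, ⟨z, b, _⟩, _⟩ =>
      a (hC e ⟨z, b.1, .inr b.2.1⟩)))), .inr (.inl ⟨p.1, t⟩), absurd p.1 t,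
    .inr (.inr (p.pt hS.mem).hasQ)]

end Tr

/-- Mutual probers of `v` and the probers above them. -/
def SM (T : Tr G D) (v z : V) : Prop := ∃ y ∈ T.NT v, v ∈ T.O y ∧ T.Anc z y ∧ v ∈ T.O z

/-- `t` is charged if the arc is explained in `SM`. -/
def CM (T : Tr G D) (v u : V) : Prop := T.Expl (SM T v) v u

/-- The standard set of units. -/
def UM (T : Tr G D) : V → V → Prop := T.UI (CM T) (O0 T)

namespace IsB

variable {T : Tr G D} {Ct Ok Use : V → V → Prop} {u v w x e y z m : V}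

open Tr IsA

theorem tk_idle (_ : IsB T) (hv : v ∈ T.R) : (T.TK4 Use v).card ≤ (T.idle Use v).card := by
  have : ∀ u, ∃ x, T.HasI Use v u → x ∈ T.Int v ∧ T.Pr x v u ∧ Use x v := fun u => by
    by_cases k : T.HasI Use v u
    exacts [k.imp fun _ k _ => k, ⟨u, fun x => absurd x k⟩]
  choose f hf using this
  refine card_le_card_of_injOn f (fun u k => ?_) fun a ha b hb e => ?_
  · obtain ⟨k1, k0, k2⟩ := mem_TK4.1 k
    obtain ⟨a, b, c⟩ := hf u k2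
    exact idle_of a c fun u' p q => (T.mem_NT.1 p).2
      (O_inj hv k0 (T.mem_NT.1 p).1 (b.2.2.2.symm.trans q.2.2.2) ▸ k1)
  · obtain ⟨-, a1, a2⟩ := mem_TK4.1 ha
    obtain ⟨-, b1, b2⟩ := mem_TK4.1 hb
    exact O_inj hv a1 b1
      (by rw [← (hf a a2).2.1.2.2.2, e, (hf b b2).2.1.2.2.2])

/-- The account with fungible units. -/
theorem final4 (h : IsB T) (hD : 5 ≤ D) (hc : T.Cl Ct Ok Use) :
    ∑ v ∈ T.R, (D - 5 + (if v ≠ T.r ∧ T.ch v = ∅ then 2 else 0) + (if T.Bd v = ∅ then 1 else 0) +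
      2 * (T.CX v).card + T.spare Ct Use v) + 4 ≤
      ∑ v ∈ T.R, (T.load4 Ct Use v + (T.Dr v).card + (T.ptN v).card) := by
  have k := h.final_sup hD (fun v => (T.tE Ct Use v).card +
    ((T.NT v).filter fun u => T.PayZ v u ∧ ¬ T.PayT v u ∧ ¬ T.HasQ Use v u).card +
    ((T.NT v).filter fun u => T.HasQ Use v u ∧ ¬ T.HasI Use v u ∧ ¬ T.PT v u).card +
    ((T.NT v).filter fun u => ¬ T.Pd Ct Use v u ∧ ¬ ∃ x ∈ T.Int v, T.p x = u).card +
    (T.ptN v).card)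
    (T.spare Ct Use) fun v hv => by
      have a := idle_le hc hv
      have b : (T.NT v).card ≤ (T.HI Use v).card + (T.NI Ct Use v).card + (T.tE Ct Use v).card +
          ((T.NT v).filter fun u => T.PayZ v u ∧ ¬ T.PayT v u ∧ ¬ T.HasQ Use v u).card +
          ((T.NT v).filter fun u => T.HasQ Use v u ∧ ¬ T.HasI Use v u ∧ ¬ T.PT v u).card +
          ((T.NT v).filter fun u => ¬ T.Pd Ct Use v u ∧ ¬ ∃ x ∈ T.Int v, T.p x = u).card +
          (T.ptN v).card := by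
        simp only [HI, NI, tE, tQ, ptN, filter_filter, card_filter, ← sum_add_distrib]
        rw [card_eq_sum_ones]
        refine sum_le_sum fun u _ => ?_
        by_cases g : T.PT v u
        · simp [g]
        by_cases a : T.PayT v u <;> by_cases b : T.PayZ v u <;> by_cases c : T.HasQ Use v u <;>
          by_cases d : Ct v u <;> by_cases e : T.HasI Use v u <;>
          by_cases f : ∃ x ∈ T.Int v, T.p x = u <;> simp [a, b, c, d, e, f, g, Pd]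
      unfold spare
      omega
  have h1 : ∑ v ∈ T.R, ((T.NT v).filter
      fun u => T.PayZ v u ∧ ¬ T.PayT v u ∧ ¬ T.HasQ Use v u).card = ∑ v ∈ T.R, (T.WQ Use v).card := by
    unfold WQ
    convert T.sum_head fun v u => T.PayZ v u ∧ ¬ T.PayT v u ∧ ¬ T.HasQ Use v u
  have h2 : ∑ v ∈ T.R, ((T.NT v).filter
      fun u => ¬ T.Pd Ct Use v u ∧ ¬ ∃ x ∈ T.Int v, T.p x = u).card =
      ∑ v ∈ T.R, (T.nK Ct Use v).card := by
    unfold nK
    convert T.sum_head fun v u => ¬ T.Pd Ct Use v u ∧ ¬ ∃ x ∈ T.Int v, T.p x = u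
  have h3 := sum_pE (T := T) (Use := Use)
  simp only [load4, sum_add_distrib] at k ⊢
  omega

theorem sm_sp (hv : v ∈ T.R) (k : SM T v z) : T.SP v z :=
  let ⟨_, a, _, b, c⟩ := k
  ⟨b.mem.1, c, fun p => nanc_of_O hv (T.mem_NT.1 a).1 (T.mem_NT.1 a).2 (p.trans b)⟩

theorem sm_d (hv : v ∈ T.R) (k : SM T v z) : T.d z ≤ T.d v + 1 :=
  let ⟨_, a, _, b, _⟩ := k
  b.le.trans (O_mem hv (T.mem_NT.1 a).1).2

theorem sm_self (hv : v ∈ T.R) (a : y ∈ T.NT v) (b : v ∈ T.O y) : SM T v y :=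
  ⟨y, a, b, .refl y (O_mem hv (T.mem_NT.1 a).1).1, b⟩

theorem isSig2_SM (h : IsB T) (hv : v ∈ T.R) : T.IsSig2 v (SM T v) :=
  ⟨fun _ k => (sm_sp hv k).1, fun _ k => (sm_sp hv k).2.2,
    fun _ k => h.probe_tight (sm_sp hv k).1 (sm_sp hv k).2.1,
    fun _ _ ⟨y, a, b, c, _⟩ p q => ⟨y, a, b, p.trans c, q⟩⟩

theorem cm_c0 (hv : v ∈ T.R) (k : CM T v e) : C0 T v e :=
  let ⟨z, a, b⟩ := k; ⟨z, sm_sp hv a, b⟩

theorem pd_SM (h : IsB T) (hv : v ∈ T.R) (hu : u ∈ T.O v) (k : CM T v u) :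
    T.Pd (CM T) (UM T) v u :=
  pd_of_expl (h.isSig2_SM hv) hv (fun _ => id)
    (fun _ _ p => h.ok_SP (p.mono fun _ => sm_sp hv)) hu k

/-- Arcs charged to `n` are hidden and not explained in `SM`. -/
theorem nE_SM (h : IsB T) (k : v ∈ T.nE (CM T) (UM T) w) : ¬ CM T v w ∧ v ∈ T.H w := by
  obtain ⟨hv, a, b⟩ := mem_nE.1 k
  obtain ⟨a1, a2⟩ := T.mem_NT.1 a
  have n : ¬ CM T v w := fun p => b (h.pd_SM hv a1 p)
  rcases adj_cases (O_mem hv a1).1 hv (T.O_adj v hv w a1).symm with p | p | p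
  exacts [absurd ⟨w, sm_self hv a p, .inl rfl⟩ n, ⟨n, p⟩, absurd p a2]

/-- Pairs seen in `SM` are admissible. -/
theorem good_SM (h : IsB T) (hv : v ∈ T.R) (hu : u ∈ T.O v) (k : T.PayP (SM T v) x v u) :
    T.HasQ (UM T) v u :=
  (chain2 (h.isSig2_SM hv) hv hu k).resolve_right fun q => q.elim
    (fun ⟨_, _, _, a, b⟩ => b (h.ok_SP (a.mono fun _ => sm_sp hv)))
    fun ⟨_, _, _, _, _, a, _, ⟨z, b, _⟩, _⟩ => a ⟨z, b.1, .inr b.2.1⟩

theorem isSig2_vis (h : IsB T) (n : ¬ T.Anc v y) (t : T.Tight y v) :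
    T.IsSig2 v (T.Vis v y) :=
  ⟨fun _ k => k.1.mem.1, fun _ k p => n (p.trans k.1),
    fun _ k => k.2.elim (· ▸ t) (h.probe_tight k.1.mem.1), fun _ _ k p q => ⟨p.trans k.1, .inr q⟩⟩

/-- CHAIN in a state `y` and the probers above it, any `Ct`. -/
theorem chainV (h : IsB T) (hv : v ∈ T.R) (hu : u ∈ T.O v) (n : ¬ T.Anc v y)
    (t : T.Tight y v) (k : T.PayP (T.Vis v y) x v u) :
    T.HasQ (T.UI Ct (O0 T)) v u ∨ (T.ch y = ∅ ∧ y ≠ T.r ∧ v ∈ T.H (T.p y) ∧ ¬ G.Adj v y ∧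
      ∃ e, T.Mv (T.Vis v y) v u e ∧ T.c y = T.col v e) ∨ ∃ e, e ≠ u ∧ T.TEnd2 Ct (T.Vis v y) v e := by
  refine (chain2 (h.isSig2_vis n t) hv hu k).imp_right fun z => z.imp_left ?_
  rintro ⟨x, e, a, b, c⟩
  obtain ⟨rfl, p1, p2, p3⟩ := h.decl (y := y) (b.mono fun z p => p.2.elim .inr
    fun q => .inl ⟨p.1.mem.1, q, fun r => n (r.trans p.1)⟩) c
  exact ⟨p1, b.2.1, b.2.2.1, p2, e, a, p3⟩

theorem pE_leaf (h : IsB T) (k : v ∈ T.pE Use x) : T.ch x = ∅ ∨ v ∈ T.Dr (T.p x) := by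
  obtain ⟨-, -, u, -, p, -⟩ := mem_pE.1 k
  by_contra q
  push Not at q
  exact pE_int k (mem_Int.2 ⟨p.1, p.2.1, q.1.ne_empty,
    ((h.mem_H2 (T.p_mem x p.1 p.2.1)).1 p.2.2.1).resolve_right q.2⟩)

/-- A leaf pays triangle pairs only. -/
theorem pE_tri (_ : IsB T) (hl : T.ch x = ∅) (k : v ∈ T.pE (T.UI Ct (O0 T)) x) :
    v ∈ T.R ∧ x ∈ T.NT v ∧ v ∈ T.H (T.p x) ∧ T.HasQ (T.UI Ct (O0 T)) v x := by
  obtain ⟨hv, a, u, b, p, -⟩ := mem_pE.1 k
  obtain rfl := pr_tri hv (T.mem_NT.1 b).1 p (a.ok hl) (p.leaf_nanc hl)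
  exact ⟨hv, b, p.2.2.1, p.hasQ a⟩

theorem nK_bot (h : IsB T) (k : v ∈ T.nK (CM T) (UM T) u) (hx : x ∈ T.ch u) :
    T.ch x = ∅ ∨ v ∈ T.Dr u := by
  obtain ⟨p1, p2, p3⟩ := T.mem_ch.1 hx
  by_contra q
  push Not at q
  exact (mem_nK.1 k).2.2.2 ⟨x, mem_Int.2 ⟨p1, p2, q.1.ne_empty, p3 ▸
    ((h.mem_H2 (anc_ch hx).mem.1).1 (h.nE_SM (nK_sub k)).2).resolve_right q.2⟩, p3⟩

theorem t_nadj2 (h : IsB T) (hu : u ∈ T.R) (ho : e ∈ T.O u) (ht : T.PayT u e) (hp : u ∈ T.O e) :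
    ¬ G.Adj (T.p u) e := fun a => by
  have hq := T.p_mem u hu ht.1.1
  have hr := t_nr hu ho ht
  have er := O_real hu ho
  refine h.ne_par hq hr a er (fun z => ?_) ?_
  · have := (O_mem (O_mem hu ho).1 hp).2
    have := T.d_p u hu ht.1.1
    have := T.d_p _ hq hr
    rw [← z] at this
    omega
  · rw [← ht.2, col_step hu ht.1.1 er (T.O_adj u hu e ho).ne.symm a.ne.symm]

/-- Two shifts `a → v → u` in a tree state: `u` is tight without `v`. -/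
theorem tight2 (h : IsB T) {a : V} (ha : a ∈ T.R) (hv : v ∈ T.O a) (ru : u ∉ T.Dm) (ua : u ≠ a)
    (n : ¬ G.Adj u a) (h2 : Uq G (T.col a) v u) (k : G.Adj v u) :
    ∀ κ < D, κ ≠ T.col a u → ∃ m, G.Adj u m ∧ m ≠ v ∧ T.col a m = κ := fun κ l ne => by
  have va := (T.O_adj a ha v hv).ne.symm
  have s := ((h.hcP ha (O_real ha hv) ru k).shift (by simp) va (h.uq_O ha hv)).shift (u := u)
    (by simp) k.ne.symm fun m p q => by
    rw [shift_o k.ne.symm ua]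
    by_cases r : m = a
    · rw [r, shift_l va.symm]
      exact T.prop a ha _ _ k
    · rw [shift_o p.ne.symm r]
      exact h2 m p q
  obtain ⟨m, m1, m2⟩ := s.sees l
  have mv : m ≠ v := fun r => ne (by rw [← m2, r, shift_l k.ne, shift_o k.ne.symm ua])
  rw [shift_o m1.ne.symm mv, shift_o mv fun r : m = a => n (r ▸ m1)] at m2
  exact ⟨m, m1, mv, m2⟩

/-- The visit `z → u → q`. -/
theorem visit (h : IsB T) (hu : u ∈ T.R) (ur : u ≠ T.r) (po : u ∈ T.O (T.p u)) (k : T.SP u z)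
    (n : ¬ G.Adj z (T.p u)) (n' : ¬ T.Anc (T.p u) z) (uq : Uq G (T.col z) u (T.p u)) :
    T.Tight z (T.p u) ∧ ∃ m, G.Adj (T.p u) m ∧ m ≠ u ∧ T.col z m = T.c u := by
  have a := h.adj_par hu ur po
  have t := h.tight2 k.1 k.2.1 (T.real _ (T.p_mem u hu ur))
    (fun e => n' (e ▸ .refl _ (e ▸ k.1))) (fun p => n p.symm) uq a.symm
  exact ⟨fun κ p q => let ⟨m, m1, _, m2⟩ := t κ p q; ⟨m, m1, m2⟩,
    t _ (c_lt hu ur) (col_base k.1 (T.real u hu) k.2.2 ▸ T.prop z k.1 _ _ a.symm)⟩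

/-- At an open witness for a tree arc the head is tight without the tail. -/
theorem opn_tight (h : IsB T) {a : V} (hv : v ∈ T.R) (hu : u ∈ T.O v) (cu : T.col v u = T.c u)
    (n : ¬ T.Anc u y) (nt : ¬ T.PayT v u) (o : T.Opn v u y a x) :
    ¬ G.Adj u a ∧ ¬ G.Adj u x ∧ T.col a u = T.c u ∧
      ∀ κ < D, κ ≠ T.col a u → ∃ m, G.Adj u m ∧ m ≠ v ∧ T.col a m = κ := by
  obtain ⟨o1, o2, -, o4, o5, -, o7⟩ := o
  have ay := (anc_ch o1).trans o2
  have aR := ay.mem.1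
  have dx := d_ch o1
  have ru := O_real hv hu
  have c1 : T.col a u = T.c u := col_base aR ru fun p => n (p.trans ay)
  have c2 : T.col a x = T.c u := by
    rw [col_base aR o2.real fun p => by have := p.le; omega, o4, cu]
  have na : ¬ G.Adj u a := fun p => ch_uq o1 ru p.symm (fun r => n (r ▸ o2)) (by rw [c1, c2])
  exact ⟨na, fun p => T.prop a aR _ _ p (by rw [c1, c2]), c1,
    h.tight2 aR o5 ru (fun p => n (p ▸ ay)) na
      (fun m p q => by rw [c1, ← cu]; exact o7 m p q fun r => absurd r nt) (T.O_adj v hv u hu)⟩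

/-- T1: when `t(u)` is charged. -/
theorem t1 (h : IsB T) (hu : u ∈ T.R) (he : e ∈ T.tE (CM T) (UM T) u) : T.PayT (T.p u) u ∨
    (∃ z, SM T u z ∧ ¬ T.Anc (T.p u) z ∧ T.Tight z (T.p u) ∧
      ∃ x, T.PayP (T.Vis (T.p u) z) x (T.p u) u) ∨
    (∃ z, T.MinE (SM T u) u e z ∧ G.Adj z (T.p u) ∧ ¬ T.Anc (T.p u) z ∧ Uq G (T.col z) u (T.p u) ∧
      u ∈ T.H e ∧ (T.Anc e z ∧ e ≠ z ∨ T.Anc e u)) ∨
    (∃ z m x, Ev T u z ∧ ¬ T.Anc (T.p u) z ∧ Uq G (T.col z) u (T.p u) ∧ T.Opn (T.p u) u z m x ∧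
      T.Anc x e ∧ x ≠ e ∧ T.Anc e z) ∨
    (T.CaseA u e ∧ u ∈ T.H e ∧ ∃ z ∈ T.ch e, z ∈ T.NT u ∧ u ∈ T.O z) ∨
    Ev T u e ∧ (T.PayZ u e ∨ T.CaseA u e) ∨ u ∈ T.ptC (T.p u) := by
  obtain ⟨⟨e1, ht, nq⟩, cm⟩ := mem_tE.1 he
  obtain ⟨eo, ec⟩ := T.mem_NT.1 e1
  obtain ⟨ur, po⟩ := ht.1
  have hS := h.isSig2_SM hu
  obtain ⟨z, hz⟩ := exists_minE ((expl_iff hS.mem hu eo).1 cm)
  have ⟨z1, z2, mn⟩ := hz
  have sp := sm_sp hu z1
  have dz := sm_d hu z1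
  have hq := T.p_mem u hu ur
  have pc : u ∈ T.ch (T.p u) := T.mem_ch.2 ⟨hu, ur, rfl⟩
  have dq := d_chO pc po
  have qr := t_nr hu eo ht
  obtain ⟨eR, de⟩ := O_mem hu eo
  have er := T.real e eR
  have l := T.lt u hu e eo
  have ev : u ∈ T.O e → Ev T u e := fun p => ⟨hu, ur, e1, p, h.t_nadj2 hu eo ht p⟩
  have hid : (u ∈ T.O e → T.d e < T.d z) → u ∈ T.H e := fun k => by
    rcases adj_cases eR hu (T.O_adj u hu e eo).symm with p | p | p
    · have := mn e (sm_self hu e1 p) (k p)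
      rw [col_self eR] at this
      omega
    exacts [p, absurd p ec]
  have mu : T.d z = T.d u + 1 → z ∈ T.NT u := fun d => by
    obtain ⟨y, y1, -, y2, -⟩ := z1
    have := (O_mem hu (T.mem_NT.1 y1).1).2
    exact y2.eq_of_d (by omega) ▸ y1
  rcases step2 hS hu eo hz with ⟨x, p⟩ | ⟨p, ez⟩ | ⟨-, ⟨p, ez⟩ | ⟨n, uq⟩⟩ | p
  rotate_right
  · exact absurd (p.pt hS.mem).hasQ nq
  · exact absurd (h.good_SM hu eo p) nq
  · have pe := anc_p eR p.1
    have g : T.Anc (T.p u) (T.p e) := by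
      by_contra g
      exact O_ne_p hu eo (p.2.2.2.1 _ (h.adj_par hu ur po).symm
        (by rw [col_base pe.mem.1 (T.real _ hq) g, ← ht.2, p.2.2.1])).symm
    have := g.lt fun g => c_ch_ne (T.mem_ch.2 ⟨eR, p.1, g.symm⟩) qr (by rw [← ht.2, p.2.2.1])
    have := T.d_p e eR p.1
    obtain rfl := ez.eq_of_d (by omega)
    exact .inr (.inr (.inr (.inr (.inr (.inl ⟨ev sp.2.1, .inl p⟩)))))
  · by_cases g : e = z
    · exact .inr (.inr (.inr (.inr (.inr (.inl ⟨ev (g ▸ sp.2.1), .inr p⟩)))))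
    have := ez.lt g
    have := (O_mem (T.p_mem e eR p.2.1) p.2.2.1).2
    have ce : e ∈ T.ch (T.p e) := T.mem_ch.2 ⟨eR, p.2.1, rfl⟩
    have := d_ch ce
    exact .inr (.inr (.inr (.inr (.inl ⟨p, hid fun _ => by omega, z, ez.ch_of_d g (by omega),
      mu (by omega), sp.2.1⟩))))
  by_cases a : G.Adj z (T.p u)
  · have pos : T.Anc e z ∨ T.Anc e u := by
      by_contra g
      push Not at g
      exact z2 (by rw [col_base sp.1 er g.1, col_base hu er g.2])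
    have hh := hid fun p => pos.elim (fun g => g.lt fun r => (ev p).nq (r ▸ a.symm)) fun g =>
      absurd (T.mem_ch.1 (g.ch_of_d (T.O_adj u hu e eo).ne.symm (O_mem eR p).2)).2.2.symm
        (O_ne_p hu eo)
    exact .inr (.inr (.inl ⟨z, hz, a, n, uq, hh, pos.imp_left fun g =>
      ⟨g, fun r => (T.mem_H.1 hh).2.2.1 (r ▸ sp.2.1)⟩⟩))
  by_cases tq : T.PayT (T.p u) u
  · exact .inl tq
  obtain ⟨tt, m, m1, m2, m3⟩ := h.visit hu ur po sp a n uq
  have cu := col_p_self hu ur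
  rcases high hq po sp.1 n m1 m2 (fun k => absurd k tq) (m3.trans cu.symm) with k | ⟨g, x, o⟩ | k
  · exact .inr (.inl ⟨z, z1, n, tt, k⟩)
  swap
  · exact .inr (.inr (.inr (.inr (.inr (.inr (mem_ptC.2 ⟨pc, po, k.vis_pt⟩))))))
  have ⟨o1, o2, o3, o4, o5, o6, o7⟩ := o
  obtain ⟨b1, b2, b3, b4⟩ := h.opn_tight hq po cu sp.2.2 tq o
  have gz := (anc_ch o1).trans o2
  have gR := gz.mem.1
  have ng : ¬ T.Anc u g := fun k => sp.2.2 (k.trans gz)
  have := d_ch o1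
  have := (O_mem gR o5).2
  have xz := o2.lt fun r => T.prop T.r T.r_mem u z (T.O_adj z sp.1 u sp.2.1).symm
    (by rw [T.col_r, ← r, o4, cu])
  obtain ⟨k, k1, k2, k3⟩ := b4 _ l (by rw [b3, ← col_par hu ur]; exact T.ne_p u hu e eo)
  by_cases ke : k = e
  · subst ke
    have pth : T.Anc g k ∧ T.Anc k z := by
      by_contra r
      exact z2 (by rw [col_diff gz er r, k3])
    have xk := Anc.under o1 o2 pth.1 pth.2 fun r => b1 (r ▸ k1)
    have ne : x ≠ k := fun r => b2 (r ▸ k1)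
    have := xk.lt ne
    have zo : z ∈ T.NT u := by
      by_cases r : k = z
      · exact r ▸ e1
      · have := pth.2.lt r
        exact mu (by omega)
    exact .inr (.inr (.inr (.inl ⟨z, g, x, ⟨hu, ur, zo, sp.2.1, fun r => a r.symm⟩, n, uq, o, xk,
      ne, pth.2⟩)))
  exfalso
  rcases high hu eo gR ng k1 ke (fun _ => k2) k3 with ⟨y, r⟩ | ⟨b, y, r1, r2, -, -, r3, -⟩ | r
  · rcases h.chainV (Ct := CM T) hu eo ng (fun κ p q => let ⟨m, s, _, t⟩ := b4 κ p q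
      ⟨m, s, t⟩) r with s | s | ⟨e', s, s1, -, s2, -⟩
    exacts [nq s, ne_empty_of_mem o1 s.1,
      s (O_inj hu (T.mem_NT.1 s1).1 eo (s2.2.trans ht.2.symm))]
  · have := d_ch r1
    have := r2.le
    have := (O_mem (anc_ch r1).mem.1 r3).2
    omega
  · exact nq r.vis_pt.hasQ

end IsB

end Pool.Agent.Lib.MP_12eaff_co.Frz.Acc2
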