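import Pool.Agent.Lib.MP_12eaff_co.Frz.Acc2.Ex
import Pool.Agent.Lib.MP_12eaff_co.Frz.Acc2.A

set_option autoImplicit false
set_option linter.unusedSectionVars false

namespace Pool.Agent.Lib.MP_12eaff_co.Frz.Acc2

open Finset Pool.Agent.Lib.MP_12eaff_co.Frz.BK
open scoped Classical

variable {V : Type} [Fintype V] {G : SimpleGraph V} {D : ℕ} {ι : Type}

/-- Ownership and priorities: `q i` is the first vertex of the cluster `mb i`, `cl u` is the
cluster that protects `u`, `E q v u` says that `v` may adopt `u` when the owner is `q`. -/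
structure Own (T : Tr G D) (mb : ι → V → Prop) (cl : V → ι) (q : ι → V)
    (E : V → V → V → Prop) (pf : V → V → ℕ) : Prop where
  O_iff : ∀ v ∈ T.R, ∀ u, u ∈ T.O v ↔ Pr T v u ∧ u ∈ T.R ∧ T.d u ≤ T.d v + 1
  own : ∀ i, ∀ x ∈ T.R, mb i x → q i ∈ T.R ∧ mb i (q i) ∧ T.d (q i) ≤ T.d x
  el : ∀ v ∈ T.R, v ≠ T.r → v = q (cl v) ∨ E (q (cl v)) (T.p v) v
  reach : ∀ v ∈ T.R, ∀ u, u ∉ T.Dm → Pr T v u → q (cl u) ∈ T.R ∧ mb (cl u) (q (cl u)) ∧
    T.d (q (cl u)) ≤ T.d v + 1 ∧ (E (q (cl u)) v u → u ∈ T.O v)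
  fifo : ∀ x ∈ T.R, ∀ v ∈ T.R, Pr T v x → T.d v + 1 = T.d x →
    (x = q (cl x) ∨ E (q (cl x)) v x) → pf (T.p x) x ≤ pf v x

/-- Without immobile vertices all filling rules follow from non-colourability. -/
theorem Tr.nfc_of (T : Tr G D) (hn : ¬ Colr G D) (h : T.Dm = ∅) (t : ℕ) : T.NFc t :=
  fun _ _ g _ b c _ _ => hn ⟨g, fun v => b v (h ▸ notMem_empty v), c⟩

theorem Tr.nf_of (T : Tr G D) (hn : ¬ Colr G D) (h : T.Dm = ∅) (t : ℕ) : T.NF t :=
  (T.nfc_of hn h t).nf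

theorem Tr.ns_of (T : Tr G D) (h : T.S2 = ∅) (z v : V) : T.NS z v :=
  fun m k => absurd (h ▸ k) (notMem_empty m)

/-- Trees with ownership exist for every root, colouring of the rest, clusters, eligibility
rule and priorities. -/
theorem exists_isB (hn : ¬ Colr G D) (hd : ∀ v, (nb G v).card ≤ D + 1) {r : V} {c : V → ℕ}
    (c1 : PCol G D c) (c2 : c r = D) (c3 : ∀ m, m ≠ r → c m < D)
    (mb : ι → V → Prop) (cl : V → ι) (hcl : ∀ u, mb (cl u) u)
    (E : V × V × (V → ℕ) → ℕ → V × V × (V → ℕ) → ℕ → V → Prop) (pf : V → V → ℕ) :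
    ∃ (T : Tr G D) (q : ι → V), IsB T ∧ T.Dm = ∅ ∧ T.S2 = ∅ ∧ T.r = r ∧ T.c = c ∧
      (∀ v ∈ T.R, v ≠ T.r → v ∈ T.O (T.p v)) ∧
      Own T mb cl q (fun a v u => E (a, T.p a, T.col a) (T.d a) (v, T.p v, T.col v) (T.d v) u)
        pf := by
  let F : Fm V := ⟨univ, ∅⟩
  have h : HC G D F r c := ⟨fun a b e => by
      by_cases k : a = r
      · have := c3 b fun z => e.ne (k.trans z.symm)
        rw [k, c2]; omega
      · exact c1 a b e (c3 a k), c2, mem_univ _, fun m _ => notMem_empty m, fun m _ => c3 m,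
    fun m k => absurd k (notMem_empty m), fun g _ b e => hn ⟨g, fun v => b v (mem_univ _), e⟩⟩
  let St : Type := {s : V × V × (V → ℕ) // HC G D F s.1 s.2.2 ∧ (s.2.1 = s.1 ∨ G.Adj s.1 s.2.1)}
  let O : St → Finset V := fun s =>
    (nb G s.1.1).filter (fun u => u ≠ s.1.2.1 ∧ Uq G s.1.2.2 s.1.1 u)
  have hO : ∀ s u, u ∈ O s ↔ G.Adj s.1.1 u ∧ u ≠ s.1.2.1 ∧ Uq G s.1.2.2 s.1.1 u := by
    intro s u; simp [O]
  let nx : St → V → St := fun s u => if hu : u ∈ O s then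
    ⟨(u, s.1.1, shift D s.1.2.2 s.1.1 u),
      s.2.1.shift (mem_univ _) ((hO s u).1 hu).1.ne.symm ((hO s u).1 hu).2.2,
      Or.inr ((hO s u).1 hu).1.symm⟩ else s
  have hA : ∀ (s : St) u, u ∈ O s ∨ u ∈ (∅ : Finset V) → u ∈ O s :=
    fun s u h => h.resolve_right (notMem_empty u)
  let M : Rules G D ∅ St :=
    { hole := fun s => s.1.1
      par := fun s => s.1.2.1
      f := fun s => s.1.2.2
      O := O
      X := fun _ => ∅
      wt := fun _ _ => 3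
      nx := nx
      real := fun s => notMem_empty _
      prop := fun s => s.2.1.pr
      full := fun s m _ k => s.2.1.lt m (mem_univ _) k
      dm_ne := fun s m k => absurd k (notMem_empty m)
      wt3 := fun _ _ => le_rfl
      O_adj := fun s u hu => ((hO s u).1 hu).1
      X_nadj := fun s u hu => absurd hu (notMem_empty u)
      uniq := fun s u hu => ((hO s u).1 hu).2.2
      ne_p := fun s u hu => by
        obtain ⟨h1, h2, h3⟩ := (hO s u).1 (hA s u hu)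
        rcases s.2.2 with e | e
        · have := s.2.1.lt u (mem_univ _) h1.ne.symm
          rw [e, s.2.1.hole]; omega
        · exact (h3 _ e h2.symm).symm
      nx_hole := fun s u hu => by simp only [nx, dif_pos (hA s u hu)]
      nx_par := fun s u hu => by simp only [nx, dif_pos (hA s u hu)]
      nx_f := fun s u hu m _ => by simp only [nx, dif_pos (hA s u hu)] }
  obtain ⟨T, st, q, d1, d2, h1, h2, h4, h5, h6, h7, h8⟩ :=
    M.exists_own (S2 := ∅) Subset.rfl mb cl hcl (fun s a t b u => E s.1 a t.1 b u) pf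
      ⟨(r, r, c), h, Or.inl rfl⟩ rfl h.hole
  have es : ∀ v ∈ T.R, (st v).1 = (v, T.p v, T.col v) := fun v hv =>
    Prod.ext (h4 v hv).1 (Prod.ext (h4 v hv).2.1 (h4 v hv).2.2.1)
  have key : ∀ v ∈ T.R, ∀ u, u ∈ M.O (st v) ↔ Pr T v u := fun v hv u => by
    refine (hO _ u).trans ?_
    rw [es v hv, Pr]
  have mo : ∀ v ∈ T.R, ∀ u, u ∈ T.O v ↔ Pr T v u ∧ u ∈ T.R ∧ T.d u ≤ T.d v + 1 := fun v hv u => by
    rw [(h4 v hv).2.2.2, mem_filter, key v hv]
  have ln : ∀ v ∈ T.R, ∀ u, Pr T v u → M.len (st v) u = 1 := fun v hv u k =>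
    if_pos ((key v hv u).2 k)
  refine ⟨T, q, ⟨T.nf_of hn d1 2, fun v _ => by rw [d2, sdiff_empty]; exact hd v,
    fun v _ => T.ns_of d2 v v, fun v _ _ _ m k => absurd (d1 ▸ k) (notMem_empty m)⟩, d1, d2, h1,
    ?_, fun v hv hr => ?_, mo, h6, fun v hv hr => ?_, fun v hv u _ hu => ?_,
    fun x hx v hv hu e k => h8 x hx v hv (.inl ((key v hv x).2 hu)) (by rwa [ln v hv x hu]) ?_⟩
  · rw [← T.col_r, ← (h4 _ T.r_mem).2.2.1, h2]
  · obtain ⟨_, a, b, _⟩ := h5 v hv hr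
    have p := (key _ (T.p_mem v hv hr) v).1 (hA _ _ a)
    exact (mo _ (T.p_mem v hv hr) v).2 ⟨p, hv, by rw [b, ln _ (T.p_mem v hv hr) v p]⟩
  · have := (h5 v hv hr).2.2.2
    rwa [es _ (h6 _ v hv (hcl v)).1, es _ (T.p_mem v hv hr)] at this
  · obtain ⟨a1, a2, a3, a4⟩ := h7 v hv u (.inl ((key v hv u).2 hu))
    rw [ln v hv u hu] at a3 a4
    rw [es _ a1, es v hv] at a4
    exact ⟨a1, a2, a3, fun k => (mo v hv u).2 ⟨hu, a4 k⟩⟩
  · rwa [es _ (h6 _ x hx (hcl x)).1, es v hv]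

/-- If every adoption is eligible, no real arc is dropped. -/
theorem Own.isA {T : Tr G D} {mb : ι → V → Prop} {cl : V → ι} {q : ι → V} {E : V → V → V → Prop}
    {pf : V → V → ℕ} (o : Own T mb cl q E pf) (h : IsB T) (hE : ∀ a v u, E a v u) : IsA T :=
  ⟨h, fun v hv u md a b e => (o.reach v hv u md ⟨a, b, e⟩).2.2.2 (hE _ _ _)⟩

/-- The plain tree exists for every root, every colouring of the rest and all priorities. -/
theorem exists_isA (hn : ¬ Colr G D) (hd : ∀ v, (nb G v).card ≤ D + 1) {r : V} {c : V → ℕ}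
    (c1 : PCol G D c) (c2 : c r = D) (c3 : ∀ m, m ≠ r → c m < D) (pf : V → V → ℕ) :
    ∃ T : Tr G D, IsA T ∧ T.Dm = ∅ ∧ T.S2 = ∅ ∧ T.r = r ∧ T.c = c ∧
      (∀ v ∈ T.R, v ≠ T.r → v ∈ T.O (T.p v)) ∧
      ∀ x ∈ T.R, ∀ v ∈ T.R, x ∈ T.O v → T.d v + 1 = T.d x → pf (T.p x) x ≤ pf v x := by
  obtain ⟨T, q, h1, h2, h3, h4, h5, h6, o⟩ := exists_isB hn hd c1 c2 c3 (fun i x => x = i) id
    (fun _ => rfl) (fun _ _ _ _ _ => True) pf
  exact ⟨T, o.isA h1 fun _ _ _ => trivial, h2, h3, h4, h5, h6, fun x hx v hv a b =>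
    o.fifo x hx v hv (h1.pr_O hv a) b (.inr trivial)⟩

/-- FIFO with an injective rank: two vertices of one level do not probe each other's
children. -/
theorem fifo_two {T : Tr G D} {rk : V → ℕ} (inj : Function.Injective rk)
    (h : ∀ x ∈ T.R, ∀ v ∈ T.R, x ∈ T.O v → T.d v + 1 = T.d x → rk (T.p x) ≤ rk v)
    {g g' l u : V} (hd : T.d g = T.d g') (h1 : l ∈ T.ch g) (o1 : l ∈ T.O g) (h2 : l ∈ T.O g')
    (h3 : u ∈ T.ch g') (o3 : u ∈ T.O g') (h4 : u ∈ T.O g) : g = g' := by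
  have a := h l (Tr.anc_ch h1).mem.2 g' (Tr.anc_ch h3).mem.1 h2 (by rw [Tr.d_chO h1 o1, hd])
  have b := h u (Tr.anc_ch h3).mem.2 g (Tr.anc_ch h1).mem.1 h4 (by rw [Tr.d_chO h3 o3, hd])
  rw [(T.mem_ch.1 h1).2.2] at a
  rw [(T.mem_ch.1 h3).2.2] at b
  exact inj (le_antisymm a b)

end Pool.Agent.Lib.MP_12eaff_co.Frz.Acc2
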