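import Pool.Agent.Lib.MP_12eaff_co.Frz.Acc2.AD2
import Pool.Agent.Lib.MP_12eaff_co.Frz.Acc2.Inst
import Pool.Agent.Lib.MP_12eaff_co.Frz.Red

set_option autoImplicit false
set_option linter.unusedSectionVars false

namespace Pool.Agent.Lib.MP_12eaff_co.Frz.Acc2

open Finset Pool.Agent.Lib.MP_12eaff_co.Frz.BK
open scoped Classical

variable {V : Type} [Fintype V] {G : SimpleGraph V} {D : ℕ} {T : Tr G D} {u v w e x y z m : V}

open Tr IsA

/-- Trees without ports in a graph with the static properties. -/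
structure IsP (T : Tr G D) : Prop extends IsA T where
  dm : T.Dm = ∅
  st : AT.Stat G D T.Dm

/-- Budget after the two pair units of an internal head. -/
noncomputable def cp (T : Tr G D) (u : V) : ℕ := if T.ch u = ∅ then D - 3 else D - 5

/-- The child `y` lies inside the clique of `x`. -/
structure Inn (T : Tr G D) (x y : V) : Prop where
  ch : y ∈ T.ch x
  o : y ∈ T.O x
  a : G.Adj y (T.p x)
  two : 2 ≤ (Zc T y ∩ Zc T x).card

namespace IsP

theorem nd (h : IsP T) : m ∉ T.Dm := by simp [h.dm]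

theorem hn (h : IsP T) (z v : V) : T.NS z v := fun _ k => absurd (T.S2_sub k) h.nd

theorem nshw (h : IsP T) {κ : ℕ} : ¬ T.Shw z v κ := fun ⟨_, k, _⟩ => h.nd k

theorem npw (h : IsP T) : ¬ T.PW x z w := fun ⟨_, _, _, k⟩ => k.elim (h.nshw ·.shw) h.nshw

theorem pa (h : IsP T) (u : V) : (PA T u).card = 0 :=
  card_eq_zero.2 (eq_empty_of_forall_notMem fun _ k =>
    let ⟨_, _, a⟩ := (mem_filter.1 k).2; h.nshw a.shw)

theorem t_le (h : IsP T) (hu : u ∈ T.R) : (T.tE (MT T) (O0 T) u).card = 0 ∨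
    (T.tE (MT T) (O0 T) u).card = 1 ∧ (Zc T u).card ≤ 3 := by
  have := card_tE (Ct := MT T) (Use := O0 T) hu
  rcases (T.tE (MT T) (O0 T) u).eq_empty_or_nonempty with k | ⟨e, k⟩
  · exact .inl (card_eq_zero.2 k)
  · have := h.t_few h.hn hu k
    have := h.pa u
    have := card_pos.2 ⟨e, k⟩
    omega

theorem X_near (h : IsP T) (hu : u ∈ T.R) (c : 5 ≤ (Zc T u).card) (k : e ∈ Xc T u)
    (n : ¬ T.Anc u e) : e ∉ Kc T u ∧ 4 ≤ ((Kc T u).filter (G.Adj e)).card := by
  obtain ⟨w, p⟩ := card_pos.1 (by omega : 0 < (Zc T u).card)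
  obtain ⟨a, b, d⟩ := Xc_tail k
  exact ⟨tail_Kc a b d (Zc_nr p), h.ev4 h.hn hu (by have := h.pa u; omega) k n⟩

theorem X_leaf (l : T.ch u = ∅) (k : e ∈ Xc T u) : ¬ T.Anc u e := fun z =>
  (T.O_adj e (Xc_tail k).1 u (T.mem_NT.1 (Xc_tail k).2.1).1).ne (leaf_anc l z).symm

theorem leaf (h : IsP T) (hA : AC G D T.R) (hD : 10 ≤ D) (hu : u ∈ T.R) (l : T.ch u = ∅) :
    ld T u ≤ D - 3 := by
  have := h.card_Xc' hu
  have := h.t_le hu
  rw [if_pos l] at *
  unfold ld
  by_cases c : 5 ≤ (Zc T u).card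
  · have := h.cnt_near h.hn h.st hA hu c (N := Xc T u) (fun _ k => (Xc_tail k).1)
      fun b k => h.X_near hu c k (X_leaf l k)
    omega
  · omega

theorem off_par (h : IsP T) (k : y ∈ T.ch x) (n : ¬ G.Adj y (T.p x)) : Zc T y ∩ Zc T x = ∅ :=
  eq_empty_of_forall_notMem fun w p => by
    obtain ⟨p1, p2⟩ := mem_inter.1 p
    have hx := (anc_ch k).mem.1
    refine h.xch p2 (anc_ch k) (fun m a b c => ?_) h.nshw n (Zc_O p1)
    rw [between k a b c]
    exact iff_of_true (mem_W.1 (Zc_W p2)).1.symm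
      (h.adj_par hx (Zc_nr p2) (W_par (Zc_W p2)))

theorem dich (h : IsP T) (k : y ∈ T.ch x) (xr : x ≠ T.r) :
    (T.tE (MT T) (O0 T) y).card + (Zc T y ∩ Zc T x).card ≤ 1 ∨ Inn T x y := by
  by_cases a : G.Adj y (T.p x)
  swap
  · rw [h.off_par k a]
    exact .inl (card_tE (T.mem_ch.1 k).1)
  rw [(h.inner_t k xr a).2]
  by_cases c : 2 ≤ (Zc T y ∩ Zc T x).card
  swap
  · exact .inl (by simp; omega)
  refine .inr ⟨k, by_contra fun o => ?_, a, c⟩
  simp [(pass_Z k o).1] at c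

theorem exit (h : IsP T) (hx : x ∈ T.R) (o : e ∈ T.O x) {a b : V} (ha : a ∈ Zc T x)
    (hb : b ∈ Zc T x) (ab : a ≠ b) (a1 : G.Adj e a) (b1 : G.Adj e b) :
    G.Adj (T.p x) e ∧ ∀ w ∈ Zc T x, e ≠ w → G.Adj e w := by
  have := fun n => (h.exit_one3 hx o (h.hn _ _) (h.hn _ _) n (Zc_W ha) (Zc_W hb) a1 b1).elim ab
    fun z => z.elim h.npw h.npw
  exact ⟨by_contra fun n => this (.inl n), fun w k q => by_contra fun n =>
    this (.inr ⟨w, Zc_W k, q, n, h.hn _ _, h.npw⟩)⟩

theorem inn_adj (h : IsP T) (i : Inn T x y) :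
    (∀ w ∈ Zc T x, G.Adj y w) ∧ ∀ e ∈ Zc T y, G.Adj (T.p x) e := by
  obtain ⟨hy, -, py⟩ := T.mem_ch.1 i.ch
  have hx := (anc_ch i.ch).mem.1
  obtain ⟨a, p, b, q, ab⟩ := one_lt_card.1 i.two
  obtain ⟨p1, p2⟩ := mem_inter.1 p
  obtain ⟨q1, q2⟩ := mem_inter.1 q
  refine ⟨fun w k => (h.exit hx i.o p2 q2 ab (mem_W.1 (Zc_W p1)).1 (mem_W.1 (Zc_W q1)).1).2 w k
    fun z => ch_nZ i.ch (z ▸ k), fun e k => ?_⟩
  by_cases s : e ∈ Zc T x
  · exact T.O_adj _ (T.p_mem x hx (Zc_nr s)) e (Zc_Oq s)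
  · exact (h.exit hx (py ▸ Zc_Oq k) p2 q2 ab (h.Zc_clq h.hn hy e k a p1 fun z => s (z ▸ p2))
      (h.Zc_clq h.hn hy e k b q1 fun z => s (z ▸ q2))).1

theorem ch_Kc (k : y ∈ T.ch x) (xr : x ≠ T.r) : y ∉ Kc T x := by
  have := d_ch k
  have := T.d_p x (anc_ch k).mem.1 xr
  simp only [Kc, mem_insert, not_or]
  exact ⟨fun z => by have := congrArg T.d z; omega, fun z => by have := congrArg T.d z; omega,
    ch_nZ k⟩

/-- The two cliques with one more vertex. -/
theorem inn_full (h : IsP T) (i : Inn T x y) : (∀ w ∈ Kc T x, G.Adj y w) ∧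
    (∀ w ∈ Kc T y, G.Adj (T.p x) w) ∧ x ≠ T.r := by
  obtain ⟨hy, -, py⟩ := T.mem_ch.1 i.ch
  have hx := (anc_ch i.ch).mem.1
  obtain ⟨a, p⟩ := card_pos.1 (lt_of_lt_of_le two_pos i.two)
  have p2 := (mem_inter.1 p).2
  obtain ⟨k1, k2⟩ := h.inn_adj i
  refine ⟨fun w k => ?_, fun w k => ?_, Zc_nr p2⟩ <;> simp only [Kc, mem_insert] at k
  · rcases k with rfl | rfl | k
    exacts [i.a, (T.O_adj _ hx y i.o).symm, k1 w k]
  · rcases k with k | k | k
    · rw [k, py]
      exact h.adj_par hx (Zc_nr p2) (W_par (Zc_W p2))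
    exacts [k ▸ i.a.symm, k2 w k]

theorem clq_ins {K : Finset V} (hK : IsClq G K) (a : ∀ w ∈ K, G.Adj y w) :
    IsClq G (insert y K) := fun s p t q n => by
  rcases mem_insert.1 p with p | p <;> rcases mem_insert.1 q with q | q
  exacts [absurd (p.trans q.symm) n, p ▸ a t q, q ▸ (a s p).symm, hK s p t q n]

theorem full4 {K : Finset V} (c : 4 ≤ K.card) (a : ∀ w ∈ K, G.Adj y w) :
    4 ≤ (K.filter (G.Adj y)).card := by rwa [filter_true_of_mem a]

theorem chain (h : IsP T) (hA : AC G D T.R) {ω : ℕ} (hω : ∀ Q ⊆ T.R, IsClq G Q → Q.card ≤ ω)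
    (hD : 12 ≤ D) (hD' : ω + 15 ≤ 2 * D) (i : Inn T x y) (one : T.ch x = {y})
    (t : (T.tE (MT T) (O0 T) x).card = 0) (c : D ≤ (Zc T x).card + 6) (nd : D - 5 < ld T x) :
    ld T y + ld T x ≤ cp T y + (D - 5) ∨
      ∃ z ∈ T.ch y, ld T z + (ld T y - cp T y) + (ld T x - (D - 5)) ≤ cp T z := by
  obtain ⟨hy, yr, py⟩ := T.mem_ch.1 i.ch
  have hx := (anc_ch i.ch).mem.1
  obtain ⟨f1, f2, xr⟩ := h.inn_full i
  have hg := T.p_mem x hx xr
  obtain ⟨yH, ty⟩ := h.inner_t i.ch xr i.a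
  have ty := card_eq_zero.2 ty
  have yg := (T.mem_H.1 yH).2.2.1
  have il : T.ch x ≠ ∅ := ne_empty_of_mem i.ch
  have gK : T.p x ∉ Kc T y := fun z => (f2 _ z).ne rfl
  have gX : T.p x ∉ Xc T y := fun z => yg (T.mem_NT.1 (Xc_tail z).2.1).1
  have kx := card_Kc hx xr
  have ky := card_Kc hy yr
  have bx := h.card_Xc' hx
  have bY := h.card_Xc' hy
  rw [if_neg il] at bx
  unfold ld cp at *
  by_cases l : T.ch y = ∅
  · left
    rw [if_pos l] at *
    have yX : y ∉ Xc T x := fun z => h.O_nBd hx i.o (h.Xc_int hx il z)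
    have a := h.cnt_near h.hn h.st hA hx (by omega) (N := insert y (Xc T x))
      (insert_subset hy fun _ k => (Xc_tail k).1) fun b k => (mem_insert.1 k).elim
        (fun z => z ▸ ⟨ch_Kc i.ch xr, full4 (by omega) f1⟩) fun k =>
        h.X_near hx (by omega) k fun z => by
          obtain ⟨s, s1, s2⟩ := z.child
            (T.O_adj b (Xc_tail k).1 x (T.mem_NT.1 (Xc_tail k).2.1).1).ne.symm
          rw [one, mem_singleton] at s1
          exact yX (leaf_anc l (s1 ▸ s2) ▸ k)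
    rw [card_insert_of_notMem yX] at a
    by_cases q : 5 ≤ (Zc T y).card
    swap
    · omega
    have b := h.cnt_near h.hn h.st hA hy q (N := insert (T.p x) (Xc T y))
      (insert_subset hg fun _ k => (Xc_tail k).1) fun b k => (mem_insert.1 k).elim
        (fun z => z ▸ ⟨gK, full4 (by omega) f2⟩) fun k => h.X_near hy q k (X_leaf l k)
    rw [card_insert_of_notMem gX] at b
    omega
  obtain ⟨z, hz⟩ := nonempty_iff_ne_empty.2 l
  refine .inr ⟨z, hz, ?_⟩
  obtain ⟨zR, -, pz⟩ := T.mem_ch.1 hz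
  obtain ⟨a, p⟩ := card_pos.1 (lt_of_lt_of_le two_pos i.two)
  obtain ⟨p1, p2⟩ := mem_inter.1 p
  have w1 := hω _ (insert_subset hy (Kc_R hx xr)) (clq_ins (h.Kc_clq h.hn hx p2) f1)
  rw [card_insert_of_notMem (ch_Kc i.ch xr)] at w1
  have bz := h.card_Xc' zR
  have tz := card_tE (Ct := MT T) (Use := O0 T) zR
  rw [if_neg l] at *
  by_cases zo : z ∈ T.O y
  swap
  · have w2 := hω _ (insert_subset hg (Kc_R hy yr)) (clq_ins (h.Kc_clq h.hn hy p1) f2)
    have := hA.clq (by omega) (insert_subset hy (Kc_R hx xr)) (clq_ins (h.Kc_clq h.hn hx p2) f1)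
    have := hA.clq (by omega) (insert_subset hg (Kc_R hy yr)) (clq_ins (h.Kc_clq h.hn hy p1) f2)
    rw [card_insert_of_notMem (ch_Kc i.ch xr), card_insert_of_notMem gK] at *
    rw [(pass_Z hz zo).1, (pass_Z hz zo).2, card_empty]
    split_ifs at * <;> omega
  have xz := (anc_ch i.ch).trans (anc_ch hz)
  have zg : ¬ G.Adj z (T.p x) := fun k => h.H_nadj hg yH (F2 hg zR k.symm (by
    have := d_ch hz; have := d_ch i.ch; have := T.d_p x hx xr; omega)) h.nd h.nd
    (T.O_adj y hy z zo)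
  have ex : ∀ w ∈ Zc T x, w ∉ T.O z := fun w k => h.xch k xz (fun m m1 m2 m3 => by
    have m4 : T.Anc m y := pz ▸ (m2.cases'.resolve_left m3).2
    by_cases q : m = y
    · exact q ▸ iff_of_true (f1 w (by simp [Kc, k])).symm i.a.symm
    · rw [between i.ch m1 m4 q]
      exact iff_of_true (mem_W.1 (Zc_W k)).1.symm (h.adj_par hx xr (W_par (Zc_W k)))) h.nshw zg
  have zp : z ≠ T.p x := fun e => IsB.p_off xr xz ⟨e ▸ xz, e ▸ .refl z zR⟩
  have gz : T.p x ∉ Zc T z := fun k => zg (mem_W.1 (Zc_W k)).1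
  have gd := (h.dich hz yr).resolve_right fun j => by
    obtain ⟨b, q, b', q', n⟩ := one_lt_card.1 i.two
    have k := fun b (q : b ∈ Zc T y ∩ Zc T x) => (h.H_Bd zR h.nd).1
      (((adj_cases zR (Zc_R (mem_inter.1 q).1) ((h.inn_adj j).1 b (mem_inter.1 q).1)).resolve_left
        (ex b (mem_inter.1 q).2)).resolve_right fun s =>
          (mem_W.1 (Zc_W (mem_inter.1 q).1)).1.ne (pz.symm.trans (T.mem_ch.1 s).2.2))
    exact h.Bd_nadj zR (k b q) (k b' q')
      (h.Zc_clq h.hn hy b (mem_inter.1 q).1 b' (mem_inter.1 q').1 n)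
  -- the vertices `p x` and `Zc x` lie in `O y` or in `Bd y`
  have pos : ∀ w ∈ insert (T.p x) (Zc T x), w ∈ T.O y ∨ w ∈ T.Bd y := fun w k => by
    have wK : w ∈ Kc T x := by simp only [Kc, mem_insert] at k ⊢; tauto
    refine (adj_cases hy (Kc_R hx xr wK) (f1 w wK)).imp_right fun s =>
      (h.H_Bd hy h.nd).1 (s.resolve_right fun s => ?_)
    have e := py.symm.trans (T.mem_ch.1 s).2.2
    rcases mem_insert.1 k with q | q
    exacts [p_ne hx xr (q ▸ e).symm, (mem_W.1 (Zc_W q)).1.ne e]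
  have s1 : ((insert (T.p x) (Zc T x)).filter (· ∈ T.Bd y)).card ≤ 1 :=
    card_le_one.2 fun s p t q => by_contra fun n => h.Bd_nadj hy (mem_filter.1 p).2
      (mem_filter.1 q).2 (h.Kc_clq h.hn hx p2 s (by
        have := (mem_filter.1 p).1; simp only [Kc, mem_insert] at this ⊢; tauto) t (by
        have := (mem_filter.1 q).1; simp only [Kc, mem_insert] at this ⊢; tauto) n)
  have s2 := card_filter_add_card_filter_not (s := insert (T.p x) (Zc T x)) (· ∈ T.Bd y)
  rw [card_insert_of_notMem fun k => O_ne_p hx (Zc_O k) rfl] at s2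
  have s3 : ((insert (T.p x) (Zc T x)).filter (· ∉ T.Bd y)).card + ((Zc T z).card + 1) ≤
      (T.O y).card := by
    rw [← card_insert_of_notMem (a := z) fun k => (mem_W.1 (Zc_W k)).1.ne rfl,
      ← card_union_of_disjoint (disjoint_left.2 fun s p q => ?_)]
    · exact card_le_card (union_subset (fun s p => (pos s (mem_filter.1 p).1).resolve_right
        (mem_filter.1 p).2) (insert_subset zo fun s p => pz ▸ Zc_Oq p))
    · rcases mem_insert.1 (mem_filter.1 p).1 with r | r <;> rcases mem_insert.1 q with q | q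
      · exact zp (q.symm.trans r)
      · exact gz (r ▸ q)
      · have := (IsB.W_dep hx (Zc_W r)).2
        have := d_ch hz
        have := d_ch i.ch
        rw [q] at *
        omega
      · exact ex s r (Zc_O q)
  have s4 : ((insert (T.p x) (Zc T x)).filter (· ∈ T.Bd y)).card + (T.O y).card + 1 ≤ D := by
    have a := h.card_O2 hy
    rw [if_pos ⟨yr, W_par (Zc_W p1)⟩] at a
    split_ifs at a with b
    · simp only [b, notMem_empty, filter_false, card_empty]
      omega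
    · omega
  have s5 : (Xc T y).card + (T.tE (MT T) (O0 T) z).card + (Zc T z).card + (Zc T y).card + 1 ≤ D := by
    rcases pos _ (mem_insert_self _ _) with o | o
    · have := pair_O hz (E := {T.p x}) (by simpa using o) (by simpa using zp) (by
          simpa using ⟨fun k => gK (by simp [Kc, k]), gz⟩) gd
      have := h.OX hy p1 (h.Xc_int hy l)
      rw [card_singleton] at *
      omega
    · have := pair_O hz (E := ∅) (by simp) (by simp) (by simp) gd
      have := h.OX hy p1 (insert_subset o (h.Xc_int hy l))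
      rw [card_insert_of_notMem gX] at this
      omega
  split_ifs at * <;> omega

theorem ledger (h : IsP T) (hA : AC G D T.R) {ω : ℕ} (hω : ∀ Q ⊆ T.R, IsClq G Q → Q.card ≤ ω)
    (hD : 12 ≤ D) (hD' : ω + 15 ≤ 2 * D) : ∑ x ∈ T.R, ld T x ≤ ∑ x ∈ T.R, cp T x := by
  refine T.ledger _ _ fun x hx nd => ?_
  by_cases l : T.ch x = ∅
  · have := h.leaf hA (by omega) hx l
    rw [cp, if_pos l] at nd
    omega
  have e : cp T x = D - 5 := if_neg l
  have b := h.card_Xc' hx
  have t := h.t_le hx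
  rw [if_neg l] at b
  rw [e] at nd ⊢
  have nd' := nd
  unfold ld at nd'
  obtain ⟨w, k⟩ := card_pos.1 (by omega : 0 < (Zc T x).card)
  have xr := Zc_nr k
  by_cases c : ∃ y ∈ T.ch x, (T.tE (MT T) (O0 T) y).card + (Zc T y ∩ Zc T x).card ≤ 1
  · obtain ⟨y, hy, c⟩ := c
    refine .inl ⟨y, hy, ?_⟩
    have := pair_O hy (E := ∅) (by simp) (by simp) (by simp) c
    have := h.OX hx k (h.Xc_int hx l)
    have := h.card_Xc' (T.mem_ch.1 hy).1
    unfold ld cp
    split_ifs at * <;> omega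
  have i : ∀ y ∈ T.ch x, Inn T x y := fun y hy =>
    (h.dich hy xr).resolve_left fun z => c ⟨y, hy, z⟩
  obtain ⟨y, hy⟩ := nonempty_iff_ne_empty.2 l
  exact (h.chain hA hω hD hD' (i y hy) (eq_singleton_iff_unique_mem.2 ⟨hy, fun a ha =>
    h.inner_one hx xr (i a ha).o (i y hy).o (h.inner_t ha xr (i a ha).a).1
      (h.inner_t hy xr (i y hy).a).1⟩) (by omega) (by omega) nd).imp (fun z => ⟨y, hy, z⟩)
    fun z => ⟨y, hy, z⟩

/-- A balanced ledger is impossible. -/
theorem close (h : IsP T) (hD : 5 ≤ D) (k : ∑ x ∈ T.R, ld T x ≤ ∑ x ∈ T.R, cp T x) : False := by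
  have a := h.final3 hD (MT T) (O0 T)
  have b : ∑ y ∈ T.R, ((T.cost3 (MT T) (O0 T) y + (T.Dr y).card) + cp T y) ≤
      ∑ y ∈ T.R, ((D - 3 + (if T.Bd y = ∅ then 1 else 0) + 2 * (T.CX y).card) + ld T y) :=
    sum_le_sum fun y hy => by
      have := cost_ld T y
      have : (T.Dr y).card = 0 :=
        card_eq_zero.2 (eq_empty_of_forall_notMem fun _ z => h.nd (h.Dr_dm hy z))
      have : (T.ptN y).card = 0 := card_eq_zero.2 (eq_empty_of_forall_notMem fun _ z =>
        let ⟨_, _, a⟩ := (mem_ptN.1 z).2; h.nshw a.shw)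
      have : (T.piQ (O0 T) y).card ≤ 2 := by
        by_cases r : y = T.r
        · simp [r, piQ_r]
        · exact h.card_H (T.p_mem y hy r) piQ_sub fun _ _ => h.nd
      unfold cp
      split_ifs at * <;> omega
  simp only [sum_add_distrib] at a b
  omega

end IsP

theorem exists_isP (hD : 0 < D) (hd : ∀ v, (nb G v).card ≤ D + 1) (hn : ¬ Colr G D) :
    ∃ G' ≤ G, CR G' D ∧ ∃ T : Tr G' D, IsP T := by
  obtain ⟨G', le, h⟩ := exists_cr G hd hn
  obtain ⟨a, b, ab⟩ : ∃ a b, G'.Adj a b := by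
    by_contra! k
    exact h.ncol ⟨fun _ => 0, fun _ => hD, fun u v z => absurd z (k u v)⟩
  obtain ⟨c, c1, c2⟩ := h.del {b} b a (by simp) ab
  have l : ∀ m, m ≠ b → c m < D := fun m k => (c2 m).2 (by simpa using k)
  obtain ⟨T, t1, t2, -⟩ := exists_isA (r := b) (c := Function.update c b D) h.ncol h.deg
    (fun u v z k => by
      by_cases p : u = b
      · simp [p] at k
      by_cases q : v = b
      · rw [q, Function.update_self]
        exact k.ne
      · rw [Function.update_of_ne p, Function.update_of_ne q]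
        exact c1 u v z (l u p)) (by simp) (fun m k => by simpa [k] using l m k) fun _ _ => 0
  exact ⟨G', le, h, T, t1, t2, h.stat⟩

/-- Maximum degree `14` without `K₁₂`. -/
theorem st_13 : St V 13 11 := fun G hd cf => by_contra fun hn => by
  obtain ⟨G', le, -, T, h⟩ := exists_isP (by omega) hd hn
  have k : ∀ Q, IsClq G' Q → Q.card ≤ 11 := fun Q q => cf Q fun a x b y n => le (q a x b y n)
  exact h.close (by omega) (h.ledger (fun Q _ _ _ _ q _ _ => by have := k Q q; omega)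
    (fun Q _ => k Q) (by omega) (by omega))

end Pool.Agent.Lib.MP_12eaff_co.Frz.Acc2
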