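import Pool.Agent.Lib.MP_12eaff_co.Frz.ATX
import Pool.Agent.Lib.MP_12eaff_co.Frz.Acc2.Hole

set_option autoImplicit false
set_option linter.unusedSectionVars false

/-!
State forms of the exact lists, in a frame with movable set `S` and blank set `B`.
-/

namespace Pool.Agent.Lib.MP_12eaff_co.Frz.Acc2

open Finset BK AT
open scoped Classical

variable {V : Type} [Fintype V] {G : SimpleGraph V} {D : ℕ} {F : Fm V} {v : V} {f : V → ℕ}
  {H Y : Finset V}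

namespace HC

/-- The free lists of a movable set around the hole have no colouring. -/
theorem not_lc (h : HC G D F v f) (hS : H ⊆ F.S) (hv : v ∈ H) : ¬ LC G H (Fr G D H f) := by
  rintro ⟨φ, f1, f2⟩
  refine h.nf (fun x => if x ∈ H then φ x else f x) (fun m k => if_neg fun e => k (hS e))
    (fun m k => ?_) fun a b k => ?_
  · split_ifs with x
    exacts [(mem_Fr.1 (f1 m x)).1, h.lt m k fun e => x (e ▸ hv)]
  · split_ifs with x y y
    exacts [f2 a x b y k, fun e => (mem_Fr.1 (f1 a x)).2 ⟨b, k, y, e.symm⟩,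
      fun e => (mem_Fr.1 (f1 b y)).2 ⟨a, k.symm, x, e⟩, h.ne k]

/-- The number of colours seen outside `H`. -/
theorem seen_card (h : HC G D F v f) {w : V} (dg : F.Dg G D w) (T : Finset V)
    (hT : ∀ t ∈ T, G.Adj w t ∧ t ∈ H ∧ t ∈ F.S) {A : Finset ℕ}
    (hA : ∀ γ ∈ A, γ < D ∧ Sees G H f w γ) : #A + #T ≤ D + 1 := by
  have a1 : #A ≤ #((nb G w \ F.B) \ H) := (card_le_card fun γ k => by
    obtain ⟨l, e, e1, e2, rfl⟩ := hA γ k
    exact mem_image_of_mem f (by simp [e1, e2, h.nB l.le])).trans card_image_le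
  have a2 := card_le_card (s := T) (t := (nb G w \ F.B) ∩ H) fun e k => by
    simp [hT e k, h.dis e (hT e k).2.2]
  have := card_sdiff_add_card_inter (nb G w \ F.B) H
  unfold Fm.Dg at dg
  omega

theorem fr_card (h : HC G D F v f) {w : V} (dg : F.Dg G D w) (T : Finset V)
    (hT : ∀ t ∈ T, G.Adj w t ∧ t ∈ H ∧ t ∈ F.S) : #T ≤ #(Fr G D H f w) + 1 := by
  have := h.seen_card dg T hT (A := (range D).filter (Sees G H f w))
    fun γ k => ⟨mem_range.1 (mem_filter.1 k).1, (mem_filter.1 k).2⟩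
  have := card_filter_add_card_filter_not (s := range D) (Sees G H f w)
  rw [card_range] at this
  rw [Fr]
  omega

theorem join_card (h : HC G D F v f) (hY : IsClq G Y) {T : Finset V} (hS : T ∪ Y ⊆ F.S)
    (dg : ∀ x ∈ T ∪ Y, F.Dg G D x) (hx : ∀ y ∈ Y, ∀ t ∈ T, G.Adj y t) :
    (∀ y ∈ Y, #Y + #T ≤ #(Fr G D (T ∪ Y) f y) + 2) ∧
      ∀ t ∈ T, #Y ≤ #(Fr G D (T ∪ Y) f t) + 1 := by
  refine ⟨fun y hy => ?_, fun t ht => h.fr_card (dg t (mem_union_left _ ht)) Y fun y hy =>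
    ⟨(hx y hy t ht).symm, mem_union_right _ hy, hS (mem_union_right _ hy)⟩⟩
  have := h.fr_card (H := T ∪ Y) (dg y (mem_union_right _ hy)) (T ∪ Y.erase y) fun t ht =>
    (mem_union.1 ht).elim (fun p => ⟨hx y hy t p, mem_union_left _ p, hS (mem_union_left _ p)⟩)
      fun p => ⟨hY y hy t (mem_of_mem_erase p) (ne_of_mem_erase p).symm,
        mem_union_right _ (mem_of_mem_erase p), hS (mem_union_right _ (mem_of_mem_erase p))⟩
  rw [card_union_of_disjoint (disjoint_left.2 fun t p q =>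
    (hx t (mem_of_mem_erase q) t p).ne rfl)] at this
  have := card_erase_add_one hy
  omega

/-- State form for two twins: the core sees exactly `M`, and one twin sees all of `M`. -/
theorem state2 (h : HC G D F v f) (hY : IsClq G Y) {a b : V} (hS : {a, b} ∪ Y ⊆ F.S)
    (hv : v ∈ {a, b} ∪ Y) (dg : ∀ x ∈ {a, b} ∪ Y, F.Dg G D x)
    (hx : ∀ y ∈ Y, G.Adj y a ∧ G.Adj y b) (ab : a ≠ b) (n : ¬ G.Adj a b) (h4 : 4 ≤ #Y)
    (hD : D + 2 ≤ 2 * #Y) :
    ∃ M ⊆ range D, #M + #Y = D ∧ (∀ y ∈ Y, ∀ γ < D, Sees G ({a, b} ∪ Y) f y γ ↔ γ ∈ M) ∧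
      ((∀ γ ∈ M, Sees G ({a, b} ∪ Y) f a γ) ∨ ∀ γ ∈ M, Sees G ({a, b} ∪ Y) f b γ) := by
  obtain ⟨j1, j2⟩ := h.join_card (T := {a, b}) hY hS dg (by simpa using hx)
  rw [card_pair ab] at j1
  obtain ⟨U, u1, u2, u3⟩ := exact2 (P := range D) (L := Fr G D ({a, b} ∪ Y) f) ab n h4
    (by simpa using hD)
    (fun _ => filter_subset _ _) (fun y hy => by have := j1 y hy; omega) (j2 a (by simp))
    (j2 b (by simp)) (h.not_lc hS hv)
  obtain ⟨y, hy⟩ := card_pos.1 (by omega : 0 < #Y)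
  have hU : U ⊆ range D := u2 y hy ▸ filter_subset _ _
  exact ⟨range D \ U, sdiff_subset, u1 ▸ (compl_spec (G := G) (H := Y) (c := f) (w := y) hU).1,
    fun y hy => (compl_spec hU).2.1 (u2 y hy),
    u3.imp (compl_spec hU).2.2 (compl_spec hU).2.2⟩

/-- State form for three twins: the core sees exactly `M`, every twin sees all of `M`, and every
colour is seen by a twin. -/
theorem state3 (h : HC G D F v f) (hY : IsClq G Y) {a b d : V} (hS : {a, b, d} ∪ Y ⊆ F.S)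
    (hv : v ∈ {a, b, d} ∪ Y) (dg : ∀ x ∈ {a, b, d} ∪ Y, F.Dg G D x)
    (hx : ∀ y ∈ Y, G.Adj y a ∧ G.Adj y b ∧ G.Adj y d) (ab : a ≠ b) (ad : a ≠ d) (bd : b ≠ d)
    (n1 : ¬ G.Adj a b) (n2 : ¬ G.Adj a d) (n3 : ¬ G.Adj b d) (h4 : 4 ≤ #Y)
    (hD : D + 4 ≤ 3 * #Y) :
    ∃ M ⊆ range D, #M + #Y + 1 = D ∧
      (∀ y ∈ Y, ∀ γ < D, Sees G ({a, b, d} ∪ Y) f y γ ↔ γ ∈ M) ∧
      (∀ γ ∈ M, Sees G ({a, b, d} ∪ Y) f a γ ∧ Sees G ({a, b, d} ∪ Y) f b γ ∧
        Sees G ({a, b, d} ∪ Y) f d γ) ∧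
      ∀ γ < D, Sees G ({a, b, d} ∪ Y) f a γ ∨ Sees G ({a, b, d} ∪ Y) f b γ ∨
        Sees G ({a, b, d} ∪ Y) f d γ := by
  obtain ⟨j1, j2⟩ := h.join_card (T := {a, b, d}) hY hS dg (by simpa using hx)
  rw [card_eq_three.2 ⟨a, b, d, ab, ad, bd, rfl⟩] at j1
  obtain ⟨U, u1, u2, u3, u4, u5, u6⟩ := exact3 (P := range D)
    (L := Fr G D ({a, b, d} ∪ Y) f) ab ad bd n1 n2 n3 h4
    (by simpa using hD) (fun _ => filter_subset _ _) (fun y hy => by have := j1 y hy; omega)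
    (j2 a (by simp)) (j2 b (by simp)) (j2 d (by simp)) (h.not_lc hS hv)
  obtain ⟨y, hy⟩ := card_pos.1 (by omega : 0 < #Y)
  have hU : U ⊆ range D := u2 y hy ▸ filter_subset _ _
  have := (compl_spec (G := G) (H := Y) (c := f) (w := y) hU).1
  refine ⟨range D \ U, sdiff_subset, by omega, fun y hy => (compl_spec hU).2.1 (u2 y hy),
    fun γ k => ⟨(compl_spec hU).2.2 u3 γ k, (compl_spec hU).2.2 u4 γ k,
      (compl_spec hU).2.2 u5 γ k⟩, fun γ l => ?_⟩
  by_contra! k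
  exact u6 γ (mem_Fr.2 ⟨l, k.1⟩) (mem_Fr.2 ⟨l, k.2.1⟩) (mem_Fr.2 ⟨l, k.2.2⟩)

/-- With a core of five vertices no colour outside `M` is seen by two twins. -/
theorem state3_five (h : HC G D F v f) {a b d : V} (da : F.Dg G D a) (db : F.Dg G D b)
    (dd : F.Dg G D d) (h5 : #Y = 5) (hH : Y ⊆ H) (hS : Y ⊆ F.S)
    (hx : ∀ y ∈ Y, G.Adj y a ∧ G.Adj y b ∧ G.Adj y d) {M : Finset ℕ} (m0 : M ⊆ range D)
    (m1 : #M + #Y + 1 = D) (m2 : ∀ γ ∈ M, Sees G H f a γ ∧ Sees G H f b γ ∧ Sees G H f d γ)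
    (m3 : ∀ γ < D, Sees G H f a γ ∨ Sees G H f b γ ∨ Sees G H f d γ) {γ : ℕ} (l : γ < D)
    (k : γ ∉ M) (s1 : Sees G H f a γ) : ¬ Sees G H f b γ := fun s2 => by
  have two : ∀ t, F.Dg G D t → (∀ y ∈ Y, G.Adj y t) → (∀ γ ∈ M, Sees G H f t γ) →
      #((range D \ M).filter (Sees G H f t)) ≤ 2 := fun t o p q => by
    have := h.seen_card o Y (fun y hy => ⟨(p y hy).symm, hH hy, hS hy⟩)
      (A := M ∪ (range D \ M).filter (Sees G H f t))
      fun γ z => (mem_union.1 z).elim (fun z => ⟨mem_range.1 (m0 z), q γ z⟩) fun z =>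
        ⟨mem_range.1 (mem_sdiff.1 (mem_filter.1 z).1).1, (mem_filter.1 z).2⟩
    rw [card_union_of_disjoint (disjoint_left.2 fun x p q =>
      (mem_sdiff.1 (mem_filter.1 q).1).2 p)] at this
    omega
  have a2 := two a da (fun y p => (hx y p).1) fun γ p => (m2 γ p).1
  have b2 := two b db (fun y p => (hx y p).2.1) fun γ p => (m2 γ p).2.1
  have d2 := two d dd (fun y p => (hx y p).2.2) fun γ p => (m2 γ p).2.2
  have c1 := card_sdiff_add_card_eq_card m0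
  have c2 := card_union_add_card_inter ((range D \ M).filter (Sees G H f a))
    ((range D \ M).filter (Sees G H f b))
  have c3 := card_pos.2 (⟨γ, by simp [l, k, s1, s2]⟩ : ((range D \ M).filter (Sees G H f a) ∩
    (range D \ M).filter (Sees G H f b)).Nonempty)
  have c4 := (card_le_card (s := range D \ M) fun x hx => by
    have := m3 x (mem_range.1 (mem_sdiff.1 hx).1)
    simp only [mem_union, mem_filter]
    tauto).trans (card_union_le ((range D \ M).filter (Sees G H f a) ∪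
      (range D \ M).filter (Sees G H f b)) ((range D \ M).filter (Sees G H f d)))
  rw [card_range] at c1
  omega

end HC

/-- A clique joined to a set of at least one vertex. -/
theorem Cov.join (hY : IsClq G Y) {T : Finset V} (hT : T.Nonempty)
    (hx : ∀ y ∈ Y, ∀ t ∈ T, G.Adj y t) : Cov G (T ∪ Y) #T := fun I a b => by
  by_cases e : I ⊆ T
  · exact card_le_card e
  obtain ⟨y, y1, y2⟩ := not_subset.1 e
  have y3 := (mem_union.1 (a y1)).resolve_left y2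
  refine (card_le_one.2 fun p hp q hq => ?_).trans (card_pos.2 hT)
  have k : ∀ p ∈ I, p = y := fun p hp => by
    by_contra z
    rcases mem_union.1 (a hp) with w | w
    exacts [b y y1 p hp (hx y y3 p w), b p hp y y1 (hY p w y y3 z)]
  rw [k p hp, k q hq]

theorem Cov.join2 (hY : IsClq G Y) {a b : V} (hx : ∀ y ∈ Y, G.Adj y a ∧ G.Adj y b) :
    Cov G ({a, b} ∪ Y) 2 :=
  (Cov.join hY (insert_nonempty a {b}) (by simpa using hx)).le card_le_two

theorem Cov.join3 (hY : IsClq G Y) {a b d : V}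
    (hx : ∀ y ∈ Y, G.Adj y a ∧ G.Adj y b ∧ G.Adj y d) : Cov G ({a, b, d} ∪ Y) 3 :=
  (Cov.join hY (insert_nonempty a {b, d}) (by simpa using hx)).le card_le_three

/-- The frame of `state2` in a tree state. -/
theorem Tr.NF.hc2 {T : Tr G D} (h : T.NF 2) (hz : v ∈ T.R) (hY : IsClq G Y) {a b : V}
    (hx : ∀ y ∈ Y, G.Adj y a ∧ G.Adj y b) (hv : v ∈ {a, b} ∪ Y)
    (hr : ∀ m ∈ {a, b} ∪ Y, m ∉ T.Dm) : HC G D (T.fm v ({a, b} ∪ Y)) v (T.col v) :=
  h.hc hz hv hr (Cov.join2 hY hx)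

/-- The frame of `state3` in a tree state. -/
theorem Tr.NF.hc3 {T : Tr G D} (h : T.NF 3) (hz : v ∈ T.R) (hY : IsClq G Y) {a b d : V}
    (hx : ∀ y ∈ Y, G.Adj y a ∧ G.Adj y b ∧ G.Adj y d) (hv : v ∈ {a, b, d} ∪ Y)
    (hr : ∀ m ∈ {a, b, d} ∪ Y, m ∉ T.Dm) : HC G D (T.fm v ({a, b, d} ∪ Y)) v (T.col v) :=
  h.hc hz hv hr (Cov.join3 hY hx)

end Pool.Agent.Lib.MP_12eaff_co.Frz.Acc2
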