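import Pool.Agent.Lib.MP_12eaff_co.Frz.Acc2.Replay

set_option autoImplicit false
set_option linter.unusedSectionVars false

namespace Pool.Agent.Lib.MP_12eaff_co.Frz.Acc2

open Finset Pool.Agent.Lib.MP_12eaff_co.Frz.BK
open scoped Classical

variable {V : Type} [Fintype V] {G : SimpleGraph V} {D : ℕ}

namespace Tr

variable (T : Tr G D)

/-- Sets of explaining states that are only closed under open witnesses. -/
structure IsSig2 (v : V) (S : V → Prop) : Prop where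
  mem : ∀ z, S z → z ∈ T.R
  nanc : ∀ z, S z → ¬ T.Anc v z
  tight : ∀ z, S z → T.Tight z v
  up : ∀ z m, S z → T.Anc m z → v ∈ T.O m → S m

/-- `z` is an explaining state of least depth for the arc `v → u`. -/
def MinE (S : V → Prop) (v u z : V) : Prop :=
  S z ∧ T.col z u ≠ T.col v u ∧ ∀ y, S y → T.d y < T.d z → T.col y u = T.col v u

variable {T} {S : V → Prop} {v u z m : V}

theorem IsSig.two (h : T.IsSig v S) : T.IsSig2 v S :=
  ⟨h.mem, h.nanc, h.tight, fun z m hz a b =>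
    h.probe m a.mem.1 b fun k => h.nanc z hz (k.trans a)⟩

theorem expl_iff (hS : ∀ z, S z → z ∈ T.R) (hv : v ∈ T.R) (hu : u ∈ T.O v) :
    T.Expl S v u ↔ ∃ z, S z ∧ T.col z u ≠ T.col v u := by
  refine exists_congr fun z => and_congr_right fun hz => ⟨fun k => k.elim (fun e => ?_) id, .inr⟩
  have := T.lt v hv u hu
  rw [e, col_self (hS z hz), ← e]; omega

theorem exists_minE (he : ∃ z, S z ∧ T.col z u ≠ T.col v u) : ∃ z, T.MinE S v u z := by
  obtain ⟨z, hz, hm⟩ := exists_min_image (univ.filter fun z => S z ∧ T.col z u ≠ T.col v u) T.d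
    (by obtain ⟨z, k⟩ := he; exact ⟨z, mem_filter.2 ⟨mem_univ _, k⟩⟩)
  obtain ⟨h1, h2⟩ := (mem_filter.1 hz).2
  refine ⟨z, h1, h2, fun y a b => ?_⟩
  by_contra k
  have := hm y (mem_filter.2 ⟨mem_univ _, a, k⟩)
  omega

/-- A witness exists in an explaining state. -/
theorem wit_ex (hS : T.IsSig2 v S) (hv : v ∈ T.R) (hu : u ∈ T.O v) (hz : S z) :
    ∃ m, G.Adj v m ∧ T.col z m = T.col v u := by
  have hna := hS.nanc z hz
  have hvr : v ≠ T.r := fun e => hna (e ▸ anc_r (hS.mem z hz))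
  refine hS.tight z hz _ (T.lt v hv u hu) ?_
  rw [col_base (hS.mem z hz) (T.real v hv) hna, ← col_par hv hvr]
  exact T.ne_p v hv u hu

/-- Every witness in an explaining state of least depth is the parent of the tail, a hider of
the tail, or the parent of the head. -/
theorem wit_min (hS : T.IsSig2 v S) (hv : v ∈ T.R) (hu : u ∈ T.O v) (hz : T.MinE S v u z)
    (hm : G.Adj v m) (hc : T.col z m = T.col v u) :
    (m = T.p v ∧ T.PayT v u) ∨
      (∃ x ∈ T.ch m, v ∈ T.H m ∧ T.tc x v = T.col v u ∧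
        ((T.Anc x v ∧ ¬ T.Anc m z) ∨ (¬ T.Anc x v ∧ T.Anc x z))) ∨
      (u ∈ T.ch m ∧ v ∈ T.O m ∧ T.Anc u z ∧ ¬ T.Anc u v ∧ T.c u = T.col v u ∧ S m) ∨
      (m ∈ T.Dm ∧ T.Port z v (T.col v u)) := by
  obtain ⟨z1, z2, z3⟩ := hz
  have hmu : m ≠ u := fun e => z2 (e ▸ hc)
  refine (wit2 hv hu (hS.mem z z1) (hS.nanc z z1) hm hmu hc).imp_right fun k => k.imp_right
    fun k => k.imp_left ?_
  rintro ⟨x, hx, hxz, hxv, hcx, hvm, -⟩
  have hdx := d_ch hx
  have ur := O_real hv hu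
  have hmz : T.Anc m z := (anc_ch hx).trans hxz
  have hSm := hS.up z m z1 hmz hvm
  have hmR := hmz.mem.1
  have hcm := z3 m hSm (by have := hxz.le; omega)
  have hpath : T.Anc m u ∧ T.Anc u z := by
    by_contra h
    exact z2 (by rw [col_diff hmz ur h, hcm])
  have hd1 := (T.clo m hmR v hvm).2
  have hd2 := (T.clo v hv u hu).2
  have hdu := hpath.1.lt hmu
  have hxu : T.Anc x u := Anc.under hx hxz hpath.1 hpath.2 hmu
  have hcu : T.c u = T.col v u := by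
    rw [← hcm]
    exact (col_base hmR ur (fun h => by have := h.le; omega)).symm
  have hux : x = u := by
    by_contra h
    exact c_ch_ne (hxu.ch_of_d h (by omega)) (T.mem_ch.1 hx).2.1 (by rw [hcu, hcx])
  subst hux
  exact ⟨hx, hvm, hxz, hxv, hcu, hSm⟩

/-- If the parent of the head is a witness, the other neighbours of the tail with the colour of
the head in the state of that parent are witnesses too. -/
theorem wit_keep (hv : v ∈ T.R) (hu : u ∈ T.O v) (h1 : u ∈ T.ch m) (h2 : T.Anc u z)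
    (h3 : ¬ T.Anc u v) {b : V} (bd : b ∉ T.Dm) (hb : G.Adj v b) (ne : b ≠ u)
    (hc : T.col m b = T.c u) :
    T.col z b = T.c u ∧ b ≠ m := by
  have hm := anc_ch h1
  have lt := c_lt (T.mem_ch.1 h1).1 (T.mem_ch.1 h1).2.1
  have bm : b ≠ m := fun e => by rw [e, col_self hm.mem.1] at hc; omega
  refine ⟨?_, bm⟩
  rw [col_diff (hm.trans h2) bd, hc]
  rintro ⟨k1, k2⟩
  have := k1.lt bm.symm
  have := d_ch h1
  have k3 : T.Anc u b := Anc.under h1 h2 k1 k2 bm.symm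
  rw [col_base hm.mem.1 bd fun k => by have := k.le; omega] at hc
  refine T.uniq v hv u hu b hb ne ?_
  rw [col_base hv (O_real hv hu) h3, col_base hv bd fun k => h3 (k3.trans k), hc]

/-- LEMMA E for sets closed under open witnesses; the paying pair is seen in a state of least
depth. -/
theorem lemE2 (hS : T.IsSig2 v S) (hv : v ∈ T.R) (hu : u ∈ T.O v) (hz : T.MinE S v u z) :
    T.PayT v u ∨ T.PayZ v u ∨
      (∃ x ∈ T.R, x ≠ T.r ∧ v ∈ T.H (T.p x) ∧ T.tc x v = T.col v u ∧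
        T.col z (T.p x) = T.col v u ∧
        ((T.Anc x v ∧ ¬ T.Anc (T.p x) z) ∨ (¬ T.Anc x v ∧ T.Anc x z))) ∨
      ∃ y, S y ∧ T.Anc y z ∧ T.Port y v (T.col v u) := by
  obtain ⟨m, hm, hc⟩ := wit_ex hS hv hu hz.1
  have zz := Anc.refl z (hS.mem z hz.1)
  have pr : ∀ m, T.col z m = T.col v u → (∃ x ∈ T.ch m, v ∈ T.H m ∧ T.tc x v = T.col v u ∧
      ((T.Anc x v ∧ ¬ T.Anc m z) ∨ (¬ T.Anc x v ∧ T.Anc x z))) →
      ∃ x ∈ T.R, x ≠ T.r ∧ v ∈ T.H (T.p x) ∧ T.tc x v = T.col v u ∧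
        T.col z (T.p x) = T.col v u ∧
        ((T.Anc x v ∧ ¬ T.Anc (T.p x) z) ∨ (¬ T.Anc x v ∧ T.Anc x z)) := by
    rintro m c ⟨x, x1, x2⟩
    obtain ⟨p1, p2, rfl⟩ := T.mem_ch.1 x1
    exact ⟨x, p1, p2, x2.1, x2.2.1, c, x2.2.2⟩
  rcases wit_min hS hv hu hz hm hc with k | k | ⟨k1, k2, k3, k4, k5, k6⟩ | k
  · exact .inl k.2
  · exact .inr (.inr (.inl (pr m hc k)))
  swap
  · exact .inr (.inr (.inr ⟨z, hz.1, zz, k.2⟩))
  obtain ⟨p1, p2, p3⟩ := T.mem_ch.1 k1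
  by_cases e : ∀ b, G.Adj v b → T.col m b = T.c u → b = u
  · have d1 := (T.clo m (anc_ch k1).mem.1 v k2).2
    have d2 := (T.clo v hv u hu).2
    exact .inr (.inl ⟨p2, p3 ▸ k2, k5.symm, p3 ▸ e, p3 ▸ ch_O k1 (.inr (by omega))⟩)
  push Not at e
  obtain ⟨b, b1, b2, b3⟩ := e
  by_cases bd : b ∈ T.Dm
  · exact .inr (.inr (.inr ⟨m, k6, (anc_ch k1).trans k3, port_of hv hu b1 bd (b2.trans k5)⟩))
  obtain ⟨b4, b5⟩ := wit_keep hv hu k1 k3 k4 bd b1 b3 b2
  rcases wit_min hS hv hu hz b1 (b4.trans k5) with k | k | k | k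
  · exact .inl k.2
  · exact .inr (.inr (.inl (pr b (b4.trans k5) k)))
  · exact absurd ((T.mem_ch.1 k.1).2.2.symm.trans p3) b5
  · exact absurd k.1 bd

/-- An unexplained non-tree arc whose head would be in `S` if it probed the tail. -/
theorem unexpl2 (hv : v ∈ T.R) (hu : u ∈ T.NT v) (hm : v ∈ T.O u → S u)
    (he : ¬ T.Expl S v u) : ¬ S u ∧ v ∈ T.H u := by
  obtain ⟨h1, h2⟩ := T.mem_NT.1 hu
  have h3 : ¬ S u := fun h => he ⟨u, h, Or.inl rfl⟩
  refine ⟨h3, ?_⟩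
  rcases adj_cases (T.clo v hv u h1).1 hv (T.O_adj v hv u h1).symm with h | h | h
  exacts [absurd (hm h) h3, h, absurd h h2]

/-- The probers of `v` that are not below `v`. -/
def SP (T : Tr G D) (v z : V) : Prop := z ∈ T.R ∧ v ∈ T.O z ∧ ¬ T.Anc v z

end Tr

theorem IsB.isSig_SP {T : Tr G D} (h : IsB T) (v : V) :
    T.IsSig v (T.SP v) :=
  ⟨fun _ k => k.1, fun _ k => k.2.2, fun _ k => h.probe_tight k.1 k.2.1, fun _ a b c => ⟨a, b, c⟩⟩

end Pool.Agent.Lib.MP_12eaff_co.Frz.Acc2
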