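import Pool.Agent.Lib.MP_12eaff_co.Frz.Acc2.Lt
import Pool.Agent.Lib.MP_12eaff_co.Frz.Acc2.E2
import Pool.Agent.Lib.MP_12eaff_co.Frz.Acc2.Ent

set_option autoImplicit false
set_option linter.unusedSectionVars false

namespace Pool.Agent.Lib.MP_12eaff_co.Frz.Acc2

open Finset Pool.Agent.Lib.MP_12eaff_co.Frz.BK
open scoped Classical

variable {V : Type} [Fintype V] {G : SimpleGraph V} {D : ℕ}

namespace Tr

variable (T : Tr G D) (Ct Ok Use : V → V → Prop)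

/-- The arc `v → u` is paid by `t(v)`, by `τ(u)` or by a used pair. -/
def Pd (v u : V) : Prop :=
  T.PayT v u ∧ Ct v u ∨ T.PayZ v u ∧ ¬ T.PayT v u ∨ T.HasQ Use v u

/-- Charged `t`. -/
noncomputable def tE (v : V) : Finset V := (T.tQ Use v).filter (Ct v)

/-- Tails of the arcs charged to `n(w)`. -/
noncomputable def nE (w : V) : Finset V := T.R.filter fun v => w ∈ T.NT v ∧ ¬ T.Pd Ct Use v w

noncomputable def cost3 (y : V) : ℕ :=
  (T.tE Ct Use y).card + (T.WQ Use y).card + (T.nE Ct Use y).card + (T.piQ Use y).card +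
    (T.ptN y).card

/-- A closed set of units: allowed, and no column of an arc charged to `n`. -/
def Cl : Prop := ∀ x v, Use x v → Ok x v ∧ (T.p x ∈ T.NT v → T.Pd Ct Use v (T.p x))

/-- The greatest closed set of units. -/
def UI (x v : V) : Prop := ∃ U, T.Cl Ct Ok U ∧ U x v

/-- Tokens with head `x`: units whose target is a child of the tail. -/
noncomputable def tk (x : V) : Finset V :=
  T.R.filter fun v => Use x v ∧ ∃ u ∈ T.ch v, T.Pr x v u ∧ u ∈ T.O v ∧ ¬ T.PT v u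

variable {T Ct Ok Use} {u v w x e y m : V}

theorem mem_tE : u ∈ T.tE Ct Use v ↔ (u ∈ T.NT v ∧ T.PayT v u ∧ ¬ T.HasQ Use v u) ∧ Ct v u := by
  rw [tE, mem_filter, mem_tQ]

theorem mem_nE : v ∈ T.nE Ct Use w ↔ v ∈ T.R ∧ w ∈ T.NT v ∧ ¬ T.Pd Ct Use v w := mem_filter

theorem mem_tk : v ∈ T.tk Use x ↔
    v ∈ T.R ∧ Use x v ∧ ∃ u ∈ T.ch v, T.Pr x v u ∧ u ∈ T.O v ∧ ¬ T.PT v u := mem_filter

theorem card_tE (hv : v ∈ T.R) : (T.tE Ct Use v).card ≤ 1 :=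
  (card_filter_le _ _).trans (card_tQ hv)

theorem HasQ.mono {U : V → V → Prop} (h : T.HasQ Use v u) (k : ∀ x, Use x v → U x v) :
    T.HasQ U v u := h.imp_left fun h => h.imp fun x p => ⟨p.1, k x p.2⟩

theorem Pd.mono {U : V → V → Prop} (h : T.Pd Ct Use v u) (k : ∀ x, Use x v → U x v) :
    T.Pd Ct U v u := h.imp_right fun p => p.imp_right fun p => p.mono k

theorem UI.ok (h : T.UI Ct Ok x v) : Ok x v := let ⟨_, a, b⟩ := h; (a x v b).1

theorem UI.pd (h : T.UI Ct Ok x v) (k : T.p x ∈ T.NT v) : T.Pd Ct (T.UI Ct Ok) v (T.p x) :=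
  let ⟨U, a, b⟩ := h; ((a x v b).2 k).mono fun _ p => ⟨U, a, p⟩

theorem cl_UI : T.Cl Ct Ok (T.UI Ct Ok) := fun _ _ h => ⟨h.ok, h.pd⟩

/-- An allowed unit whose column is free. -/
theorem UI.of (o : Ok x v) (k : T.p x ∈ T.NT v → T.Pd Ct (T.UI Ct Ok) v (T.p x)) :
    T.UI Ct Ok x v :=
  ⟨fun a b => T.UI Ct Ok a b ∨ a = x ∧ b = v, fun a b h => h.elim
    (fun p => ⟨p.ok, fun q => (p.pd q).mono fun _ => .inl⟩)
    (by rintro ⟨rfl, rfl⟩; exact ⟨o, fun q => (k q).mono fun _ => Or.inl⟩), .inr ⟨rfl, rfl⟩⟩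

theorem Cl.col (h : T.Cl Ct Ok Use) (k : Use x v) : v ∉ T.nE Ct Use (T.p x) := fun p =>
  (mem_nE.1 p).2.2 ((h x v k).2 (mem_nE.1 p).2.1)

theorem account3 (T : Tr G D) (Ct Use : V → V → Prop) :
    ∑ v ∈ T.R, (T.NT v).card ≤ ∑ v ∈ T.R, T.cost3 Ct Use v := by
  have h0 := T.accountQ Use
  have h1 : ∑ v ∈ T.R, ((T.NT v).filter fun u => ¬ T.PayZ v u ∧ ¬ T.PayT v u ∧
      ¬ T.HasQ Use v u).card = ∑ v ∈ T.R, (T.nuQ Use v).card := by
    unfold nuQ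
    convert T.sum_head fun v u => ¬ T.PayZ v u ∧ ¬ T.PayT v u ∧ ¬ T.HasQ Use v u
  have h2 : ∑ v ∈ T.R, ((T.NT v).filter fun u => ¬ T.Pd Ct Use v u).card =
      ∑ v ∈ T.R, (T.nE Ct Use v).card := by
    unfold nE
    convert T.sum_head fun v u => ¬ T.Pd Ct Use v u
  have h3 : ∀ v ∈ T.R, (T.tQ Use v).card + ((T.NT v).filter fun u => ¬ T.PayZ v u ∧
      ¬ T.PayT v u ∧ ¬ T.HasQ Use v u).card ≤
      (T.tE Ct Use v).card + ((T.NT v).filter fun u => ¬ T.Pd Ct Use v u).card := fun v _ => by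
    simp only [tE, tQ, filter_filter, card_filter, ← sum_add_distrib]
    refine sum_le_sum fun u _ => ?_
    by_cases a : T.PayT v u <;> by_cases b : T.PayZ v u <;> by_cases c : T.HasQ Use v u <;>
      by_cases d : Ct v u <;> simp [a, b, c, d, Pd]
  have h4 := sum_le_sum h3
  simp only [costQ, cost3, sum_add_distrib] at h0 h4 ⊢
  omega

/-- The vertices whose arcs a chain from `u` may have to pay. -/
def Mv (T : Tr G D) (S : V → Prop) (v u e : V) : Prop :=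
  e = u ∨ e ∈ T.NT v ∧ ∃ x y, y ∈ T.O v ∧ T.p x = e ∧ T.PayP S x v y

/-- End of a chain at the parent of the tail. -/
def TEnd (T : Tr G D) (Ct : V → V → Prop) (S : V → Prop) (v e : V) : Prop :=
  e ∈ T.NT v ∧ v ∈ T.H e ∧ T.PayT v e ∧ ¬ Ct v e ∧ T.Expl S v e ∧ (∀ x, ¬ T.PayP S x v e) ∧
    (T.PayZ v e ∨ T.CaseA v e ∨ ∃ z, S z ∧ T.col z e ≠ T.col v e ∧ ¬ T.Anc (T.p v) z ∧
      Uq G (T.col z) v (T.p v)) ∧ ¬ T.PT v e

/-- CHAIN: a pair seen in a tight state is admissible unless the chain meets a declined unit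
or ends at the parent of the tail. -/
theorem chain {S : V → Prop} (hS : T.IsSig v S) (hv : v ∈ T.R)
    (hu : u ∈ T.O v) (k : T.PayP S x v u) : T.HasQ (T.UI Ct Ok) v u ∨
      (∃ x e, T.Mv S v u e ∧ T.PayP S x v e ∧ ¬ Ok x v) ∨ ∃ e, e ≠ u ∧ T.TEnd Ct S v e := by
  by_contra h
  simp only [not_or, not_exists, not_and, not_not] at h
  obtain ⟨h1, h2, h3⟩ := h
  have mo : ∀ e, T.Mv S v u e → e ∈ T.O v := fun e p =>
    p.elim (fun p => p ▸ hu) fun p => (T.mem_NT.1 p.1).1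
  refine h1 (.inl ⟨x, k.pr, fun a b => b = v ∧ ∃ e, T.Mv S v u e ∧ T.PayP S a v e, ?_, rfl, u,
    .inl rfl, k⟩)
  rintro a b ⟨rfl, e, p, q⟩
  refine ⟨h2 a e p q, fun n => ?_⟩
  have mv : T.Mv S b u (T.p a) := .inr ⟨n, a, e, mo e p, rfl, q⟩
  by_cases r : ∃ x, T.PayP S x b (T.p a)
  · obtain ⟨x', r⟩ := r
    exact .inr (.inr (.inl ⟨x', r.pr, rfl, _, mv, r⟩))
  by_cases pt : T.PT b (T.p a)
  · exact .inr (.inr pt.hasQ)
  have ne : T.p a ≠ u := fun z => r ⟨x, z ▸ k⟩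
  by_cases t : T.PayT b (T.p a)
  · refine .inl ⟨t, by_contra fun c => h3 _ ne ⟨n, q.2.2.1, t, c, q.expl, not_exists.1 r, ?_, pt⟩⟩
    exact ((t_step hS hv (mo _ mv) t q.expl).resolve_left r).imp_right fun z => z.imp_right
      fun z => let ⟨z, z1, z2, _, z3⟩ := z.resolve_right fun z => pt (z.pt hS.mem); ⟨z, z1, z2, z3⟩
  · rcases lemE hS hv (mo _ mv) q.expl with z | z | z | z
    exacts [absurd z t, .inr (.inl ⟨z, t⟩), absurd z r, absurd (PayD.pt z hS.mem) pt]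

/-- An arc charged to `n` is unexplained, or `t` is not charged, or a chain breaks. -/
theorem nE_esc {S : V → Prop} (hS : T.IsSig v S)
    (hC : ∀ e, T.Expl S v e → Ct v e) (k : v ∈ T.nE Ct (T.UI Ct Ok) w) :
    ¬ T.Expl S v w ∧ v ∈ T.H w ∨ ∃ x e, T.Mv S v w e ∧ T.PayP S x v e ∧ ¬ Ok x v := by
  obtain ⟨hv, h1, h2⟩ := mem_nE.1 k
  obtain ⟨h3, h4⟩ := T.mem_NT.1 h1
  by_cases p : T.Expl S v w
  swap
  · exact .inl ⟨p, (unexpl hS hv h3 h4 p).2⟩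
  by_cases t : T.PayT v w
  · exact absurd (.inl ⟨t, hC w p⟩) h2
  rcases lemE hS hv h3 p with z | z | ⟨x, z⟩ | z
  exacts [absurd z t, absurd (.inr (.inl ⟨z, t⟩)) h2, .inr (((chain hS hv h3 z).resolve_left
    fun q => h2 (.inr (.inr q))).resolve_right fun ⟨e, _, q⟩ => q.2.2.2.1 (hC e q.2.2.2.2.1)),
    absurd (.inr (.inr (PayD.pt z hS.mem).hasQ)) h2]

/-- One token per vertex. -/
noncomputable def tok (T : Tr G D) (Use : V → V → Prop) (u : V) : ℕ :=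
  if u ≠ T.r ∧ u ∈ T.O (T.p u) ∧
    ((∃ x, T.ch x ≠ ∅ ∧ T.Pr x (T.p u) u ∧ Use x (T.p u)) ∨ T.PT (T.p u) u) then 1 else 0

end Tr

/-- `t` is charged if the arc is explained by a prober. -/
def C0 (T : Tr G D) (v u : V) : Prop := T.Expl (T.SP v) v u

/-- A leaf accepts triangle pairs only. -/
def O0 (T : Tr G D) (x v : V) : Prop := T.ch x = ∅ → G.Adj v x

/-- The probers of `v` and one more state. -/
def SY (T : Tr G D) (v y z : V) : Prop := T.SP v z ∨ z = y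

namespace IsB

variable {T : Tr G D} {Ct Ok Use : V → V → Prop} {u v w x e y m : V}

open Tr

theorem final3 (h : IsB T) (hD : 5 ≤ D) (Ct Use : V → V → Prop) :
    ∑ y ∈ T.R, (D - 3 + (if T.Bd y = ∅ then 1 else 0) + 2 * (T.CX y).card) + 2 ≤
      ∑ y ∈ T.R, (T.cost3 Ct Use y + (T.Dr y).card) := by
  have h1 := T.account3 Ct Use
  have h2 := h.budget2 hD
  have h3 := T.sum_ch
  have h4 : ∑ y ∈ T.R, (D - 3 + (if T.Bd y = ∅ then 1 else 0) + 2 * (T.CX y).card) =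
      ∑ y ∈ T.R, ((D - 5) + 2 + (if T.Bd y = ∅ then 1 else 0) + 2 * (T.CX y).card) :=
    sum_congr rfl fun _ _ => by omega
  simp only [sum_add_distrib, ← mul_sum, sum_const, smul_eq_mul] at h2 h4 ⊢
  omega

/-- Used pairs, passed `n` and tokens are different units of a head. -/
theorem units (_ : IsB T) (hc : T.Cl Ct Ok Use) (N B : Finset V) (hN : N ⊆ T.nE Ct Use (T.p x))
    (hB : ∀ v, v ∈ N ∨ v ∈ T.H (T.p x) ∧ Use x v → v ∈ B) :
    (T.piQ Use x).card + N.card + (T.tk Use x).card ≤ B.card := by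
  rw [← card_union_of_disjoint (disjoint_left.2 fun v k q => hc.col (mem_piQ.1 k).2.1 (hN q)),
    ← card_union_of_disjoint (disjoint_left.2 fun v k q => ?_)]
  · refine card_le_card fun v k => hB v ?_
    rcases mem_union.1 k with k | k
    · exact (mem_union.1 k).elim (fun k => .inr ⟨piQ_sub k, (mem_piQ.1 k).2.1⟩) .inl
    · obtain ⟨-, a, _, -, b, -⟩ := mem_tk.1 k
      exact .inr ⟨b.2.2.1, a⟩
  · obtain ⟨hv, a, u, b, c, o, -⟩ := mem_tk.1 q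
    rcases mem_union.1 k with k | k
    · obtain ⟨-, -, u', b', c', -⟩ := mem_piQ.1 k
      obtain ⟨p1, p2⟩ := T.mem_NT.1 b'
      exact p2 (O_inj hv o p1 (c.2.2.2.symm.trans c'.2.2.2) ▸ b)
    · exact hc.col a (hN k)

theorem sum_tok (_ : IsB T) (Use : V → V → Prop) : ∑ u ∈ T.R, T.tok Use u ≤
    (∑ x ∈ T.R, if x = T.r ∨ T.ch x = ∅ then 0 else (T.tk Use x).card) +
      ∑ x ∈ T.R, (T.ptC x).card := by
  have : ∀ u, ∃ x, (∃ x, T.ch x ≠ ∅ ∧ T.Pr x (T.p u) u ∧ Use x (T.p u)) →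
      T.ch x ≠ ∅ ∧ T.Pr x (T.p u) u ∧ Use x (T.p u) := fun u => by
    by_cases k : ∃ x, T.ch x ≠ ∅ ∧ T.Pr x (T.p u) u ∧ Use x (T.p u)
    exacts [k.imp fun _ k _ => k, ⟨u, fun x => absurd x k⟩]
  choose f hf using this
  have e1 : (∑ x ∈ T.R, if x = T.r ∨ T.ch x = ∅ then 0 else (T.tk Use x).card) =
      ((T.R.filter fun x => ¬ (x = T.r ∨ T.ch x = ∅)).sigma fun x => T.tk Use x).card := by
    rw [card_sigma, sum_filter]
    exact sum_congr rfl fun x _ => by split_ifs <;> rfl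
  have e2 : ∑ u ∈ T.R, T.tok Use u ≤ (T.R.filter fun u => u ≠ T.r ∧ u ∈ T.O (T.p u) ∧
      (∃ x, T.ch x ≠ ∅ ∧ T.Pr x (T.p u) u ∧ Use x (T.p u)) ∧ ¬ T.PT (T.p u) u).card +
      (T.R.filter fun u => u ≠ T.r ∧ u ∈ T.O (T.p u) ∧ T.PT (T.p u) u).card := by
    simp only [tok, card_filter, ← sum_add_distrib]
    refine sum_le_sum fun u _ => ?_
    by_cases p : T.PT (T.p u) u <;> simp only [p, or_true, or_false, not_true, not_false_iff,
      and_true, and_false, if_false] <;> omega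
  refine e2.trans (add_le_add ?_ ?_)
  · rw [e1]
    refine card_le_card_of_injOn (fun u => ⟨f u, T.p u⟩) (fun u k => ?_) fun a ha b hb e => ?_
    · obtain ⟨k1, k2, k3, k4, k5⟩ := mem_filter.1 k
      obtain ⟨a, b, c⟩ := hf u k4
      exact mem_coe.2 (mem_sigma.2 ⟨mem_filter.2 ⟨b.1, fun z => z.elim b.2.1 a⟩,
        mem_tk.2 ⟨T.p_mem u k1 k2, c, u, T.mem_ch.2 ⟨k1, k2, rfl⟩, b, k3, k5⟩⟩)
    · obtain ⟨a1, a2, a3, a4, -⟩ := mem_filter.1 ha
      obtain ⟨b1, b2, b3, b4, -⟩ := mem_filter.1 hb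
      obtain ⟨e1, e2⟩ := Sigma.mk.inj_iff.1 e
      replace e2 := eq_of_heq e2
      refine O_inj (T.p_mem a a1 a2) a3 (e2 ▸ b3) ?_
      rw [← (hf a a4).2.1.2.2.2, e1, e2, (hf b b4).2.1.2.2.2]
  · rw [← card_sigma]
    refine card_le_card_of_injOn (fun u => ⟨T.p u, u⟩) (fun u k => ?_) fun a _ b _ e =>
      eq_of_heq (Sigma.mk.inj_iff.1 e).2
    obtain ⟨k1, k2, k3, k4⟩ := mem_filter.1 k
    exact mem_coe.2 (mem_sigma.2 ⟨T.p_mem u k1 k2, mem_ptC.2 ⟨T.mem_ch.2 ⟨k1, k2, rfl⟩, k3, k4⟩⟩)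

/-- RULE AA: internal heads pay a flat amount `b`, which covers passed `n` and tokens. -/
theorem finalAA (h : IsB T) (hD : 5 ≤ D) (Ct Use : V → V → Prop) (nK nP b : V → ℕ)
    (h1 : ∀ y ∈ T.R, (T.nE Ct Use y).card ≤ nK y + nP y)
    (h2 : ∀ y ∈ T.R, (∀ x ∈ T.ch y, T.ch x = ∅) → nP y = 0)
    (h3 : ∀ x ∈ T.R, x ≠ T.r → T.ch x ≠ ∅ →
      (T.piQ Use x).card + nP (T.p x) + (T.tk Use x).card ≤ b x) :
    ∑ y ∈ T.R, (D - 3 + (if T.Bd y = ∅ then 1 else 0) + 2 * (T.CX y).card + T.tok Use y) + 2 ≤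
      ∑ y ∈ T.R, ((T.tE Ct Use y).card + (T.WQ Use y).card + nK y + (T.Dr y).card +
        (T.ptQ y).card +
        if y = T.r then 0 else if T.ch y = ∅ then (T.piQ Use y).card else b y) := by
  have a1 := h.final3 hD Ct Use
  have a2 := h.sum_tok Use
  have a3 := sum_le_sum h1
  have a4 : ∑ y ∈ T.R, nP y ≤ ∑ y ∈ T.R, ∑ x ∈ T.ch y, if T.ch x = ∅ then 0 else nP (T.p x) :=
    sum_le_sum fun y hy => by
      by_cases k : ∀ x ∈ T.ch y, T.ch x = ∅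
      · rw [h2 y hy k]
        exact Nat.zero_le _
      · push Not at k
        obtain ⟨x, x1, x2⟩ := k
        refine le_trans ?_ (single_le_sum (fun _ _ => Nat.zero_le _) x1)
        rw [if_neg x2.ne_empty, (T.mem_ch.1 x1).2.2]
  rw [T.sum_sum_ch] at a4
  have a5 : ∀ y ∈ T.R, (T.piQ Use y).card + (if y = T.r then 0 else if T.ch y = ∅ then 0 else
      nP (T.p y)) + (if y = T.r ∨ T.ch y = ∅ then 0 else (T.tk Use y).card) ≤
      if y = T.r then 0 else if T.ch y = ∅ then (T.piQ Use y).card else b y := fun y hy => by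
    by_cases r : y = T.r
    · simp [r, piQ_r]
    by_cases l : T.ch y = ∅
    · simp [r, l]
    · simpa [r, l] using h3 y hy r l
  have a6 := sum_le_sum a5
  simp only [cost3, card_ptQ, sum_add_distrib] at a1 a3 a6 ⊢
  omega

theorem isSig_SY (h : IsB T) (hy : y ∈ T.R) (n : ¬ T.Anc v y)
    (t : T.Tight y v) : T.IsSig v (SY T v y) :=
  have k := h.isSig_SP v
  ⟨fun z p => p.elim (k.mem z) (· ▸ hy), fun z p => p.elim (k.nanc z) (· ▸ n),
    fun z p => p.elim (k.tight z) (· ▸ t), fun m a b c => .inl (k.probe m a b c)⟩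

theorem leaf_nanc (_ : IsB T) (k : T.Pr x v u) (hx : T.ch x = ∅) : ¬ T.Anc x v := k.leaf_nanc hx

/-- The only declined unit is the one of a leaf state. -/
theorem decl (h : IsB T) (k : T.PayP (SY T v y) x v e) (n : ¬ O0 T x v) :
    x = y ∧ T.ch y = ∅ ∧ ¬ G.Adj v y ∧ T.c y = T.col v e := by
  simp only [O0, not_forall] at n
  obtain ⟨l, n⟩ := n
  have q := h.leaf_nanc k.pr l
  obtain ⟨z, z1, -, z2 | z2⟩ := k.2.2.2.2
  · exact absurd z2.1 q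
  obtain rfl := leaf_anc l z2.2
  obtain rfl := z1.resolve_left fun p => n (T.O_adj x p.1 v p.2.1).symm
  exact ⟨rfl, l, n, by rw [← k.2.2.2.1, tc, if_neg q]⟩

theorem ok_SP (h : IsB T) (k : T.PayP (T.SP v) x v e) : O0 T x v := by
  by_contra n
  obtain ⟨-, l, a, -⟩ := h.decl (y := x) (k.mono fun _ => .inl) n
  obtain ⟨z, z1, -, z2 | z2⟩ := k.2.2.2.2
  exacts [h.leaf_nanc k.pr l z2.1, a (T.O_adj x k.1 v (leaf_anc l z2.2 ▸ z1.2.1)).symm]

/-- Arcs charged to `n` in the standard account. -/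
theorem nE_spec (h : IsB T) (k : v ∈ T.nE (C0 T) (T.UI (C0 T) (O0 T)) w) :
    ¬ T.Expl (T.SP v) v w ∧ v ∈ T.H w :=
  (nE_esc (Ct := C0 T) (h.isSig_SP v) (fun _ => id) k).resolve_right fun ⟨_, _, _, a, b⟩ => b (h.ok_SP a)

/-- Good pairs are used. -/
theorem good (h : IsB T) (hv : v ∈ T.R) (hu : u ∈ T.O v) (k : T.PayP (T.SP v) x v u) :
    T.HasQ (T.UI (C0 T) (O0 T)) v u :=
  ((chain (h.isSig_SP v) hv hu k).resolve_right fun z => z.elim
    (fun ⟨_, _, _, a, b⟩ => b (h.ok_SP a)) fun ⟨_, _, q⟩ => q.2.2.2.1 q.2.2.2.2.1)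

/-- End of a chain at the parent of the tail in the state `y`. -/
def _root_.Pool.Agent.Lib.MP_12eaff_co.Frz.Acc2.TE (T : Tr G D) (v y e : V) : Prop :=
  e ∈ T.NT v ∧ v ∈ T.H e ∧ T.PayT v e ∧ ¬ C0 T v e ∧ T.col y e ≠ T.col v e ∧
    (∀ x, ¬ T.PayP (SY T v y) x v e) ∧
    (T.PayZ v e ∨ T.CaseA v e ∨ ¬ T.Anc (T.p v) y ∧ Uq G (T.col y) v (T.p v)) ∧ ¬ T.PT v e

/-- The leaf exception: `y` is a leaf whose parent hides `v` and lies in a chain. -/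
def _root_.Pool.Agent.Lib.MP_12eaff_co.Frz.Acc2.LX (T : Tr G D) (v y u : V) : Prop :=
  T.ch y = ∅ ∧ y ≠ T.r ∧ v ∈ T.H (T.p y) ∧ ¬ G.Adj v y ∧
    ∃ e, T.Mv (SY T v y) v u e ∧ T.c y = T.col v e

/-- CHAIN in a state `y`. -/
theorem chainY (h : IsB T) (hv : v ∈ T.R) (hu : u ∈ T.O v) (hy : y ∈ T.R) (n : ¬ T.Anc v y)
    (t : T.Tight y v) (k : T.PayP (SY T v y) x v u) :
    T.HasQ (T.UI (C0 T) (O0 T)) v u ∨ LX T v y u ∨ ∃ e, e ≠ u ∧ TE T v y e := by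
  refine (chain (h.isSig_SY hy n t) hv hu k).imp_right fun z => z.imp ?_ ?_
  · rintro ⟨x, e, a, b, c⟩
    obtain ⟨rfl, p1, p2, p3⟩ := h.decl b c
    exact ⟨p1, b.2.1, b.2.2.1, p2, e, a, p3⟩
  · rintro ⟨e, ne, a1, a2, a3, a4, a5, a6, a7, a8⟩
    have q : ∀ z, SY T v y z → T.col z e ≠ T.col v e → z = y := fun z p r =>
      p.resolve_left fun s => a4 ⟨z, s, .inr r⟩
    obtain ⟨z, z1, z2⟩ := (expl_iff (h.isSig_SY hy n t).mem hv (T.mem_NT.1 a1).1).1 a5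
    exact ⟨e, ne, a1, a2, a3, a4, q z z1 z2 ▸ z2, a6, a7.imp_right fun p => p.imp_right
      fun ⟨z, z1, z2, z3⟩ => q z z1 z2 ▸ z3, a8⟩

/-- CHAIN from a second witness. -/
theorem chainW (h : IsB T) (hv : v ∈ T.R) (hu : u ∈ T.O v) (hy : y ∈ T.R) (n : ¬ T.Anc v y)
    (t : T.Tight y v) (a : G.Adj v m) (ne : m ≠ u)
    (np : T.PayT v u → m ≠ T.p v) (hc : T.col y m = T.col v u) :
    T.HasQ (T.UI (C0 T) (O0 T)) v u ∨ LX T v y u ∨ (∃ e, e ≠ u ∧ TE T v y e) ∨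
      ∃ a x, T.Opn v u y a x := by
  rcases high hv hu hy n a ne np hc with ⟨x, k⟩ | k | k
  · exact (h.chainY hv hu hy n t (k.mono ((h.isSig_SY hy n t).vis (.inr rfl)))).imp_right
      fun p => p.imp_right .inl
  · exact .inr (.inr (.inr k))
  · exact .inl k.vis_pt.hasQ

end IsB

end Pool.Agent.Lib.MP_12eaff_co.Frz.Acc2
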