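import Pool.Agent.Lib.MP_12eaff_co.Frz.Acc2.E

set_option autoImplicit false
set_option linter.unusedSectionVars false

namespace Pool.Agent.Lib.MP_12eaff_co.Frz.Acc2

open Finset Pool.Agent.Lib.MP_12eaff_co.Frz.BK
open scoped Classical

variable {V : Type} [Fintype V]

namespace Tr

variable {G : SimpleGraph V} {D : ℕ} (T : Tr G D)

/-- Real non-tree arcs out of `v`. -/
noncomputable def NT (v : V) : Finset V := T.O v \ T.ch v

/-- Passage children of `v`. -/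
noncomputable def CX (v : V) : Finset V := T.ch v \ T.O v

theorem mem_NT {v u : V} : u ∈ T.NT v ↔ u ∈ T.O v ∧ u ∉ T.ch v := by simp [NT]

theorem sum_ch : ∑ w ∈ T.R, (T.ch w).card + 1 = T.R.card := by
  have h1 : (T.R.erase T.r).card = ∑ w ∈ T.R, ((T.R.erase T.r).filter (fun x => T.p x = w)).card :=
    card_eq_sum_card_fiberwise (fun x hx => T.p_mem x (mem_of_mem_erase hx) (ne_of_mem_erase hx))
  have h2 : ∀ w, (T.R.erase T.r).filter (fun x => T.p x = w) = T.ch w := by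
    intro w; ext x; simp [ch]; tauto
  simp only [h2] at h1
  rw [← h1, card_erase_add_one T.r_mem]

theorem mem_CX {v u : V} : u ∈ T.CX v ↔ u ∈ T.ch v ∧ u ∉ T.O v := by simp [CX]

theorem card_arcs (v : V) :
    (T.O v).card + (T.CX v).card = (T.ch v).card + (T.NT v).card := by
  have h1 := card_sdiff_add_card_inter (T.O v) (T.ch v)
  have h2 := card_sdiff_add_card_inter (T.ch v) (T.O v)
  rw [inter_comm] at h2
  unfold CX NT
  omega

/-- All arcs are tree arcs or non-tree arcs. -/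
theorem count : ∑ v ∈ T.R, ((T.O v).card + (T.CX v).card) + 1 =
    T.R.card + ∑ v ∈ T.R, (T.NT v).card := by
  rw [sum_congr rfl (fun v _ => T.card_arcs v), sum_add_distrib, ← T.sum_ch]
  omega

/-- Counting non-tree arcs at their heads. -/
theorem sum_head (P : V → V → Prop) :
    ∑ v ∈ T.R, ((T.NT v).filter (P v)).card =
      ∑ u ∈ T.R, (T.R.filter (fun v => u ∈ T.NT v ∧ P v u)).card := by
  have h : ∀ v ∈ T.R, (T.NT v).filter (P v) = T.R.filter (fun u => u ∈ T.NT v ∧ P v u) := by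
    intro v hv; ext u
    simp only [mem_filter]
    exact ⟨fun h => ⟨(T.clo v hv u (T.mem_NT.1 h.1).1).1, h⟩, fun h => h.2⟩
  rw [sum_congr rfl (fun v hv => by rw [h v hv])]
  simp only [card_filter]
  exact sum_comm

section Pay

variable (S : V → V → Prop) (Use : V → V → Prop)

/-- The arc `v → u` is paid by an accepted pair. -/
def HasP (v u : V) : Prop := ∃ x, T.PayP (S v) x v u ∧ Use x v

/-- Arcs paid by `t(v)`. -/
noncomputable def tS (v : V) : Finset V :=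
  (T.NT v).filter (fun u => T.PayT v u ∧ ¬ T.HasP S Use v u)

/-- Tails left to `τ⁺(u)`. -/
noncomputable def W0 (u : V) : Finset V :=
  T.R.filter (fun v => u ∈ T.NT v ∧ (T.PayZ v u ∧ ¬ T.PayT v u ∧ ¬ T.HasP S Use v u))

/-- Tails of unexplained arcs into `w`. -/
noncomputable def nuS (w : V) : Finset V :=
  T.R.filter (fun v => w ∈ T.NT v ∧ ¬ T.Expl (S v) v w)

/-- Used pairs at the hider `w`. -/
noncomputable def UP (w : V) : Finset (V × V) :=
  (T.ch w ×ˢ T.H w).filter (fun q => q.2 ∈ T.R ∧ Use q.1 q.2 ∧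
    ∃ u ∈ T.NT q.2, T.PayP (S q.2) q.1 q.2 u)

/-- Explained arcs without an accepted payer. -/
noncomputable def VE (v : V) : Finset V :=
  (T.NT v).filter (fun u => T.Expl (S v) v u ∧ ¬ T.PayT v u ∧ ¬ T.PayZ v u ∧
    ¬ T.HasP S Use v u)

theorem mem_tS {v u : V} :
    u ∈ T.tS S Use v ↔ u ∈ T.NT v ∧ T.PayT v u ∧ ¬ T.HasP S Use v u := by simp [tS]

theorem mem_W0 {u v : V} : v ∈ T.W0 S Use u ↔
    v ∈ T.R ∧ u ∈ T.NT v ∧ T.PayZ v u ∧ ¬ T.PayT v u ∧ ¬ T.HasP S Use v u := by simp [W0]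

theorem mem_nuS {w v : V} :
    v ∈ T.nuS S w ↔ v ∈ T.R ∧ w ∈ T.NT v ∧ ¬ T.Expl (S v) v w := by simp [nuS]

theorem mem_UP {w x v : V} : (x, v) ∈ T.UP S Use w ↔ x ∈ T.ch w ∧ v ∈ T.H w ∧ v ∈ T.R ∧
    Use x v ∧ ∃ u ∈ T.NT v, T.PayP (S v) x v u := by
  simp only [UP, mem_filter, mem_product]; tauto

theorem mem_VE {v u : V} : u ∈ T.VE S Use v ↔ u ∈ T.NT v ∧ T.Expl (S v) v u ∧ ¬ T.PayT v u ∧
    ¬ T.PayZ v u ∧ ¬ T.HasP S Use v u := by simp [VE]

theorem card_tS {v : V} (hv : v ∈ T.R) : (T.tS S Use v).card ≤ 1 := by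
  refine card_le_one.2 (fun a ha b hb => ?_)
  obtain ⟨ha1, ha2, _⟩ := (T.mem_tS S Use).1 ha
  obtain ⟨hb1, hb2, _⟩ := (T.mem_tS S Use).1 hb
  exact O_inj hv (T.mem_NT.1 ha1).1 (T.mem_NT.1 hb1).1 (ha2.2.trans hb2.2.symm)

/-- A pair pays at most one arc. -/
theorem sum_pairs : ∑ v ∈ T.R, ((T.NT v).filter (T.HasP S Use v)).card ≤
    ∑ w ∈ T.R, (T.UP S Use w).card := by
  rw [← card_sigma, ← card_sigma]
  have hx : ∀ a : (Σ _ : V, V), ∃ x, T.HasP S Use a.1 a.2 →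
      T.PayP (S a.1) x a.1 a.2 ∧ Use x a.1 := by
    intro a
    by_cases h : T.HasP S Use a.1 a.2
    · obtain ⟨x, hx⟩ := h
      exact ⟨x, fun _ => hx⟩
    · exact ⟨a.1, fun h1 => absurd h1 h⟩
  choose f hf using hx
  refine card_le_card_of_injOn
    (fun a => (⟨T.p (f a), (f a, a.1)⟩ : Σ _ : V, V × V)) ?_ ?_
  · intro a ha
    simp only [coe_sigma, Set.mem_sigma_iff, mem_coe, mem_filter] at ha ⊢
    obtain ⟨h1, h2⟩ := hf a ha.2.2
    exact ⟨T.p_mem _ h1.1 h1.2.1, (T.mem_UP S Use).2 ⟨T.mem_ch.2 ⟨h1.1, h1.2.1, rfl⟩,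
      h1.2.2.1, ha.1, h2, a.2, ha.2.1, h1⟩⟩
  · rintro ⟨v, u⟩ ha ⟨v', u'⟩ hb hab
    simp only [coe_sigma, Set.mem_sigma_iff, mem_coe, mem_filter] at ha hb
    simp only [Sigma.mk.injEq, heq_eq_eq, Prod.mk.injEq] at hab
    obtain ⟨_, h1, h2⟩ := hab
    subst h2
    have h3 := (hf ⟨v, u⟩ ha.2.2).1.2.2.2.1
    have h4 := (hf ⟨v, u'⟩ hb.2.2).1.2.2.2.1
    simp only [h1] at h3
    have : u = u' := O_inj ha.1 (T.mem_NT.1 ha.2.1).1 (T.mem_NT.1 hb.2.1).1 (h3.symm.trans h4)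
    rw [this]

/-- The account: every real non-tree arc has a payer. -/
theorem account : ∑ v ∈ T.R, (T.NT v).card ≤ ∑ v ∈ T.R, ((T.tS S Use v).card +
    (T.W0 S Use v).card + ((T.nuS S v).card + (T.UP S Use v).card) + (T.VE S Use v).card) := by
  simp only [sum_add_distrib]
  have h1 : ∑ v ∈ T.R, ((T.NT v).filter
      (fun u => T.PayZ v u ∧ ¬ T.PayT v u ∧ ¬ T.HasP S Use v u)).card =
      ∑ v ∈ T.R, (T.W0 S Use v).card := by
    unfold W0
    convert T.sum_head (fun v u => T.PayZ v u ∧ ¬ T.PayT v u ∧ ¬ T.HasP S Use v u)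
  have h2 : ∑ v ∈ T.R, ((T.NT v).filter (fun u => ¬ T.Expl (S v) v u)).card =
      ∑ v ∈ T.R, (T.nuS S v).card := by
    unfold nuS
    convert T.sum_head (fun v u => ¬ T.Expl (S v) v u)
  have h3 := T.sum_pairs S Use
  have h4 : ∀ v ∈ T.R, (T.NT v).card ≤ (T.tS S Use v).card +
      ((T.NT v).filter (fun u => T.PayZ v u ∧ ¬ T.PayT v u ∧ ¬ T.HasP S Use v u)).card +
      (((T.NT v).filter (fun u => ¬ T.Expl (S v) v u)).card +
      ((T.NT v).filter (T.HasP S Use v)).card) + (T.VE S Use v).card := by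
    intro v _
    simp only [tS, VE, card_filter, ← sum_add_distrib]
    rw [card_eq_sum_ones]
    refine sum_le_sum (fun u _ => ?_)
    by_cases a : T.PayT v u <;> by_cases b : T.PayZ v u <;> by_cases c : T.HasP S Use v u <;>
      by_cases e : T.Expl (S v) v u <;> simp [a, b, c, e]
  have h5 := sum_le_sum h4
  simp only [sum_add_distrib] at h5
  omega

variable {T S Use}

/-- What is left over has an escape or a declined pair. -/
theorem VE_esc {v u : V} (hS : T.IsSig v (S v)) (hv : v ∈ T.R) (hu : u ∈ T.VE S Use v) :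
    (∃ z, S v z ∧ T.Port z v (T.col v u)) ∨ ∃ x, T.PayP (S v) x v u ∧ ¬ Use x v := by
  obtain ⟨h1, h2, h3, h4, h5⟩ := (T.mem_VE S Use).1 hu
  rcases lemE hS hv (T.mem_NT.1 h1).1 h2 with h | h | ⟨x, h⟩ | h
  · exact absurd h h3
  · exact absurd h h4
  · exact Or.inr ⟨x, h, fun h6 => h5 ⟨x, h, h6⟩⟩
  · exact Or.inl h

theorem nuS_sub {w : V} (hS : ∀ v ∈ T.R, T.IsSig v (S v)) : T.nuS S w ⊆ T.H w := by
  intro v hv
  obtain ⟨h1, h2, h3⟩ := (T.mem_nuS S).1 hv
  exact (unexpl (hS v h1) h1 (T.mem_NT.1 h2).1 (T.mem_NT.1 h2).2 h3).2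

/-- No paying pair in the column of an unexplained arc. -/
theorem nu_col {w x v u : V} (hx : x ∈ T.ch w) (h : T.PayP (S v) x v u) : v ∉ T.nuS S w := by
  intro hv
  have := h.expl
  rw [(T.mem_ch.1 hx).2.2] at this
  exact ((T.mem_nuS S).1 hv).2.2 this

/-- The budget at the hider, with a set `F` of free tokens outside the `ν` columns. -/
theorem A_le {w : V} (hS : ∀ v ∈ T.R, T.IsSig v (S v)) (hne : (T.ch w).Nonempty)
    (F : Finset (V × V)) (hF : F ⊆ T.ch w ×ˢ T.H w) (hd : Disjoint F (T.UP S Use w))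
    (hn : ∀ q ∈ F, q.2 ∉ T.nuS S w) :
    (T.nuS S w).card + (T.UP S Use w).card + F.card ≤ (T.H w).card * (T.ch w).card := by
  obtain ⟨x0, hx0⟩ := hne
  have h1 : ((T.nuS S w).image (fun v => (x0, v))).card = (T.nuS S w).card :=
    card_image_of_injective _ (fun a b h => (Prod.mk.inj h).2)
  have h2 : Disjoint ((T.nuS S w).image (fun v => (x0, v))) (T.UP S Use w) := by
    refine disjoint_left.2 (fun q hq hq2 => ?_)
    obtain ⟨v, hv, rfl⟩ := mem_image.1 hq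
    obtain ⟨_, _, _, _, u, _, h⟩ := (T.mem_UP S Use).1 hq2
    exact nu_col hx0 h hv
  have h3 : Disjoint ((T.nuS S w).image (fun v => (x0, v)) ∪ T.UP S Use w) F := by
    refine disjoint_union_left.2 ⟨disjoint_left.2 (fun q hq hq2 => ?_), hd.symm⟩
    obtain ⟨v, hv, rfl⟩ := mem_image.1 hq
    exact hn _ hq2 hv
  rw [← h1, ← card_union_of_disjoint h2, ← card_union_of_disjoint h3, mul_comm, ← card_product]
  refine card_le_card (union_subset (union_subset ?_ (filter_subset _ _)) hF)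
  intro q hq
  obtain ⟨v, hv, rfl⟩ := mem_image.1 hq
  exact mem_product.2 ⟨hx0, nuS_sub hS hv⟩

theorem UP_leaf {w : V} (h : T.ch w = ∅) : T.UP S Use w = ∅ := by
  simp [UP, h]

end Pay

end Tr

end Pool.Agent.Lib.MP_12eaff_co.Frz.Acc2
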