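import Pool.Agent.Lib.MP_12eaff_co.Frz.BK.Defs

set_option autoImplicit false
set_option linter.unusedSectionVars false

namespace Pool.Agent.Lib.MP_12eaff_co.Frz.Acc2

open Finset Pool.Agent.Lib.MP_12eaff_co.Frz.BK
open scoped Classical

variable {V : Type} [Fintype V]

/-- The hole `v` takes the colour of `u`, and `u` becomes the hole. -/
noncomputable def shift (D : ℕ) (f : V → ℕ) (v u : V) : V → ℕ :=
  Function.update (Function.update f v (f u)) u D

/-- Independent subsets of `S` have at most `t` elements. -/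
def Cov (G : SimpleGraph V) (S : Finset V) (t : ℕ) : Prop :=
  ∀ I ⊆ S, (∀ a ∈ I, ∀ b ∈ I, ¬ G.Adj a b) → I.card ≤ t

/-- Level tree of hole shifts with immobile vertices `Dm` (ports, parked holes).  `col v` is the
state `s(v)`; the value `D` is the hole, values `> D` are blank.  A child outside `O` of its
parent is a passage child.  `S2` are the soft ports (not counted in degrees).  `Sx` are the sets
of slot vertices that are counted together, `Xm z m` marks exempt ports of the state of `z`. -/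
structure Tr (G : SimpleGraph V) (D : ℕ) where
  R : Finset V
  r : V
  c : V → ℕ
  p : V → V
  d : V → ℕ
  col : V → V → ℕ
  O : V → Finset V
  Dm : Finset V
  S2 : Finset V
  Sx : Finset (Finset V)
  Xm : V → V → Prop
  r_mem : r ∈ R
  d_r : d r = 0
  p_r : p r = r
  c_r : c r = D
  col_r : col r = c
  real : ∀ v ∈ R, v ∉ Dm
  S2_sub : S2 ⊆ Dm
  prop : ∀ v ∈ R, ∀ a b, G.Adj a b → col v a ≠ col v b
  full : ∀ v ∈ R, ∀ m, m ∉ Dm → m ≠ v → col v m < D
  dm_ne : ∀ v ∈ R, ∀ m ∈ Dm, col v m ≠ D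
  p_mem : ∀ v ∈ R, v ≠ r → p v ∈ R
  d_p : ∀ v ∈ R, v ≠ r → d (p v) < d v
  pass : ∀ v ∈ R, v ≠ r → v ∉ O (p v) →
    ¬ G.Adj (p v) v ∧ d (p v) + 3 ≤ d v ∧ col (p v) v ≠ col (p v) (p (p v))
  col_p : ∀ v ∈ R, v ≠ r → ∀ m, m ∉ Dm → col v m = shift D (col (p v)) (p v) v m
  O_adj : ∀ v ∈ R, ∀ u ∈ O v, G.Adj v u
  uniq : ∀ v ∈ R, ∀ u ∈ O v, ∀ m, G.Adj v m → m ≠ u → col v m ≠ col v u
  ne_p : ∀ v ∈ R, ∀ u ∈ O v, col v u ≠ col v (p v)
  clo : ∀ v ∈ R, ∀ u ∈ O v, u ∈ R ∧ d u ≤ d v + 1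

namespace Tr

variable {G : SimpleGraph V} {D : ℕ} (T : Tr G D)

/-- `Anc a v`: `a` is `v` or an ancestor of `v`. -/
inductive Anc : V → V → Prop
  | refl (v : V) : v ∈ T.R → Anc v v
  | step (a v : V) : v ∈ T.R → v ≠ T.r → Anc a (T.p v) → Anc a v

/-- Children. -/
noncomputable def ch (w : V) : Finset V := T.R.filter (fun x => x ≠ T.r ∧ T.p x = w)

/-- Hidden set: coloured neighbours outside `O w` and the parent. -/
noncomputable def H (w : V) : Finset V :=
  (nb G w).filter (fun m => T.col w m < D ∧ m ∉ T.O w ∧ m ≠ T.p w)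

theorem mem_ch {w x : V} : x ∈ T.ch w ↔ x ∈ T.R ∧ x ≠ T.r ∧ T.p x = w := by
  simp [ch]

theorem mem_H {w m : V} :
    m ∈ T.H w ↔ G.Adj w m ∧ T.col w m < D ∧ m ∉ T.O w ∧ m ≠ T.p w := by
  simp [H]

theorem ind {P : V → Prop} (h0 : P T.r) (h1 : ∀ v ∈ T.R, v ≠ T.r → P (T.p v) → P v) :
    ∀ v ∈ T.R, P v := by
  have : ∀ n, ∀ v ∈ T.R, T.d v = n → P v := by
    intro n
    induction n using Nat.strong_induction_on with
    | _ n ih =>
      intro v hv hd
      by_cases h : v = T.r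
      · exact h ▸ h0
      · exact h1 v hv h (ih _ (hd ▸ T.d_p v hv h) _ (T.p_mem v hv h) rfl)
  exact fun v hv => this _ v hv rfl

theorem lt (v : V) (hv : v ∈ T.R) (u : V) (hu : u ∈ T.O v) : T.col v u < D :=
  T.full v hv u (T.real u (T.clo v hv u hu).1) (T.O_adj v hv u hu).ne.symm

/-- Port ticket: a port of `v` shows `κ` in the state `s(z)` but not in `s(v)`. -/
def Port (z v : V) (κ : ℕ) : Prop :=
  ∃ m ∈ T.Dm, G.Adj v m ∧ T.col z m = κ ∧ T.col v m ≠ κ

/-- No soft port of `v` is visible in `s(z)`. -/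
def NS (z v : V) : Prop := ∀ m ∈ T.S2, G.Adj v m → D < T.col z m

/-- Slot vertices. -/
def Sl (a : V) : Prop := ∃ A ∈ T.Sx, a ∈ A

/-- No filling: from a tree state, with the immobile vertices fixed, if the changed vertices of
every slot set have no independent subset with more than `t` elements. -/
def NF (t : ℕ) : Prop := ∀ z ∈ T.R, ∀ g : V → ℕ, (∀ m ∈ T.Dm, g m = T.col z m) →
  (∀ m, m ∉ T.Dm → g m < D) → (∀ a b, G.Adj a b → g a ≠ g b) →
  (∀ A ∈ T.Sx, Cov G (A.filter fun a => g a ≠ T.col z a) t) → False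

/-- No filling, count form: every colour is gained and lost by at most `t` vertices of every slot
set. -/
def NFc (t : ℕ) : Prop := ∀ z ∈ T.R, ∀ g : V → ℕ, (∀ m ∈ T.Dm, g m = T.col z m) →
  (∀ m, m ∉ T.Dm → g m < D) → (∀ a b, G.Adj a b → g a ≠ g b) →
  (∀ A ∈ T.Sx, ∀ κ < D, (A.filter fun a => g a = κ ∧ T.col z a ≠ κ).card ≤ t) →
  (∀ A ∈ T.Sx, ∀ κ < D, (A.filter fun a => T.col z a = κ ∧ g a ≠ κ).card ≤ t) → False

variable {T}

theorem Anc.mem {a v : V} (h : T.Anc a v) : a ∈ T.R ∧ v ∈ T.R := by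
  induction h with
  | refl hv => exact ⟨hv, hv⟩
  | step v hv _ _ ih => exact ⟨ih.1, hv⟩

theorem Anc.le {a v : V} (h : T.Anc a v) : T.d a ≤ T.d v := by
  induction h with
  | refl _ => exact le_rfl
  | step v hv hr _ ih => have := T.d_p v hv hr; omega

theorem Anc.cases' {a v : V} (h : T.Anc a v) : a = v ∨ (v ≠ T.r ∧ T.Anc a (T.p v)) := by
  cases h with
  | refl _ => exact Or.inl rfl
  | step _ _ hr h => exact Or.inr ⟨hr, h⟩

theorem Anc.eq_of_d {a v : V} (h : T.Anc a v) (hd : T.d v ≤ T.d a) : a = v := by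
  rcases h.cases' with h1 | ⟨hr, h1⟩
  · exact h1
  · have := T.d_p v h.mem.2 hr
    have := h1.le
    omega

theorem Anc.lt {a v : V} (h : T.Anc a v) (hne : a ≠ v) : T.d a < T.d v := by
  by_contra hc
  exact hne (h.eq_of_d (by omega))

theorem Anc.trans {a b v : V} (h1 : T.Anc a b) (h2 : T.Anc b v) : T.Anc a v := by
  induction h2 with
  | refl _ => exact h1
  | step v hv hr _ ih => exact Anc.step a v hv hr ih

theorem anc_p {v : V} (hv : v ∈ T.R) (hr : v ≠ T.r) : T.Anc (T.p v) v :=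
  Anc.step _ v hv hr (Anc.refl _ (T.p_mem v hv hr))

theorem anc_r {v : V} (hv : v ∈ T.R) : T.Anc T.r v :=
  T.ind (P := fun v => T.Anc T.r v) (Anc.refl _ T.r_mem)
    (fun v hv hr h => Anc.step _ v hv hr h) v hv

/-- Two ancestors of one vertex are comparable. -/
theorem Anc.comp {a b v : V} (h1 : T.Anc a v) (h2 : T.Anc b v) (hd : T.d a ≤ T.d b) :
    T.Anc a b := by
  induction h2 with
  | refl _ => exact h1
  | step v hv hr h2 ih =>
    rcases h1.cases' with h | ⟨_, h⟩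
    · subst h
      have := T.d_p a hv hr
      have := h2.le
      omega
    · exact ih h

/-- The child of `a` towards `v`. -/
theorem Anc.child {a v : V} (h : T.Anc a v) (hne : a ≠ v) :
    ∃ x, x ∈ T.ch a ∧ T.Anc x v := by
  induction h with
  | refl _ => exact absurd rfl hne
  | step v hv hr h ih =>
    by_cases h1 : a = T.p v
    · exact ⟨v, T.mem_ch.2 ⟨hv, hr, h1.symm⟩, Anc.refl v hv⟩
    · obtain ⟨x, hx, hx2⟩ := ih h1
      exact ⟨x, hx, Anc.step x v hv hr hx2⟩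

theorem d_ch {w x : V} (h : x ∈ T.ch w) : T.d w < T.d x := by
  obtain ⟨h1, h2, h3⟩ := T.mem_ch.1 h
  rw [← h3]; exact T.d_p x h1 h2

/-- Depth of a child along a real arc. -/
theorem d_chO {w x : V} (h : x ∈ T.ch w) (ho : x ∈ T.O w) : T.d x = T.d w + 1 := by
  obtain ⟨h1, h2, h3⟩ := T.mem_ch.1 h
  have := d_ch h
  have := (T.clo w (h3 ▸ T.p_mem x h1 h2) x ho).2
  omega

/-- A child is a real child if it is adjacent or at most two levels deeper. -/
theorem ch_O {w x : V} (h : x ∈ T.ch w) (k : G.Adj w x ∨ T.d x ≤ T.d w + 2) : x ∈ T.O w := by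
  obtain ⟨h1, h2, rfl⟩ := T.mem_ch.1 h
  by_contra e
  obtain ⟨a, b, _⟩ := T.pass x h1 h2 e
  exact k.elim a (by omega)

theorem anc_ch {w x : V} (h : x ∈ T.ch w) : T.Anc w x := by
  obtain ⟨h1, h2, h3⟩ := T.mem_ch.1 h
  rw [← h3]; exact anc_p h1 h2

theorem Anc.ch_of_d {a v : V} (h : T.Anc a v) (hne : a ≠ v) (hd : T.d v ≤ T.d a + 1) :
    v ∈ T.ch a := by
  obtain ⟨x, hx, hx2⟩ := h.child hne
  have := d_ch hx
  have : x = v := hx2.eq_of_d (by omega)
  exact this ▸ hx

/-- Between a vertex and the end of a path through its child `x` everything is below `x`. -/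
theorem Anc.under {m x u z : V} (hx : x ∈ T.ch m) (hz : T.Anc x z) (h1 : T.Anc m u)
    (h2 : T.Anc u z) (ne : m ≠ u) : T.Anc x u := by
  rcases le_total (T.d x) (T.d u) with k | k
  · exact hz.comp h2 k
  · rcases (h2.comp hz k).cases' with e | ⟨_, e⟩
    · exact e ▸ Anc.refl u h2.mem.1
    · rw [(T.mem_ch.1 hx).2.2] at e
      have := e.le
      have := h1.lt ne
      omega

theorem Anc.real {a v : V} (h : T.Anc a v) : a ∉ T.Dm := T.real a h.mem.1

theorem nanc_dm {m v : V} (h : m ∈ T.Dm) : ¬ T.Anc m v := fun k => k.real h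

theorem O_real {v u : V} (hv : v ∈ T.R) (hu : u ∈ T.O v) : u ∉ T.Dm :=
  T.real u (T.clo v hv u hu).1

theorem p_ne {v : V} (hv : v ∈ T.R) (hr : v ≠ T.r) : T.p v ≠ v := by
  intro h
  have := T.d_p v hv hr
  rw [h] at this; omega

theorem col_self {v : V} (hv : v ∈ T.R) : T.col v v = D := by
  by_cases hr : v = T.r
  · rw [hr, T.col_r, T.c_r]
  · rw [T.col_p v hv hr v (T.real v hv)]; simp [shift]

theorem col_step {v m : V} (hv : v ∈ T.R) (hr : v ≠ T.r) (hm : m ∉ T.Dm) (h1 : m ≠ v)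
    (h2 : m ≠ T.p v) : T.col v m = T.col (T.p v) m := by
  rw [T.col_p v hv hr m hm]; simp [shift, Function.update_of_ne h1, Function.update_of_ne h2]

/-- Off the path the colours of real vertices are the base colours. -/
theorem col_base {v m : V} (hv : v ∈ T.R) (hm : m ∉ T.Dm) (h : ¬ T.Anc m v) :
    T.col v m = T.c m := by
  revert h
  refine T.ind (P := fun v => ¬ T.Anc m v → T.col v m = T.c m) ?_ ?_ v hv
  · intro _; rw [T.col_r]
  · intro v hv hr ih h
    have h1 : m ≠ v := fun e => h (e ▸ Anc.refl _ (e ▸ hv))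
    have h2 : m ≠ T.p v := fun e => h (e ▸ anc_p hv hr)
    rw [col_step hv hr hm h1 h2]
    exact ih (fun h3 => h (Anc.step _ v hv hr h3))

theorem col_p_self {v : V} (hv : v ∈ T.R) (hr : v ≠ T.r) : T.col (T.p v) v = T.c v := by
  refine col_base (T.p_mem v hv hr) (T.real v hv) (fun h => ?_)
  have := h.le
  have := T.d_p v hv hr
  omega

theorem col_par {v : V} (hv : v ∈ T.R) (hr : v ≠ T.r) : T.col v (T.p v) = T.c v := by
  rw [T.col_p v hv hr _ (T.real _ (T.p_mem v hv hr)), shift, Function.update_of_ne (p_ne hv hr),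
    Function.update_self, col_p_self hv hr]

/-- Two states on one path differ only between them (on real vertices). -/
theorem col_diff {m z u : V} (h : T.Anc m z) (hm : u ∉ T.Dm) (hu : ¬ (T.Anc m u ∧ T.Anc u z)) :
    T.col z u = T.col m u := by
  induction h with
  | refl _ => rfl
  | step v hv hr h ih =>
    have h1 : u ≠ v := fun e => hu ⟨by rw [e]; exact Anc.step _ v hv hr h,
      by rw [e]; exact Anc.refl _ hv⟩
    have h2 : u ≠ T.p v := fun e => hu ⟨e ▸ h, e ▸ anc_p hv hr⟩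
    rw [col_step hv hr hm h1 h2]
    exact ih (fun h3 => hu ⟨h3.1, Anc.step _ v hv hr h3.2⟩)

/-- On the path every vertex has the base colour of its child. -/
theorem col_anc {w x v : V} (hx : x ∈ T.ch w) (h : T.Anc x v) : T.col v w = T.c x := by
  obtain ⟨h1, h2, h3⟩ := T.mem_ch.1 hx
  rw [col_diff h (anc_ch hx).real, ← h3, col_par h1 h2]
  rintro ⟨h4, _⟩
  have := h4.le
  have := d_ch hx
  omega

theorem c_lt {v : V} (hv : v ∈ T.R) (hr : v ≠ T.r) : T.c v < D := by
  rw [← col_p_self hv hr]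
  exact T.full _ (T.p_mem v hv hr) v (T.real v hv) (p_ne hv hr).symm

theorem col_lt {v m : V} (hv : v ∈ T.R) (hm : m ∈ T.R) (hne : m ≠ v) : T.col v m < D :=
  T.full v hv m (T.real m hm) hne

theorem col_ne_D {v m : V} (hv : v ∈ T.R) (hne : m ≠ v) : T.col v m ≠ D := by
  by_cases k : m ∈ T.Dm
  exacts [T.dm_ne v hv m k, (T.full v hv m k hne).ne]

/-- A child does not have the base colour of its parent. -/
theorem c_ch_ne {w x : V} (hx : x ∈ T.ch w) (hr : w ≠ T.r) : T.c x ≠ T.c w := by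
  obtain ⟨h1, h2, h3⟩ := T.mem_ch.1 hx
  have hw : w ∈ T.R := h3 ▸ T.p_mem x h1 h2
  have : T.col w x ≠ T.col w (T.p w) := by
    by_cases k : x ∈ T.O w
    · exact T.ne_p w hw x k
    · exact h3 ▸ (T.pass x h1 h2 (h3 ▸ k)).2.2
  rwa [col_par hw hr, ← h3, col_p_self h1 h2, h3] at this

theorem col_pcol {v : V} (hv : v ∈ T.R) : PCol G D (T.col v) :=
  fun a b hab _ => T.prop v hv a b hab

theorem O_ne_p {v u : V} (hv : v ∈ T.R) (hu : u ∈ T.O v) : u ≠ T.p v :=
  fun e => T.ne_p v hv u hu (by rw [e])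

/-- A witness among the ports is a port ticket. -/
theorem port_of {z v u m : V} (hv : v ∈ T.R) (hu : u ∈ T.O v) (hm : G.Adj v m) (hd : m ∈ T.Dm)
    (hc : T.col z m = T.col v u) : T.Port z v (T.col v u) :=
  ⟨m, hd, hm, hc, T.uniq v hv u hu m hm fun e => O_real hv hu (e ▸ hd)⟩

/-- F2, depth form. -/
theorem F2 {u v : V} (hu : u ∈ T.R) (hv : v ∈ T.R) (h : G.Adj u v) (hd : T.d u + 2 ≤ T.d v) :
    v ∈ T.H u := by
  refine T.mem_H.2 ⟨h, col_lt hu hv h.ne.symm, fun h1 => ?_, fun h1 => ?_⟩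
  · have := (T.clo u hu v h1).2; omega
  · by_cases hr : u = T.r
    · rw [hr, T.p_r] at h1; rw [h1, T.d_r] at hd; omega
    · have := T.d_p u hu hr; rw [← h1] at this; omega

/-- F2, path form: a neighbour strictly below a child is hidden. -/
theorem F2' {u x v : V} (hx : x ∈ T.ch u) (hv : T.Anc x v) (ne : x ≠ v) (h : G.Adj u v) :
    v ∈ T.H u :=
  F2 (anc_ch hx).mem.1 hv.mem.2 h (by have := d_ch hx; have := hv.lt ne; omega)

/-- Trichotomy for two adjacent tree vertices. -/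
theorem adj_cases {u v : V} (hu : u ∈ T.R) (hv : v ∈ T.R) (h : G.Adj u v) :
    v ∈ T.O u ∨ v ∈ T.H u ∨ u ∈ T.ch v := by
  by_cases h1 : v ∈ T.O u
  · exact Or.inl h1
  by_cases h2 : v = T.p u
  · refine Or.inr (Or.inr (T.mem_ch.2 ⟨hu, fun hr => ?_, h2.symm⟩))
    rw [hr, T.p_r] at h2
    exact h.ne (hr.trans h2.symm)
  · exact Or.inr (Or.inl (T.mem_H.2 ⟨h, col_lt hu hv h.ne.symm, h1, h2⟩))

theorem NF.mono {s t : ℕ} (h : T.NF t) (k : s ≤ t) : T.NF s := fun z hz g a b c d =>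
  h z hz g a b c fun A p I q r => (d A p I q r).trans k

theorem NFc.nf {t : ℕ} (h : T.NFc t) : T.NF t := fun z hz g a b c d =>
  h z hz g a b c
    (fun A p κ _ => d A p _ (fun x k => mem_filter.2 ⟨(mem_filter.1 k).1, fun e =>
      (mem_filter.1 k).2.2 (e.symm.trans (mem_filter.1 k).2.1)⟩) fun x k y l e =>
        c x y e ((mem_filter.1 k).2.1.trans (mem_filter.1 l).2.1.symm))
    fun A p κ _ => d A p _ (fun x k => mem_filter.2 ⟨(mem_filter.1 k).1, fun e =>
      (mem_filter.1 k).2.2 (e.trans (mem_filter.1 k).2.1)⟩) fun x k y l e =>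
        T.prop z hz x y e ((mem_filter.1 k).2.1.trans (mem_filter.1 l).2.1.symm)

end Tr

end Pool.Agent.Lib.MP_12eaff_co.Frz.Acc2
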