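import Pool.Agent.Lib.MP_12eaff_co.Frz.Acc2.Lt
import Pool.Agent.Lib.MP_12eaff_co.Frz.Acc2.Wild

set_option autoImplicit false
set_option linter.unusedSectionVars false

namespace Pool.Agent.Lib.MP_12eaff_co.Frz.Acc2

open Finset Pool.Agent.Lib.MP_12eaff_co.Frz.BK
open scoped Classical

variable {V : Type} [Fintype V] {G : SimpleGraph V} {D : ℕ} {F : Fm V}

/-- A coloured vertex that sees all other colours has at most two repeated colours. -/
theorem HC.three_dbl {f : V → ℕ} {e u a b c : V} (h : HC G D F e f) (hd : F.Dg G D u)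
    (l : f u < D) (t : ∀ κ < D, κ ≠ f u → ∃ m, G.Adj u m ∧ f m = κ) (ha : G.Adj u a)
    (hb : G.Adj u b) (hc : G.Adj u c) (ab : f a ≠ f b) (ac : f a ≠ f c) (bc : f b ≠ f c)
    (da : ¬ Uq G f u a) (db : ¬ Uq G f u b) (dc : ¬ Uq G f u c) (la : f a ≤ D) (lb : f b ≤ D)
    (lc : f c ≤ D) : False := by
  simp only [Uq, not_forall, not_not] at da db dc
  obtain ⟨a', a1, a2, a3⟩ := da
  obtain ⟨b', b1, b2, b3⟩ := db
  obtain ⟨c', c1, c2, c3⟩ := dc
  have na := h.nB la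
  have nb' := h.nB lb
  have nc := h.nB lc
  have h1 := card_le_card (s := (range D).erase (f u))
    (t := ((nb G u \ F.B) \ {a', b', c'}).image f) fun κ k => by
      obtain ⟨k1, k2⟩ := mem_erase.1 k
      obtain ⟨m, m1, rfl⟩ := t κ (mem_range.1 k2) k1
      have := h.nB (mem_range.1 k2).le
      simp only [mem_image, mem_sdiff, mem_nb, mem_insert, mem_singleton]
      grind
  have h2 := card_sdiff_add_card_eq_card (s := {a', b', c'}) (t := nb G u \ F.B) (by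
    simp [insert_subset_iff, a1, b1, c1, h.nB (a3.trans_le la), h.nB (b3.trans_le lb),
      h.nB (c3.trans_le lc)])
  rw [card_eq_three.2 ⟨a', b', c', by grind, by grind, by grind, rfl⟩] at h2
  have := card_image_le (s := (nb G u \ F.B) \ {a', b', c'}) (f := f)
  have := card_erase_add_one (mem_range.2 l)
  unfold Fm.Dg at hd
  rw [card_range] at *
  omega

/-- One of two repeated colours survives the change of one neighbour (inside `P`). -/
theorem persist {f g : V → ℕ} {u a b p : V} (P : V → Prop) (ha : G.Adj u a) (hb : G.Adj u b)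
    (pa : P a) (pb : P b) (ab : f a ≠ f b) (e : ∀ m, G.Adj u m → P m → m ≠ p → f m = g m)
    (da : ∃ m, G.Adj u m ∧ P m ∧ m ≠ a ∧ f m = f a)
    (db : ∃ m, G.Adj u m ∧ P m ∧ m ≠ b ∧ f m = f b) : ¬ Uq G g u a ∨ ¬ Uq G g u b := by
  simp only [Uq, not_forall, not_not]
  obtain ⟨a', a1, a0, a2, a3⟩ := da
  obtain ⟨b', b1, b0, b2, b3⟩ := db
  by_cases k : a ≠ p ∧ a' ≠ p
  · exact .inl ⟨a', a1, a2, by rw [← e a ha pa k.1, ← e a' a1 a0 k.2, a3]⟩
  · exact .inr ⟨b', b1, b2, by rw [← e b hb pb (by grind), ← e b' b1 b0 (by grind), b3]⟩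

/-- A neighbour of the hole that sees all other colours has at most one repeated colour. -/
theorem HC.dbl_nb2 {e u : V} {f : V → ℕ} (h : HC G D F e f) (hd : F.Dg G D u) (a : G.Adj u e)
    (l : f u < D) (t : ∀ κ < D, κ ≠ f u → ∃ m, G.Adj u m ∧ f m = κ) {x x' y y' : V}
    (hx : G.Adj u x) (hx' : G.Adj u x') (hy : G.Adj u y) (hy' : G.Adj u y') (e1 : x ≠ x')
    (e2 : y ≠ y') (c1 : f x = f x') (c2 : f y = f y') (lx : f x ≤ D) (ly : f y ≤ D) :
    y = x ∨ y = x' := by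
  have m : ∀ {x x'}, G.Adj u x → x ≠ x' → f x = f x' → f x ≤ D → x ∈ (nb G u \ F.B).erase e :=
    fun {x x'} p k q r => mem_erase.2 ⟨fun z => h.ne_D (fun y : x' = e => k (z.trans y.symm))
      (by rw [← q, z, h.hole]), mem_sdiff.2 ⟨mem_nb.2 p, h.nB r⟩⟩
  refine one_double ?_ (m hx e1 c1 lx) (m hx' e1.symm c1.symm (c1 ▸ lx)) e1 c1 (m hy e2 c2 ly)
    (m hy' e2.symm c2.symm (c2 ▸ ly)) e2 c2
  have := card_le_card (s := (range D).erase (f u)) (t := ((nb G u \ F.B).erase e).image f)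
    fun κ k => by
      obtain ⟨k1, k2⟩ := mem_erase.1 k
      obtain ⟨m, m1, rfl⟩ := t κ (mem_range.1 k2) k1
      exact mem_image_of_mem f (mem_erase.2 ⟨h.ne_hole (mem_range.1 k2),
        mem_sdiff.2 ⟨mem_nb.2 m1, h.nB (mem_range.1 k2).le⟩⟩)
  have := pred_card_le_card_erase (s := range D) (a := f u)
  have := card_erase_add_one (mem_sdiff.2 ⟨mem_nb.2 a, h.dis e h.mem⟩)
  unfold Fm.Dg at hd
  rw [card_range] at *
  omega

/-- A vertex that can be swapped with a non-neighbour `q` of the hole is not unique there. -/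
theorem HC.swap_dbl2 {e q w : V} {f : V → ℕ} (h : HC G D F e f) (sq : q ∈ F.S) (sw : w ∈ F.S)
    (hq : q ≠ e) (hw : w ≠ e) (n : ¬ G.Adj e q) (h1 : Uq G f q w) (h2 : Uq G f w q)
    (a : G.Adj q w) : ¬ Uq G f e w := fun k => by
  obtain ⟨m, m1, m2⟩ := (h.swap' sq sw hq hw h1 h2).sees (h.lt w sw hw)
  by_cases x : m = w
  · rw [x, Function.comp, Equiv.swap_apply_right] at m2
    exact h.ne a m2
  · rw [Function.comp, Equiv.swap_apply_of_ne_of_ne (fun z : m = q => n (z ▸ m1)) x] at m2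
    exact k m m1 x m2

/-- Two shifts `a → v → u`. -/
theorem HC.two_shift {a v u : V} {f : V → ℕ} (h : HC G D F a f) (sv : v ∈ F.S) (su : u ∈ F.S)
    (va : v ≠ a)
    (ua : u ≠ a) (h1 : Uq G f a v) (h2 : Uq G f v u) (e : G.Adj v u) :
    HC G D F u (Acc2.shift D (Acc2.shift D f a v) v u) ∧ ∀ κ < D, κ ≠ f u →
      ∃ m, G.Adj u m ∧ m ≠ v ∧ (m = a ∧ κ = f v ∨ m ≠ a ∧ f m = κ) := by
  have s := (h.shift sv va h1).shift (u := u) su e.ne.symm fun m p q => by
    rw [shift_o e.ne.symm ua]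
    by_cases r : m = a
    · rw [r, shift_l va.symm]
      exact h.ne e
    · rw [shift_o p.ne.symm r]
      exact h2 m p q
  refine ⟨s, fun κ k n => ?_⟩
  obtain ⟨m, m1, m2⟩ := s.sees k
  have mv : m ≠ v := fun r => n (by rw [← m2, r, shift_l e.ne, shift_o e.ne.symm ua])
  rw [shift_o m1.ne.symm mv] at m2
  by_cases r : m = a
  · exact ⟨m, m1, mv, .inl ⟨r, by rw [← m2, r, shift_l va.symm]⟩⟩
  · exact ⟨m, m1, mv, .inr ⟨r, by rw [← m2, shift_o mv r]⟩⟩

namespace Tr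

variable (T : Tr G D)

/-- A unit for the arc `v → u` that is found from the state `y`. -/
def Pay (v u y : V) : Prop := T.PayT v u ∨ (∃ x, T.Pr x v u ∧ (T.Anc x v ∨ T.Anc x y)) ∨
  T.PayD (fun z => T.Anc z y) v u

/-- A highest open witness, for any position of the tail. -/
def Op2 (v u y a x : V) : Prop := x ∈ T.ch a ∧ T.Anc x y ∧ ¬ T.Anc x v ∧ T.c x = T.col v u ∧
  (v ∈ T.O a ∨ a ∈ T.ch v ∧ a ∈ T.O v) ∧ ∀ m, G.Adj v m → m ≠ u → T.col a m ≠ T.col v u

variable {T} {u v w x y z a m : V}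

theorem Pay.mono (h : T.Pay v u y) (k : T.Anc y z) : T.Pay v u z :=
  h.imp_right (Or.imp (fun ⟨x, p, q⟩ => ⟨x, p, q.imp_right fun r => r.trans k⟩)
    fun p => p.mono fun _ r => r.trans k)

theorem col_le (hz : z ∈ T.R) (hm : m ∉ T.Dm) : T.col z m ≤ D := by
  by_cases e : m = z
  exacts [by rw [e, col_self hz], (T.full z hz m hm e).le]

/-- A second witness gives a unit or a highest open witness. -/
theorem high2 (hv : v ∈ T.R) (hu : u ∈ T.O v) (hy : y ∈ T.R) (a : G.Adj v m) (ne : m ≠ u)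
    (hc : T.col y m = T.col v u) : T.Pay v u y ∨ ∃ a x, T.Op2 v u y a x := by
  have l := T.lt v hv u hu
  have key : ∀ k z m, T.d z ≤ k → T.Anc z y → G.Adj v m → m ≠ u → T.col z m = T.col v u →
      T.Pay v u y ∨ ∃ a x, T.Op2 v u y a x := by
    intro k
    induction k using Nat.strong_induction_on with
    | _ k ih =>
    intro z m d s a ne hc
    have uq := T.uniq v hv u hu m a ne
    by_cases dm : m ∈ T.Dm
    · exact .inl (.inr (.inr ⟨z, s, port_of hv hu a dm hc⟩))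
    by_cases p : T.Anc m z
    · obtain ⟨x, x1, x2⟩ := p.child fun e => by rw [e, col_self s.mem.1] at hc; omega
      obtain ⟨p1, p2, p3⟩ := T.mem_ch.1 x1
      rw [col_anc x1 x2] at hc
      have n : ¬ T.Anc x v := fun e => uq (by rw [col_anc x1 e, hc])
      by_cases q : v ∈ T.H m
      · exact .inl (.inr (.inl ⟨x, ⟨p1, p2, p3 ▸ q, by rw [tc, if_neg n, hc]⟩, .inr (x2.trans s)⟩))
      by_cases r : ∀ m', G.Adj v m' → m' ≠ u → T.col m m' ≠ T.col v u
      · exact .inr ⟨m, x, x1, x2.trans s, n, hc,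
          (adj_cases p.mem.1 hv a.symm).imp_right fun e =>
            ⟨e.resolve_left q, ch_O (e.resolve_left q) (.inl a)⟩, r⟩
      push Not at r
      obtain ⟨m', r1, r2, r3⟩ := r
      have := d_ch x1
      have := x2.le
      exact ih (T.d m) (by omega) m m' le_rfl (p.trans s) r1 r2 r3
    · rw [col_base s.mem.1 dm p] at hc
      have k' : T.Anc m v := by
        by_contra e
        exact uq (by rw [col_base hv dm e, hc])
      obtain ⟨x, x1, x2⟩ := k'.child a.ne.symm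
      obtain ⟨p1, p2, p3⟩ := T.mem_ch.1 x1
      by_cases e : x = v
      · subst e
        exact .inl (.inl ⟨⟨p2, p3 ▸ ch_O x1 (.inl a.symm)⟩, by rw [← hc, p3]⟩)
      · exact .inl (.inr (.inl ⟨x, ⟨p1, p2, p3 ▸ F2' x1 x2 e a.symm,
          by rw [tc, if_pos x2, p3, hc]⟩, .inl x2⟩))
  exact key _ y m le_rfl (.refl y hy) a ne hc

theorem Op2.anc (o : T.Op2 v u y a x) : T.Anc a y := (anc_ch o.1).trans o.2.1

theorem Op2.lt (o : T.Op2 v u y a x) : T.d a < T.d y := by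
  have := d_ch o.1
  have := o.2.1.le
  omega

theorem Op2.dep (o : T.Op2 v u y a x) : T.d v ≤ T.d a + 1 := o.2.2.2.2.1.elim
  (fun p => (T.clo a o.anc.mem.1 v p).2) fun p => by have := d_ch p.1; omega

end Tr

namespace IsB

variable {T : Tr G D} {u v w x y z a b : V} {K : Finset V}

open Tr IsA

/-- At an open witness the head is tight without the tail. -/
theorem op_tight (h : IsB T) (hv : v ∈ T.R) (hu : u ∈ T.O v) (cu : T.col v u = T.c u)
    (n : ¬ T.Anc u y) (o : T.Op2 v u y a x) : ¬ G.Adj u a ∧ ¬ G.Adj u x ∧ T.col a u = T.c u ∧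
      ¬ Uq G (T.col a) u v ∧ ∀ κ < D, κ ≠ T.col a u → ∃ m, G.Adj u m ∧ m ≠ v ∧ T.col a m = κ := by
  have ay := o.anc
  obtain ⟨o1, o2, o3, o4, o5, o6⟩ := o
  have aR := ay.mem.1
  have dx := d_ch o1
  have ud := O_real hv hu
  have c1 : T.col a u = T.c u := col_base aR ud fun p => n (p.trans ay)
  have c2 : T.col a x = T.c u := by
    rw [col_base aR o2.real fun p => by have := p.le; omega, o4, cu]
  have na : ¬ G.Adj u a := fun p => ch_uq o1 ud p.symm (fun r => n (r ▸ o2)) (by rw [c1, c2])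
  have av : G.Adj a v := o5.elim (T.O_adj a aR v) fun p => (T.O_adj v hv a p.2).symm
  have uq : Uq G (T.col a) a v := o5.elim (h.uq_O aR) fun p => by
    obtain ⟨p1, p2, p3⟩ := T.mem_ch.1 p.1
    exact p3 ▸ h.uq_par p1 p2 (p3 ▸ p.2)
  have vu := T.O_adj v hv u hu
  have t := ((h.hcP aR (T.real v hv) ud vu).two_shift (by simp) (by simp) av.ne.symm
    (fun p : u = a => n (p ▸ ay)) uq (fun m p q => by rw [c1, ← cu]; exact o6 m p q) vu).2
  have t' : ∀ κ < D, κ ≠ T.col a u → ∃ m, G.Adj u m ∧ m ≠ v ∧ T.col a m = κ := fun κ p q => by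
    obtain ⟨m, m1, m2, m3⟩ := t κ p q
    exact ⟨m, m1, m2, (m3.resolve_left fun r => na (r.1 ▸ m1)).2⟩
  refine ⟨na, fun p => T.prop a aR _ _ p (by rw [c1, c2]), c1, fun p => ?_, t'⟩
  obtain ⟨m, m1, m2, m3⟩ := t' _ (col_lt aR hv av.ne.symm) (T.prop a aR _ _ vu)
  exact p m m1 m2 m3

/-- Two vertices that probe each other can be swapped in every state not below them, or one
of the two arcs has a unit. -/
theorem mutual_swap (h : IsB T) (hu : u ∈ T.R) (hw : w ∈ T.R) (uw : w ∈ T.O u) (wu : u ∈ T.O w)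
    (hy : y ∈ T.R) (nu : ¬ T.Anc u y) (nw : ¬ T.Anc w y) :
    (Uq G (T.col y) u w ∧ Uq G (T.col y) w u) ∨ T.Pay u w y ∨ T.Pay w u y := by
  have base : ∀ {u w}, u ∈ T.R → w ∈ T.R → w ∈ T.O u → u ∈ T.O w → T.col u w = T.c w :=
    fun {u w} p q r s => col_base p (T.real w q) fun k => O_ne_p p r
      (T.mem_ch.1 (k.ch_of_d (T.O_adj w q u s).ne (T.clo w q u s).2)).2.2.symm
  have key : ∀ k z u w, T.d z ≤ k → T.Anc z y → u ∈ T.R → w ∈ T.R → w ∈ T.O u → u ∈ T.O w →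
      ¬ T.Anc u y → ¬ T.Anc w y → ¬ Uq G (T.col z) u w → T.Pay u w y ∨ T.Pay w u y := by
    intro k
    induction k using Nat.strong_induction_on with
    | _ k ih =>
    intro z u w d s hu hw uw wu nu nw q
    simp only [Uq, not_forall, not_not] at q
    obtain ⟨m, m1, m2, m3⟩ := q
    have b := base hu hw uw wu
    rcases high2 hu uw s.mem.1 m1 m2
      (by rw [m3, b, col_base s.mem.1 (T.real w hw) fun p => nw (p.trans s)]) with p | ⟨a, x, o⟩
    · exact .inl (p.mono s)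
    · have := o.lt
      exact (ih (T.d a) (by omega) a w u le_rfl (o.anc.trans s) hw hu wu uw nw nu
        (h.op_tight hu uw b (fun p => nw (p.trans s)) o).2.2.2.1).symm
  by_cases p : Uq G (T.col y) u w
  · by_cases q : Uq G (T.col y) w u
    exacts [.inl ⟨p, q⟩, .inr (key _ y w u le_rfl (.refl y hy) hw hu wu uw nw nu q).symm]
  · exact .inr (key _ y u w le_rfl (.refl y hy) hu hw uw wu nu nw p)

/-- A prober of `u` is adjacent to every clean tail off its path, up to units. -/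
theorem probe_mutual (h : IsB T) (hu : u ∈ T.R) (hw : w ∈ T.R) (uw : w ∈ T.O u) (wu : u ∈ T.O w)
    (hb : b ∈ T.R) (pb : u ∈ T.O b) (nu : ¬ T.Anc u b) (nw : ¬ T.Anc w b) :
    G.Adj b w ∨ T.Pay u w b ∨ T.Pay w u b := by
  refine (h.mutual_swap hu hw uw wu hb nu nw).imp_left fun p => by_contra fun k => ?_
  exact h.swap_tr hb (T.real w hw) (T.real u hu) (fun e => nw (e ▸ .refl _ hw))
    (T.O_adj b hb u pb).ne.symm k p.2 p.1 (T.O_adj w hw u wu) (h.uq_O hb pb)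

/-- Below an open witness a neighbour of the head has moved. -/
theorem op_slot (h : IsB T) (hv : v ∈ T.R) (hu : u ∈ T.O v) (cu : T.col v u = T.c u)
    (nu : ¬ T.Anc u b) (o : T.Op2 v u b a x) (uq : Uq G (T.col b) u v) :
    (∃ m, T.Anc x m ∧ x ≠ m ∧ T.Anc m b ∧ G.Adj u m ∧ (m = v ∨ T.c m = T.col a v)) ∨
      T.Shw a u (T.col a v) := by
  obtain ⟨t1, t2, -, t4, -⟩ := h.op_tight hv hu cu nu o
  simp only [Uq, not_forall, not_not] at t4
  obtain ⟨m, m1, m2, m3⟩ := t4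
  have dx := d_ch o.1
  have pth : ∀ m, G.Adj u m → T.Anc a m ∧ T.Anc m b → T.Anc x m ∧ x ≠ m ∧ T.d a < T.d m :=
    fun m p q => by
      have ne : a ≠ m := fun e => t1 (e ▸ p)
      exact ⟨Anc.under o.1 o.2.1 q.1 q.2 ne, fun e => t2 (e ▸ p), q.1.lt ne⟩
  by_cases p : T.Anc a v ∧ T.Anc v b
  · have := pth v (T.O_adj v hv u hu).symm p
    exact .inl ⟨v, this.1, this.2.1, p.2, (T.O_adj v hv u hu).symm, .inl rfl⟩
  by_cases dm : m ∈ T.Dm
  · exact .inr ⟨m, dm, m1, m3⟩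
  have q : T.Anc a m ∧ T.Anc m b := by
    by_contra q
    exact uq m m1 m2 (by rw [col_diff o.anc dm q, col_diff o.anc (T.real v hv) p, m3])
  have := pth m m1 q
  exact .inl ⟨m, this.1, this.2.1, q.2, m1, .inr (by
    rw [← m3, col_base o.anc.mem.1 dm fun e => by have := e.le; omega])⟩

/-- A tail off a prober that is unique at the head sees the colour of the head again. -/
theorem probe_sees (h : IsB T) (vd : v ∉ T.Dm) (vu : G.Adj v u) (hb : b ∈ T.R) (pb : u ∈ T.O b)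
    (vb : v ≠ b) (k : ¬ G.Adj b v) (uq : Uq G (T.col b) u v) : ¬ Uq G (T.col b) v u := fun p =>
  h.swap_tr hb vd (O_real hb pb) vb (T.O_adj b hb u pb).ne.symm k p uq vu (h.uq_O hb pb)

/-- N1, one tail: a prober `b` of `u` and a tail `v → u` that is unique at `u` in `s(b)`. -/
theorem n1_tail (h : IsB T) (hv : v ∈ T.R) (hu : u ∈ T.O v) (cu : T.col v u = T.c u)
    (hb : b ∈ T.R) (pb : u ∈ T.O b) (nu : ¬ T.Anc u b) (vb : v ≠ b) (uq : Uq G (T.col b) u v) :
    G.Adj b v ∨ T.Pay v u b ∨ (∃ a x m, T.Op2 v u b a x ∧ T.Anc x m ∧ x ≠ m ∧ T.Anc m b ∧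
      G.Adj u m ∧ (m = v ∨ T.c m = T.col a v)) ∨
      ∃ a x, T.Op2 v u b a x ∧ T.Shw a u (T.col a v) := by
  by_cases k : G.Adj b v
  · exact .inl k
  have s := h.probe_sees (T.real v hv) (T.O_adj v hv u hu) hb pb vb k uq
  simp only [Uq, not_forall, not_not] at s
  obtain ⟨m, m1, m2, m3⟩ := s
  exact .inr ((high2 hv hu hb m1 m2 (by rw [m3, cu, col_base hb (O_real hv hu) nu])).imp_right
    fun ⟨a, x, o⟩ => (h.op_slot hv hu cu nu o uq).imp (fun ⟨m, p⟩ => ⟨a, x, m, o, p⟩)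
      fun p => ⟨a, x, o, p⟩)

/-- N1: a prober `b` of `u` with the parent of `u` off its path and off its neighbourhood. -/
theorem n1 (h : IsB T) (hu : u ∈ T.R) (ur : u ≠ T.r) (po : u ∈ T.O (T.p u)) (hb : b ∈ T.R)
    (pb : u ∈ T.O b) (ns : T.NS b u) (n : ¬ T.Anc (T.p u) b) (na : ¬ G.Adj b (T.p u)) :
    T.Pay (T.p u) u b ∨ (∃ a x, T.Op2 (T.p u) u b a x) ∨ (¬ Uq G (T.col b) u (T.p u) ∧
      ∀ w, G.Adj u w → T.col b w ≤ D → T.col b w ≠ T.col b (T.p u) → Uq G (T.col b) u w) := by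
  have hq := T.p_mem u hu ur
  have qu := h.adj_par hu ur po
  have ud := T.real u hu
  have nu : ¬ T.Anc u b := fun p => n ((anc_p hu ur).trans p)
  have bu := T.O_adj b hb u pb
  by_cases k : Uq G (T.col b) u (T.p u)
  · have s : ¬ Uq G (T.col b) (T.p u) u := fun p => h.swap_tr hb (T.real _ hq) ud
      (fun e => n (e ▸ .refl _ hq)) bu.ne.symm na p k qu (h.uq_O hb pb)
    simp only [Uq, not_forall, not_not] at s
    obtain ⟨m, m1, m2, m3⟩ := s
    exact (high2 hq po hb m1 m2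
      (by rw [m3, col_p_self hu ur, col_base hb ud nu])).imp_right .inl
  refine .inr (.inr ⟨k, fun w p l q m m1 m2 m3 => ?_⟩)
  simp only [Uq, not_forall, not_not] at k
  obtain ⟨e, e1, e2, e3⟩ := k
  rcases (h.hc1 hb).dbl_nb2 (h.dg ud ns _) bu.symm (T.lt b hb u pb) (h.probe_tight hb pb)
    qu.symm e1 p m1 (Ne.symm e2) (Ne.symm m2) e3.symm m3.symm (col_le hb (T.real _ hq)) l with r | r
  exacts [q (by rw [r]), q (by rw [r, e3])]

/-- A receiver: `r` sees the colour of `x` outside `K` and is tight up to the colour of `y`. -/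
def _root_.Pool.Agent.Lib.MP_12eaff_co.Frz.Acc2.Rcv (G : SimpleGraph V) (D : ℕ) (f : V → ℕ)
    (K : Finset V) (x y z r : V) : Prop := Sees G K f r (f x) ∧
  ∀ κ < D, κ ≠ f r → (∃ m, G.Adj r m ∧ f m = κ) ∨ κ = f y ∧ G.Adj r z

/-- PAIR, state form: the hole runs `z → y → x` and enters the clique `K` at `x`. -/
theorem _root_.Pool.Agent.Lib.MP_12eaff_co.Frz.Acc2.HC.pair_st
    {f : V → ℕ} (h : HC G D F z f) (hd : F.Dg G D x) (hS : K ⊆ F.S) (sy : y ∈ F.S)
    (hK : IsClq G K) (hx : x ∈ K) (zy : G.Adj z y)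
    (pz : Uq G f z y) (a : G.Adj y x) (yK : y ∉ K) (xz : x ≠ z) (uq : Uq G f y x) :
    (∀ κ < D, κ ≠ f x → ∃ m, G.Adj x m ∧ f m = κ) ∧ ∃ r0,
      (r0 ∈ K → r0 ≠ x → r0 ≠ z → ∀ w ∈ K, w ≠ r0 → ∃ m, G.Adj w m ∧ m ∉ K ∧
        (m = z ∧ f r0 = f y ∨ m ≠ y ∧ f m = f r0)) ∧
      ∀ r ∈ K, r ≠ x → r ≠ r0 → ¬ G.Adj y r → Rcv G D f K x y z r := by
  have s := h.shift sy zy.ne.symm pz
  have sx : shift D f z y x = f x := shift_o a.ne.symm xz
  have rc : ∀ r ∈ K, ¬ G.Adj y r → (G.Adj r y ∨ Sees G K (shift D f z y) r (shift D f z y x)) ∧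
      (∀ γ ∈ Abs D (shift D f z y) K, Sees G K (shift D f z y) r γ) → Rcv G D f K x y z r :=
    fun r k n p => by
      obtain ⟨m, m1, m2, m3⟩ := p.1.resolve_left fun e => n e.symm
      have mz : m ≠ z := fun e => h.ne a (by rw [← sx, ← m3, e, shift_l zy.ne])
      rw [sx, shift_o (fun e : m = y => n (e ▸ m1.symm)) mz] at m3
      refine ⟨⟨m, m1, m2, m3⟩, fun κ l q => ?_⟩
      have : ∃ m, G.Adj r m ∧ shift D f z y m = κ := by
        by_cases e : κ ∈ Abs D (shift D f z y) K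
        · exact (p.2 κ e).imp fun _ e => ⟨e.1, e.2.2⟩
        simp only [mem_Abs, l, true_and, not_forall, not_not] at e
        obtain ⟨w, w1, w2⟩ := e
        exact ⟨w, hK r k w w1 fun e => q (by
          rw [← w2, ← e, shift_o (fun e : r = y => yK (e ▸ k)) fun e => n (e ▸ zy.symm)]), w2⟩
      obtain ⟨m, m1, m2⟩ := this
      by_cases e : m = z
      · exact .inr ⟨by rw [← m2, e, shift_l zy.ne], e ▸ m1⟩
      · exact .inl ⟨m, m1, by rw [← m2, shift_o (fun e : m = y => n (e ▸ m1.symm)) e]⟩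
  refine ⟨fun κ k n => ?_, ?_⟩
  · obtain ⟨m, m1, -, m3 | m3⟩ := (h.two_shift sy (hS hx) zy.ne.symm xz pz uq a).2 κ k n
    exacts [⟨y, a.symm, m3.2.symm⟩, ⟨m, m1, m3.2⟩]
  rcases s.entry hd hS hK yK hx (fun m p q => by
      rw [sx]
      by_cases e : m = z
      · rw [e, shift_l zy.ne]
        exact h.ne a
      · rw [shift_o p.ne.symm e]
        exact uq m p q) with p | ⟨r0, r1, r2, p⟩
  · exact ⟨x, fun _ e => absurd rfl e, fun r k _ _ n => rc r k n (p r k)⟩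
  refine ⟨r0, fun _ _ rz w k n => ?_, fun r k _ e n => rc r k n (p r k e).2⟩
  obtain ⟨m, m1, m2, m3⟩ := (p w k n).1
  rw [shift_o (fun e : r0 = y => yK (e ▸ r1)) rz] at m3
  by_cases e : m = z
  · exact ⟨m, m1, m2, .inl ⟨e, by rw [← m3, e, shift_l zy.ne]⟩⟩
  have my : m ≠ y := s.ne_hole (m3 ▸ h.lt r0 (hS r1) rz)
  exact ⟨m, m1, m2, .inr ⟨my, by rw [← m3, shift_o my e]⟩⟩

/-- A receiver has a unit or an open witness. -/
theorem rcv_pay {r : V} (hx : x ∈ K) (hr : r ∈ T.R) (ho : x ∈ T.O r) (cx : T.col r x = T.c x)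
    (hz : z ∈ T.R) (nx : ¬ T.Anc x z) (p : Sees G K (T.col z) r (T.col z x)) :
    T.Pay r x z ∨ ∃ a a', T.Op2 r x z a a' :=
  let ⟨_, m1, m2, m3⟩ := p
  high2 hr ho hz m1 (fun e => m2 (e ▸ hx)) (by rw [m3, cx, col_base hz (O_real hr ho) nx])

/-- Two open witnesses in the window leave room for one moved neighbour only. -/
theorem window {a' p p' m m' : V} (o : p ∈ T.ch a) (o' : p' ∈ T.ch a')
    (z1 : T.Anc p z) (z2 : T.Anc p' z) (c : T.c p = T.c p') (ne : a ≠ a')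
    (d1 : T.d x ≤ T.d a + 2) (d2 : T.d x ≤ T.d a' + 2) (dz : T.d z ≤ T.d x + 2)
    (n1 : ¬ G.Adj x a) (n2 : ¬ G.Adj x p) (n3 : ¬ G.Adj x a') (n4 : ¬ G.Adj x p')
    (m1 : G.Adj x m) (m2 : T.Anc m z) (m3 : T.d x ≤ T.d m + 2)
    (k1 : G.Adj x m') (k2 : T.Anc m' z) (k3 : T.d x ≤ T.d m' + 2) : m = m' := by
  have eq : ∀ {s t}, T.Anc s z → T.Anc t z → s ≠ t → T.d s ≠ T.d t := fun p q r e =>
    r ((p.comp q e.le).eq_of_d e.ge)
  have az := (anc_ch o).trans z1
  have az' := (anc_ch o').trans z2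
  have := d_ch o
  have := d_ch o'
  have := eq az az' ne
  have := eq z1 z2 fun e => ne (by rw [← (T.mem_ch.1 o).2.2, ← (T.mem_ch.1 o').2.2, e])
  have := eq z1 az' fun e => c_ch_ne (e ▸ o') (T.mem_ch.1 o).2.1 c.symm
  have := eq z2 az fun e => c_ch_ne (e ▸ o) (T.mem_ch.1 o').2.1 c
  have := eq m2 az fun e => n1 (e ▸ m1)
  have := eq m2 z1 fun e => n2 (e ▸ m1)
  have := eq m2 az' fun e => n3 (e ▸ m1)
  have := eq m2 z2 fun e => n4 (e ▸ m1)
  have := eq k2 az fun e => n1 (e ▸ k1)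
  have := eq k2 z1 fun e => n2 (e ▸ k1)
  have := eq k2 az' fun e => n3 (e ▸ k1)
  have := eq k2 z2 fun e => n4 (e ▸ k1)
  have := z1.le
  have := z2.le
  have := m2.le
  have := k2.le
  by_contra e
  have := eq m2 k2 e
  omega

/-- PAIR for four receivers: one of them has no open witness. -/
theorem pair4 (h : IsB T) (hK : IsClq G K) (hx : x ∈ K)
    (tl : ∀ r ∈ K, r ≠ x → r ∈ T.R ∧ x ∈ T.O r ∧ T.col r x = T.c x) (hz : z ∈ T.R)
    (pz : y ∈ T.O z) (a : G.Adj y x) (yK : y ∉ K) (nx : ¬ T.Anc x z)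
    (uq : Uq G (T.col z) y x) (dz : T.d z ≤ T.d x + 2) {N : Finset V} (hN : N ⊆ K.erase x)
    (ny : ∀ r ∈ N, ¬ G.Adj y r) (c4 : 4 ≤ N.card) (ns : ∀ a, T.Anc a z → T.NS a x) :
    (∃ r ∈ N, Rcv G D (T.col z) K x y z r ∧ ¬ ∃ a a', T.Op2 r x z a a') ∨
      ∃ r ∈ N, ∃ a a', T.Op2 r x z a a' ∧ T.Shw a x (T.col a r) := by
  refine or_iff_not_imp_right.2 fun np => ?_
  by_contra no
  simp only [not_exists, not_and, not_forall, not_not] at no np
  have xz : x ≠ z := fun e => nx (e ▸ .refl _ (e ▸ hz))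
  have zy := T.O_adj z hz y pz
  have mN : ∀ r ∈ N, r ∈ K ∧ r ≠ x ∧ G.Adj x r := fun r k =>
    have := mem_erase.1 (hN k)
    ⟨this.2, this.1, hK x hx r this.2 this.1.symm⟩
  have xd : x ∉ T.Dm := by
    obtain ⟨r, k⟩ := card_pos.1 (show 0 < N.card by omega)
    exact O_real (tl r (mN r k).1 (mN r k).2.1).1 (tl r (mN r k).1 (mN r k).2.1).2.1
  have rK : ∀ r ∈ K, r ∉ T.Dm := fun r k => by
    by_cases e : r = x
    exacts [e ▸ xd, T.real r (tl r k e).1]
  have rN : ∀ r ∈ N, r ∉ T.Dm := fun r k => rK r (mN r k).1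
  have h0 := h.hc hz (S := insert z (insert y K)) (by simp) (by
    simpa using ⟨T.real z hz, O_real hz pz, rK⟩) (Cov.clqe hK zy)
  obtain ⟨tz, r0, e1, e2⟩ := h0.pair_st (h.dg xd (ns z (.refl z hz)) _)
    ((subset_insert _ _).trans (subset_insert _ _)) (by simp) hK hx zy (h.uq_O hz pz) a yK xz uq
  have cn : ∀ s ∈ T.R, ∀ r ∈ N, ∀ r' ∈ N, r ≠ r' → T.col s r ≠ T.col s r' :=
    fun s p r q r' q' n => T.prop s p _ _ (hK r (mN r q).1 r' (mN r' q').1 n)
  have op : ∀ r, ∃ a a', r ∈ N → r ≠ r0 → T.Op2 r x z a a' := fun r => by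
    by_cases k : r ∈ N ∧ r ≠ r0
    · obtain ⟨a, a', o⟩ := no r k.1 (e2 r (mN r k.1).1 (mN r k.1).2.1 k.2 (ny r k.1))
      exact ⟨a, a', fun _ _ => o⟩
    · exact ⟨r, r, fun p q => absurd ⟨p, q⟩ k⟩
  choose A B op using op
  have ti := fun r (p : r ∈ N) (q : r ≠ r0) =>
    have t := tl r (mN r p).1 (mN r p).2.1
    h.op_tight t.1 t.2.1 t.2.2 nx (op r p q)
  have dA : ∀ r ∈ N, r ≠ r0 → T.d x ≤ T.d (A r) + 2 := fun r p q => by
    have t := tl r (mN r p).1 (mN r p).2.1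
    have := (op r p q).dep
    have := (T.clo r t.1 x t.2.1).2
    omega
  have lx : T.col z x < D := T.full z hz x xd xz
  -- two different witnesses
  obtain ⟨r1, p1, q1, r2, p2, q2, ne⟩ : ∃ r1 ∈ N, r1 ≠ r0 ∧ ∃ r2 ∈ N, r2 ≠ r0 ∧ A r1 ≠ A r2 := by
    by_contra! k
    have := pred_card_le_card_erase (s := N) (a := r0)
    obtain ⟨s, t, u, s1, t1, u1, st, su, tu⟩ := two_lt_card_iff.1 (show 2 < (N.erase r0).card by omega)
    rw [mem_erase] at s1 t1 u1
    have aR := (op s s1.2 s1.1).anc.mem.1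
    obtain ⟨-, -, c1, c2, c3⟩ := ti s s1.2 s1.1
    exact (h.hc1 aR).three_dbl (h.dg xd (ns _ (op s s1.2 s1.1).anc) _)
      (by rw [c1, ← col_base hz xd nx]; exact lx)
      (fun κ p q => (c3 κ p q).imp fun _ e => ⟨e.1, e.2.2⟩) (mN s s1.2).2.2 (mN t t1.2).2.2
      (mN u u1.2).2.2 (cn _ aR s s1.2 t t1.2 st) (cn _ aR s s1.2 u u1.2 su)
      (cn _ aR t t1.2 u u1.2 tu) c2 (k s s1.2 s1.1 t t1.2 t1.1 ▸ (ti t t1.2 t1.1).2.2.2.1)
      (k s s1.2 s1.1 u u1.2 u1.1 ▸ (ti u u1.2 u1.1).2.2.2.1) (col_le aR (rN s s1.2))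
      (col_le aR (rN t t1.2)) (col_le aR (rN u u1.2))
  have one : ∀ m m', G.Adj x m → T.Anc m z → T.d x ≤ T.d m + 2 → G.Adj x m' → T.Anc m' z →
      T.d x ≤ T.d m' + 2 → m = m' := fun m m' =>
    window (op r1 p1 q1).1 (op r2 p2 q2).1 (op r1 p1 q1).2.1 (op r2 p2 q2).2.1 (by
      rw [(op r1 p1 q1).2.2.2.1, (op r2 p2 q2).2.2.2.1, (tl r1 (mN r1 p1).1 (mN r1 p1).2.1).2.2,
        (tl r2 (mN r2 p2).1 (mN r2 p2).2.1).2.2]) ne (dA r1 p1 q1) (dA r2 p2 q2) dz
      (ti r1 p1 q1).1 (ti r1 p1 q1).2.1 (ti r2 p2 q2).1 (ti r2 p2 q2).2.1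
  -- two receivers that are not doubled in the state of `z`
  have c2 : (N.filter fun r => ¬ Uq G (T.col z) x r).card ≤ 2 := by
    by_contra! k
    obtain ⟨s, t, u, s1, t1, u1, st, su, tu⟩ := two_lt_card_iff.1 k
    rw [mem_filter] at s1 t1 u1
    exact h0.three_dbl (h.dg xd (ns z (.refl z hz)) _) lx tz (mN s s1.1).2.2 (mN t t1.1).2.2 (mN u u1.1).2.2
      (cn _ hz s s1.1 t t1.1 st) (cn _ hz s s1.1 u u1.1 su) (cn _ hz t t1.1 u u1.1 tu)
      s1.2 t1.2 u1.2 (col_le hz (rN s s1.1)) (col_le hz (rN t t1.1)) (col_le hz (rN u u1.1))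
  have c3 := card_filter_add_card_filter_not (s := N) fun r => Uq G (T.col z) x r
  obtain ⟨s, s1, t, t1, st⟩ := one_lt_card.1
    (show 1 < (N.filter fun r => Uq G (T.col z) x r).card by omega)
  rw [mem_filter] at s1 t1
  have n0 : ∀ r ∈ N, Uq G (T.col z) x r → r ≠ r0 := fun r p q e => by
    obtain ⟨m, m1, m2, m3 | m3⟩ := e1 (e ▸ (mN r p).1) (e ▸ (mN r p).2.1)
      (fun k => ny r p (by rw [e, k]; exact zy.symm)) x hx (e ▸ (mN r p).2.1.symm)
    · exact q y a.symm (fun k => yK (k ▸ (mN r p).1)) (by rw [e, m3.2])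
    · exact q m m1 (fun k => m2 (k ▸ (mN r p).1)) (by rw [e, m3.2])
  have rw' : ∀ r ∈ N, r ≠ r0 →
      ∃ m, G.Adj x m ∧ m ∉ T.Dm ∧ m ≠ r ∧ T.col (A r) m = T.col (A r) r := fun r p q => by
    have k := (ti r p q).2.2.2.1
    simp only [Uq, not_forall, not_not] at k
    obtain ⟨m, m1, m2, m3⟩ := k
    exact ⟨m, m1, fun e => np r p _ _ (op r p q) ⟨m, e, m1, m3⟩, m2, m3⟩
  -- the moved neighbour lies below both witnesses
  have mv : ∀ r ∈ N, Uq G (T.col z) x r → ∃ b, G.Adj x b ∧ T.Anc (A r) b ∧ T.Anc b z :=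
    fun r p q => by
      by_contra! k
      have o := op r p (n0 r p q)
      obtain ⟨m, m1, m0, m2, m3⟩ := rw' r p (n0 r p q)
      rw [← col_diff o.anc m0 fun e => k m m1 e.1 e.2,
        ← col_diff o.anc (rN r p) fun e => k r (mN r p).2.2 e.1 e.2] at m3
      exact q m m1 m2 m3
  obtain ⟨b, b1, b2, b3⟩ := mv s s1.1 s1.2
  obtain ⟨b', b4, b5, b6⟩ := mv t t1.1 t1.2
  have s0 := n0 s s1.1 s1.2
  have t0 := n0 t t1.1 t1.2
  have ds := dA s s1.1 s0
  have dt := dA t t1.1 t0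
  obtain rfl : b' = b := one _ _ b4 b6 (by have := b5.le; omega) b1 b3 (by have := b2.le; omega)
  have ag : ∀ r ∈ N, r ≠ r0 → ∀ m, G.Adj x m → m ∉ T.Dm → m ≠ b' → T.col (A r) m = T.col z m :=
    fun r p q m m1 m0 m2 => (col_diff (op r p q).anc m0 fun e => m2 (one _ _ m1 e.2
      (by have := e.1.le; have := dA r p q; omega) b1 b3 (by have := b2.le; omega))).symm
  have bs : ∀ r ∈ N, r ≠ r0 → T.Anc (A r) b' → T.col (A r) b' = T.c b' := fun r p q k =>
    col_base k.mem.1 b3.real fun e => (ti r p q).1 (k.eq_of_d e.le ▸ b1)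
  have same : ∀ m, G.Adj x m → m ∉ T.Dm → T.col (A s) m = T.col (A t) m := fun m k m0 => by
    by_cases e : m = b'
    · rw [e, bs s s1.1 s0 b2, bs t t1.1 t0 b5]
    · rw [ag s s1.1 s0 m k m0 e, ag t t1.1 t0 m k m0 e]
  rcases persist (fun m => m ∉ T.Dm) (mN s s1.1).2.2 (mN t t1.1).2.2 (rN s s1.1) (rN t t1.1)
    (cn _ b2.mem.1 s s1.1 t t1.1 st) (ag s s1.1 s0) (rw' s s1.1 s0)
    ((rw' t t1.1 t0).imp fun m ⟨m1, m0, m2, m3⟩ => ⟨m1, m0, m2, by
      rw [same m m1 m0, same t (mN t t1.1).2.2 (rN t t1.1), m3]⟩) with k | k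
  exacts [k s1.2, k t1.2]

/-- EXIT: a tail adjacent to an exit off the parent is doubled there. -/
theorem exit_dbl2 {e : V} (h : IsB T) (hu : u ∈ T.R) (ho : e ∈ T.O u) (n : ¬ G.Adj (T.p u) e)
    (hw : w ∈ W T u) : ¬ Uq G (shift D (T.col u) u e) e w ∨ T.PW u u w := by
  refine or_iff_not_imp_right.2 fun np => ?_
  obtain ⟨a0, a1, a2, -⟩ := mem_W.1 hw
  have hq := T.p_mem u hu a1
  have a := T.O_adj u hu e ho
  have b := T.O_adj _ hq w a2
  have c := h.adj_par hu a1 (W_par hw)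
  have uq := h.uq_O hu ho
  have we : w ≠ e := fun z => n (z ▸ b)
  have qe : T.p u ≠ e := (O_ne_p hu ho).symm
  have s := (h.hcE hu (O_real hu ho) (T.real _ hq) (W_real hu hw) a b).shift (by simp) a.ne.symm uq
  refine s.swap_dbl2 (by simp) (by simp) qe we (fun z => n z.symm) (fun m x y => ?_)
    (fun m x y => ?_) b
  · rw [shift_o we a0.ne.symm]
    by_cases z : m = u
    · rw [z, shift_l a.ne]
      exact (uq w a0 we).symm
    rw [shift_o (fun z : m = e => n (z ▸ x)) z, W_col hu hw]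
    by_cases dm : m ∈ T.Dm
    · exact fun k => np ⟨u, .refl u hu, .refl u hu, .inl (port_of hq a2 x dm k)⟩
    · rw [col_step hu a1 dm z x.ne.symm]
      exact h.uq_O hq a2 m x y
  · by_cases z : m = u
    · exact z ▸ s.ne c.symm
    by_cases z' : m = e
    · rw [z', s.hole]
      exact (s.lt _ (by simp) qe).ne'
    rw [shift_o z' z, shift_o qe c.ne, col_par hu a1]
    by_cases dm : m ∈ T.Dm
    · exact fun k => np ⟨u, .refl u hu, .refl u hu, .inr ⟨m, dm, x, k⟩⟩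
    · rw [col_step hu a1 dm z y, ← col_p_self hu a1]
      exact W_uq hu hw m x z

/-- EXIT bound: an exit off the parent has at most one neighbour among the tails. -/
theorem exit_one2 {e w' : V} (h : IsB T) (hu : u ∈ T.R) (ho : e ∈ T.O u) (n : ¬ G.Adj (T.p u) e)
    (ns : T.NS (T.p u) u) (ne : T.NS u e)
    (hw : w ∈ W T u) (hw' : w' ∈ W T u) (a : G.Adj e w) (a' : G.Adj e w') :
    w = w' ∨ T.PW u u w ∨ T.PW u u w' := by
  have s := (h.hc2 hu (O_real hu ho)).shift (by simp) (T.O_adj u hu e ho).ne.symm (h.uq_O hu ho)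
  rcases h.exit_dbl2 hu ho n hw with s1 | s1
  swap
  · exact .inr (.inl s1)
  rcases h.exit_dbl2 hu ho n hw' with s2 | s2
  swap
  · exact .inr (.inr s2)
  simp only [Uq, not_forall, not_not] at s1 s2
  obtain ⟨m, m1, m2, m3⟩ := s1
  obtain ⟨m', n1, n2, n3⟩ := s2
  have l : ∀ w ∈ W T u, G.Adj e w → shift D (T.col u) u e w < D := fun w k a => by
    rw [shift_o a.ne.symm (mem_W.1 k).1.ne.symm]
    exact col_lt hu (W_mem hu k) (mem_W.1 k).1.ne.symm
  refine .inl (by_contra fun k => ?_)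
  rcases s.dbl2 (h.dg (O_real hu ho) ne _) a m1 a' n1 (Ne.symm m2) (Ne.symm n2) m3.symm n3.symm
    (l w hw a) (l w' hw' a') with z | z
  exacts [k z.symm, s.ne (h.W_adj hu ns hw hw' k) (by rw [z, m3])]

/-- PAIR-t for four tails: the parent or a tail off `N(y)` is a receiver that is not open. -/
theorem pair_t6 (h : IsB T) (hx : x ∈ T.R) (xr : x ≠ T.r) (hy : y ∈ T.O x)
    (ng : ¬ G.Adj (T.p x) y) (hz : z ∈ T.R) (pz : y ∈ T.O z) (nx : ¬ T.Anc x z)
    (uq : Uq G (T.col z) y x) (dz : T.d z ≤ T.d x + 2) {Z : Finset V}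
    (hZ : ∀ w ∈ Z, w ∈ W T x ∧ x ∈ T.O w) (c4 : 4 ≤ Z.card) (np : T.NS (T.p x) x) (ny' : T.NS x y)
    (ns : ∀ a, T.Anc a z → T.NS a x) :
    (∃ r ∈ insert (T.p x) Z, ¬ G.Adj y r ∧ Rcv G D (T.col z) (insert (T.p x) (insert x Z)) x y z r ∧
      (¬ ∃ a a', T.Op2 r x z a a') ∧ T.Pay r x z) ∨ (∃ w ∈ Z, T.PW x x w) ∨
      ∃ r ∈ insert (T.p x) Z, ¬ G.Adj y r ∧ ∃ a a', T.Op2 r x z a a' ∧ T.Shw a x (T.col a r) := by
  by_cases pw : ∃ w ∈ Z, T.PW x x w
  · exact .inr (.inl pw)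
  have po : x ∈ T.O (T.p x) := by
    obtain ⟨w, k⟩ := card_pos.1 (show 0 < Z.card by omega)
    exact W_par (hZ w k).1
  have hq := T.p_mem x hx xr
  have xy := T.O_adj x hx y hy
  have aq : ∀ w ∈ Z, G.Adj (T.p x) w := fun w k => T.O_adj _ hq w (mem_W.1 (hZ w k).1).2.2.1
  have cl : IsClq G (insert (T.p x) (insert x Z)) := fun a p b q => (h.W_clq hx xr po np).1 a
    (insert_subset_insert _ (insert_subset_insert _ fun w k => (hZ w k).1) p) b
    (insert_subset_insert _ (insert_subset_insert _ fun w k => (hZ w k).1) q)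
  have c1 : (Z.filter fun w => G.Adj y w).card ≤ 1 := card_le_one.2 fun a p b q =>
    (h.exit_one2 hx hy ng np ny' (hZ a (mem_filter.1 p).1).1 (hZ b (mem_filter.1 q).1).1
      (mem_filter.1 p).2 (mem_filter.1 q).2).resolve_right fun k =>
        k.elim (fun k => pw ⟨a, (mem_filter.1 p).1, k⟩) fun k => pw ⟨b, (mem_filter.1 q).1, k⟩
  have c2 := card_filter_add_card_filter_not (s := Z) fun w => G.Adj y w
  have tl : ∀ r ∈ insert (T.p x) (insert x Z), r ≠ x → r ∈ T.R ∧ x ∈ T.O r ∧ T.col r x = T.c x :=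
    fun r p q => by
      simp only [mem_insert, q, false_or] at p
      rcases p with rfl | p
      exacts [⟨hq, po, col_p_self hx xr⟩,
        ⟨W_mem hx (hZ r p).1, (hZ r p).2, (mem_W.1 (hZ r p).1).2.2.2.1⟩]
  have sb : insert (T.p x) (Z.filter fun w => ¬ G.Adj y w) ⊆
      (insert (T.p x) (insert x Z)).erase x := fun r p => by
    rcases mem_insert.1 p with rfl | p
    · simp [p_ne hx xr]
    · simp [(mem_filter.1 p).1, (mem_W.1 (hZ r (mem_filter.1 p).1).1).1.ne.symm]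
  have ny : ∀ r ∈ insert (T.p x) (Z.filter fun w => ¬ G.Adj y w), ¬ G.Adj y r := fun r p => by
    rcases mem_insert.1 p with rfl | p
    exacts [fun k => ng k.symm, (mem_filter.1 p).2]
  rcases h.pair4 cl (by simp) tl hz pz xy.symm (by
      simp only [mem_insert, not_or]
      exact ⟨O_ne_p hx hy, xy.ne.symm, fun k => ng (aq y k)⟩) nx uq dz sb ny (by
      rw [card_insert_of_notMem fun k => (aq _ (mem_filter.1 k).1).ne rfl]
      omega) ns with ⟨r, r1, r2, r3⟩ | ⟨r, r1, r2⟩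
  swap
  · exact .inr (.inr ⟨r, insert_subset_insert _ (filter_subset _ _) r1, ny r r1, r2⟩)
  have t := tl r (mem_erase.1 (sb r1)).2 (mem_erase.1 (sb r1)).1
  exact .inl ⟨r, insert_subset_insert _ (filter_subset _ _) r1, ny r r1, r2, r3,
    (rcv_pay (by simp) t.1 t.2.1 t.2.2 hz nx r2.1).resolve_right r3⟩

end IsB

/-- An open witness in the sense of `high`. -/
theorem Tr.Opn.op2 {T : Tr G D} {v u y a x : V} (o : T.Opn v u y a x) (n : ¬ T.PayT v u) :
    T.Op2 v u y a x :=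
  ⟨o.1, o.2.1, o.2.2.1, o.2.2.2.1, .inl o.2.2.2.2.1, fun m p q =>
    o.2.2.2.2.2.2 m p q fun r => absurd r n⟩

/-- P2, state form: both doubled neighbours of the hole `q` and `w` can take the colour of `u`. -/
theorem HC.p2_same {f : V → ℕ} {q u v v2 w : V} (h : HC G D F q f) (dq : F.Dg G D q)
    (du : F.Dg G D u) (hS : {q, u, v, v2, w} ⊆ F.S) (qu : G.Adj q u) (qv : G.Adj q v) (qv2 : G.Adj q v2)
    (qw : G.Adj q w) (uv : G.Adj u v) (uv2 : G.Adj u v2) (uw : G.Adj u w) (ne : v ≠ v2)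
    (c : f v = f v2) (wv : w ≠ v) (wv2 : w ≠ v2) (h1 : Uq G f v u) (h2 : Uq G f v2 u)
    (h3 : Uq G f w u) : G.Adj v w ∨ G.Adj v2 w := by
  by_contra! k
  have lu := h.lt u (hS (by simp)) qu.ne.symm
  have lv := h.lt v (hS (by simp)) qv.ne.symm
  have lw := h.lt w (hS (by simp)) qw.ne.symm
  have uq := h.double dq qv qv2 ne c lv qu lu uv.ne uv2.ne
  have wq := h.double dq qv qv2 ne c lv qw lw wv wv2
  have s := h.shift (hS (by simp)) qu.ne.symm uq
  have us := s.double du uv uv2 ne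
    (by rw [shift_o uv.ne.symm qv.ne.symm, shift_o uv2.ne.symm qv2.ne.symm, c])
    (by rwa [shift_o uv.ne.symm qv.ne.symm]) uw (by rwa [shift_o uw.ne.symm qw.ne.symm]) wv wv2
  have nv : ¬ G.Adj v v2 := fun p => h.ne p c
  have := h.ne uw
  have := h.ne uv
  have := wq v qv wv.symm
  have := qu.ne
  have := qv.ne
  have := qv2.ne
  have := qw.ne
  have := uv.ne
  have := uv2.ne
  have := uw.ne
  refine h.fill (K := {q, u, v, v2, w}) hS (by simp)
    (fun m => if m = q then f v else if m = u then f w else f u) (fun m _ => ?_)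
    (fun m p ⟨e, e1, e2, e3⟩ => ?_) fun a p b p' e => ?_
  · split_ifs
    exacts [lv, lw, lu]
  · simp only [mem_insert, mem_singleton, not_or] at p e2
    rcases p with rfl | rfl | rfl | rfl | rfl
    · have e4 : f e = f v := by simpa using e3
      exact h.double dq qv qv2 ne c lv e1 (e4 ▸ lv) e2.2.2.1 e2.2.2.2.1 v qv (Ne.symm e2.2.2.1)
        e4.symm
    · refine us e e1 e2.2.2.2.2 ?_
      rw [shift_o e2.2.1 e2.1, shift_o uw.ne.symm qw.ne.symm]
      simpa [qu.ne.symm] using e3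
    · exact h1 e e1 e2.2.1 (by simpa [qv.ne.symm, uv.ne.symm] using e3)
    · exact h2 e e1 e2.2.1 (by simpa [qv2.ne.symm, uv2.ne.symm] using e3)
    · exact h3 e e1 e2.2.1 (by simpa [qw.ne.symm, uw.ne.symm] using e3)
  · have := e.symm
    have := e.ne
    simp only [mem_insert, mem_singleton] at p p'
    grind

end Pool.Agent.Lib.MP_12eaff_co.Frz.Acc2
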