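import Pool.Agent.Lib.MP_12eaff_co.Frz.Acc2.Defs

set_option autoImplicit false
set_option linter.unusedSectionVars false

namespace Pool.Agent.Lib.MP_12eaff_co.Frz.Acc2

open Finset Pool.Agent.Lib.MP_12eaff_co.Frz.BK
open scoped Classical

variable {V : Type} [Fintype V]

/-- Data of a search: arcs `A` with lengths `w`, successor states, clusters `mb` (they may
overlap; `cl u` is the cluster that protects `u`), eligibility `E` (state and depth of the owner,
state and depth of the adopter, target) and priorities `pf`. -/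
structure Srch (V St ι : Type) where
  A : St → Finset V
  w : St → V → ℕ
  nx : St → V → St
  mb : ι → V → Prop
  cl : V → ι
  E : St → ℕ → St → ℕ → V → Prop
  pf : V → V → ℕ
  w_pos : ∀ s u, 0 < w s u
  mb_cl : ∀ u, mb (cl u) u

variable {St ι : Type}

/-- Growing tree with an owner `q i` (first vertex) for every cluster. -/
structure PO (M : Srch V St ι) (r : V) (s0 : St) where
  R : Finset V
  st : V → St
  p : V → V
  d : V → ℕ
  q : ι → V
  r_mem : r ∈ R
  st_r : st r = s0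
  d_r : d r = 0
  p_r : p r = r
  par : ∀ v ∈ R, v ≠ r → p v ∈ R ∧ d v = d (p v) + M.w (st (p v)) v ∧ v ∈ M.A (st (p v)) ∧
    st v = M.nx (st (p v)) v
  own : ∀ i, ∀ x ∈ R, M.mb i x → q i ∈ R ∧ M.mb i (q i) ∧ d (q i) ≤ d x
  el : ∀ x ∈ R, x ≠ r → x = q (M.cl x) ∨
    M.E (st (q (M.cl x))) (d (q (M.cl x))) (st (p x)) (d (p x)) x
  hI : ∀ v ∈ R, ∀ u ∈ M.A (st v), u ∈ R →
    M.E (st (q (M.cl u))) (d (q (M.cl u))) (st v) (d v) u → d u ≤ d v + M.w (st v) u
  hK : ∀ v ∈ R, ∀ u ∈ M.A (st v), ∀ x ∈ R, M.mb (M.cl u) x → d (q (M.cl u)) ≤ d v + M.w (st v) u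
  hP : ∀ x ∈ R, ∀ v ∈ R, x ∈ M.A (st v) → d v + M.w (st v) x = d x →
    (x = q (M.cl x) ∨ M.E (st (q (M.cl x))) (d (q (M.cl x))) (st v) (d v) x) →
    M.pf (p x) x ≤ M.pf v x
  hJ : ∀ y ∈ R, ∀ v ∈ R, ∀ u ∈ M.A (st v), u ∉ R → ((∀ x ∈ R, ¬ M.mb (M.cl u) x) ∨
    M.E (st (q (M.cl u))) (d (q (M.cl u))) (st v) (d v) u) → d y ≤ d v + M.w (st v) u

variable {M : Srch V St ι} {r : V} {s0 : St}

/-- Eligible adoptions. -/
def PO.El (P : PO M r s0) (v u : V) : Prop := v ∈ P.R ∧ u ∈ M.A (P.st v) ∧ u ∉ P.R ∧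
  ((∀ x ∈ P.R, ¬ M.mb (M.cl u) x) ∨
    M.E (P.st (P.q (M.cl u))) (P.d (P.q (M.cl u))) (P.st v) (P.d v) u)

theorem PO.grow (P : PO M r s0) (h : ∃ v u, P.El v u) :
    ∃ Q : PO M r s0, Q.R.card = P.R.card + 1 := by
  obtain ⟨⟨v, u⟩, hv0, hmin⟩ := exists_min_image (univ.filter fun z : V × V => P.El z.1 z.2)
    (fun z => toLex (P.d z.1 + M.w (P.st z.1) z.2, M.pf z.1 z.2))
    (by obtain ⟨v, u, h⟩ := h; exact ⟨(v, u), mem_filter.2 ⟨mem_univ _, h⟩⟩)
  obtain ⟨hv, hu, huR, he⟩ := (mem_filter.1 hv0).2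
  dsimp only at hv hu huR he
  set n := P.d v + M.w (P.st v) u with hn
  have hm : ∀ x y, P.El x y → n < P.d x + M.w (P.st x) y ∨
      n = P.d x + M.w (P.st x) y ∧ M.pf v u ≤ M.pf x y :=
    fun x y h => Prod.Lex.toLex_le_toLex.1 (hmin (x, y) (mem_filter.2 ⟨mem_univ _, h⟩))
  have hm' : ∀ x y, P.El x y → n ≤ P.d x + M.w (P.st x) y := fun x y h => by
    have := hm x y h
    omega
  have hne : ∀ x ∈ P.R, x ≠ u := fun x hx e => huR (e ▸ hx)
  have hJv : ∀ y ∈ P.R, P.d y ≤ n := fun y hy => P.hJ y hy v hv u hu huR he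
  set q' : ι → V := fun i => if ∃ x ∈ P.R, M.mb i x then P.q i else u with hq'
  have old : ∀ i, (∃ x ∈ P.R, M.mb i x) → q' i = P.q i ∧ P.q i ∈ P.R :=
    fun i k => ⟨if_pos k, let ⟨x, a, b⟩ := k; (P.own i x a b).1⟩
  have new : ∀ i, (¬ ∃ x ∈ P.R, M.mb i x) → q' i = u := fun i k => if_neg k
  have oc : ∀ x ∈ P.R, q' (M.cl x) = P.q (M.cl x) ∧ P.q (M.cl x) ∈ P.R :=
    fun x hx => old _ ⟨x, hx, M.mb_cl x⟩
  set d' := Function.update P.d u n with hd'
  set st' := Function.update P.st u (M.nx (P.st v) u) with hs'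
  have d1 : ∀ x ∈ P.R, d' x = P.d x := fun x hx => Function.update_of_ne (hne x hx) _ _
  have d2 : d' u = n := Function.update_self _ _ _
  have d3 : ∀ y ∈ insert u P.R, d' y ≤ n := fun y hy => by
    rcases mem_insert.1 hy with e | e
    · rw [e, d2]
    · rw [d1 y e]; exact hJv y e
  have s1 : ∀ x ∈ P.R, st' x = P.st x := fun x hx => Function.update_of_ne (hne x hx) _ _
  have p1 : ∀ x ∈ P.R, Function.update P.p u v x = P.p x :=
    fun x hx => Function.update_of_ne (hne x hx) _ _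
  have qm : ∀ i, q' i ∈ insert u P.R := fun i => by
    by_cases k : ∃ y ∈ P.R, M.mb i y
    · rw [(old i k).1]; exact mem_insert_of_mem (old i k).2
    · rw [new i k]; exact mem_insert_self _ _
  have tr : ∀ x ∈ P.R, ∀ y, y ∈ M.A (P.st x) → y ∉ P.R → ((∃ a ∈ P.R, M.mb (M.cl y) a) →
      M.E (st' (q' (M.cl y))) (d' (q' (M.cl y))) (P.st x) (P.d x) y) → P.El x y :=
    fun x hx y a b k => by
      refine ⟨hx, a, b, ?_⟩
      by_cases z : ∃ a ∈ P.R, M.mb (M.cl y) a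
      · have := k z
        rw [(old _ z).1, d1 _ (old _ z).2, s1 _ (old _ z).2] at this
        exact .inr this
      · exact .inl fun a p q => z ⟨a, p, q⟩
  refine ⟨⟨insert u P.R, st', Function.update P.p u v, d', q',
    mem_insert_of_mem P.r_mem, by rw [s1 _ P.r_mem, P.st_r], by rw [d1 _ P.r_mem, P.d_r],
    by rw [p1 _ P.r_mem, P.p_r], ?_, ?_, ?_, ?_, ?_, ?_, ?_⟩, card_insert_of_notMem huR⟩
  · intro x hx hr
    rcases mem_insert.1 hx with e | e
    · rw [e, Function.update_self, d2, d1 v hv, s1 v hv, hs', Function.update_self]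
      exact ⟨mem_insert_of_mem hv, rfl, hu, rfl⟩
    · obtain ⟨h1, h2, h3, h4⟩ := P.par x e hr
      rw [p1 x e, d1 x e, d1 _ h1, s1 _ h1, s1 x e]
      exact ⟨mem_insert_of_mem h1, h2, h3, h4⟩
  · intro i x hx hi
    refine ⟨qm i, ?_⟩
    by_cases k : ∃ y ∈ P.R, M.mb i y
    · rw [(old i k).1, d1 _ (old i k).2]
      obtain ⟨y, y1, y2⟩ := k
      refine ⟨(P.own i y y1 y2).2.1, ?_⟩
      rcases mem_insert.1 hx with e | e
      · rw [e, d2]; exact hJv _ (P.own i y y1 y2).1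
      · rw [d1 x e]; exact (P.own i x e hi).2.2
    · obtain rfl : x = u := (mem_insert.1 hx).resolve_right fun e => k ⟨x, e, hi⟩
      rw [new i k]; exact ⟨hi, le_rfl⟩
  · intro x hx hr
    rcases mem_insert.1 hx with e | e
    · subst e
      by_cases k : ∃ y ∈ P.R, M.mb (M.cl x) y
      · rw [(old _ k).1, d1 _ (old _ k).2, s1 _ (old _ k).2, Function.update_self, d1 v hv, s1 v hv]
        exact .inr (he.resolve_left fun z => let ⟨y, a, b⟩ := k; z y a b)
      · exact .inl (new _ k).symm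
    · rw [(oc x e).1, d1 _ (oc x e).2, s1 _ (oc x e).2, p1 x e, d1 _ (P.par x e hr).1,
        s1 _ (P.par x e hr).1]
      exact P.el x e hr
  · intro x hx y hy hyR k
    rcases mem_insert.1 hx with e | e
    · have := d3 y hyR
      rw [e, d2]; omega
    rw [s1 x e] at hy k ⊢
    rw [d1 x e] at k ⊢
    rcases mem_insert.1 hyR with e' | e'
    · subst e'
      rw [d2]
      exact hm' x y (tr x e y hy huR fun _ => k)
    · rw [(oc y e').1, d1 _ (oc y e').2, s1 _ (oc y e').2] at k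
      rw [d1 y e']
      exact P.hI x e y hy e' k
  · intro x hx y hy a ha k
    rcases mem_insert.1 hx with e | e
    · have := d3 _ (qm (M.cl y))
      rw [e, d2]; omega
    rw [s1 x e] at hy ⊢
    rw [d1 x e]
    by_cases z : ∃ a ∈ P.R, M.mb (M.cl y) a
    · rw [(old _ z).1, d1 _ (old _ z).2]
      obtain ⟨a', a1, a2⟩ := z
      exact P.hK x e y hy a' a1 a2
    · have := hm' x y (tr x e y hy (fun b => z ⟨y, b, M.mb_cl y⟩) fun b => absurd b z)
      have := d3 _ (qm (M.cl y))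
      omega
  · intro x hx y hy e2 e3 k
    rcases mem_insert.1 hy with e | e
    · have := d3 x hx
      have := M.w_pos (st' y) x
      rw [e, d2] at e3
      rw [e] at this
      omega
    rw [s1 y e] at e2 e3 k
    rw [d1 y e] at e3 k
    rcases mem_insert.1 hx with e' | e'
    · subst e'
      rw [d2] at e3
      rw [Function.update_self]
      have := hm y x (tr y e x e2 huR fun z =>
        k.resolve_left fun a => huR (a ▸ (old _ z).1 ▸ (old _ z).2))
      omega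
    · rw [p1 x e']
      rw [(oc x e').1, d1 _ (oc x e').2, s1 _ (oc x e').2] at k
      rw [d1 x e'] at e3
      exact P.hP x e' y e e2 e3 k
  · intro a ha x hx y hy hyR k
    have := d3 a ha
    rcases mem_insert.1 hx with e | e
    · rw [e, d2]; omega
    rw [s1 x e] at hy k ⊢
    rw [d1 x e] at k ⊢
    have := hm' x y (tr x e y hy (fun b => hyR (mem_insert_of_mem b)) fun ⟨b, b1, b2⟩ =>
      k.resolve_left fun z => z b (mem_insert_of_mem b1) b2)
    omega

theorem PO.closed (M : Srch V St ι) (r : V) (s0 : St) : ∃ P : PO M r s0, ∀ v u, ¬ P.El v u := by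
  have key : ∀ k, ∀ P : PO M r s0, Fintype.card V ≤ P.R.card + k →
      ∃ Q : PO M r s0, ∀ v u, ¬ Q.El v u := by
    intro k
    induction k with
    | zero =>
      intro P h
      have : P.R = univ := eq_univ_of_card _ (le_antisymm (card_le_univ _) h)
      exact ⟨P, fun v u e => e.2.2.1 (this ▸ mem_univ u)⟩
    | succ k ih =>
      intro P h
      by_cases hc : ∃ v u, P.El v u
      · obtain ⟨Q, hQ⟩ := P.grow hc
        exact ih Q (by omega)
      · push Not at hc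
        exact ⟨P, hc⟩
  by_cases hi : ∀ i, ∀ x ∈ ({r} : Finset V), M.mb i x → r ∈ ({r} : Finset V) ∧ M.mb i r ∧ 0 ≤ 0
  · refine key (Fintype.card V) ⟨{r}, fun _ => s0, fun _ => r, fun _ => 0, fun _ => r,
      mem_singleton_self r, rfl, rfl, rfl, ?_, hi, ?_, ?_, ?_, ?_, ?_⟩ (by omega)
    · intro v hv hr; exact absurd (mem_singleton.1 hv) hr
    · intro v hv hr; exact absurd (mem_singleton.1 hv) hr
    · intros; omega
    · intros; omega
    · intro x _ v _ _ e
      have := M.w_pos s0 x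
      omega
    · intros; omega
  · exact absurd (fun i x hx k => ⟨mem_singleton_self r, mem_singleton.1 hx ▸ k, le_rfl⟩) hi

/-- Selection rules: states with hole, parent, colouring, real shifts `O` and passages `X`
of length `wt`. -/
structure Rules (G : SimpleGraph V) (D : ℕ) (Dm : Finset V) (St : Type) where
  hole : St → V
  par : St → V
  f : St → V → ℕ
  O : St → Finset V
  X : St → Finset V
  wt : St → V → ℕ
  nx : St → V → St
  real : ∀ s, hole s ∉ Dm
  prop : ∀ s a b, G.Adj a b → f s a ≠ f s b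
  full : ∀ s m, m ∉ Dm → m ≠ hole s → f s m < D
  dm_ne : ∀ s, ∀ m ∈ Dm, f s m ≠ D
  wt3 : ∀ s u, 3 ≤ wt s u
  O_adj : ∀ s, ∀ u ∈ O s, G.Adj (hole s) u
  X_nadj : ∀ s, ∀ u ∈ X s, ¬ G.Adj (hole s) u
  uniq : ∀ s, ∀ u ∈ O s, ∀ m, G.Adj (hole s) m → m ≠ u → f s m ≠ f s u
  ne_p : ∀ s u, u ∈ O s ∨ u ∈ X s → f s u ≠ f s (par s)
  nx_hole : ∀ s u, u ∈ O s ∨ u ∈ X s → hole (nx s u) = u
  nx_par : ∀ s u, u ∈ O s ∨ u ∈ X s → par (nx s u) = hole s
  nx_f : ∀ s u, u ∈ O s ∨ u ∈ X s → ∀ m, m ∉ Dm → f (nx s u) m = shift D (f s) (hole s) u m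

variable {G : SimpleGraph V} {D : ℕ} {Dm : Finset V}

/-- Length of an arc. -/
noncomputable def Rules.len (M : Rules G D Dm St) (s : St) (u : V) : ℕ :=
  if u ∈ M.O s then 1 else M.wt s u

/-- Tree with ownership, passages and priorities: arcs into vertices that are missing or two
levels deeper are dropped. -/
theorem Rules.exists_own (M : Rules G D Dm St) {S2 : Finset V} (hS : S2 ⊆ Dm)
    (mb : ι → V → Prop) (cl : V → ι) (hcl : ∀ u, mb (cl u) u)
    (E : St → ℕ → St → ℕ → V → Prop) (pf : V → V → ℕ) (s0 : St)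
    (h1 : M.par s0 = M.hole s0) (h2 : M.f s0 (M.hole s0) = D) :
    ∃ (T : Tr G D) (st : V → St) (q : ι → V), T.Dm = Dm ∧ T.S2 = S2 ∧ T.r = M.hole s0 ∧
      st T.r = s0 ∧
      (∀ v ∈ T.R, M.hole (st v) = v ∧ M.par (st v) = T.p v ∧ M.f (st v) = T.col v ∧
        T.O v = (M.O (st v)).filter (fun u => u ∈ T.R ∧ T.d u ≤ T.d v + 1)) ∧
      (∀ v ∈ T.R, v ≠ T.r → st v = M.nx (st (T.p v)) v ∧
        (v ∈ M.O (st (T.p v)) ∨ v ∈ M.X (st (T.p v))) ∧
        T.d v = T.d (T.p v) + M.len (st (T.p v)) v ∧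
        (v = q (cl v) ∨ E (st (q (cl v))) (T.d (q (cl v))) (st (T.p v)) (T.d (T.p v)) v)) ∧
      (∀ i, ∀ x ∈ T.R, mb i x → q i ∈ T.R ∧ mb i (q i) ∧ T.d (q i) ≤ T.d x) ∧
      (∀ v ∈ T.R, ∀ u, u ∈ M.O (st v) ∨ u ∈ M.X (st v) → q (cl u) ∈ T.R ∧ mb (cl u) (q (cl u)) ∧
        T.d (q (cl u)) ≤ T.d v + M.len (st v) u ∧
        (E (st (q (cl u))) (T.d (q (cl u))) (st v) (T.d v) u →
          u ∈ T.R ∧ T.d u ≤ T.d v + M.len (st v) u)) ∧
      ∀ x ∈ T.R, ∀ v ∈ T.R, x ∈ M.O (st v) ∨ x ∈ M.X (st v) → T.d v + M.len (st v) x = T.d x →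
        (x = q (cl x) ∨ E (st (q (cl x))) (T.d (q (cl x))) (st v) (T.d v) x) →
        pf (T.p x) x ≤ pf v x := by
  have wp : ∀ s u, 0 < M.len s u := fun s u => by
    have := M.wt3 s u
    unfold Rules.len
    split_ifs <;> omega
  obtain ⟨P, hP⟩ := PO.closed
    (⟨fun s => M.O s ∪ M.X s, M.len, M.nx, mb, cl, E, pf, wp, hcl⟩ : Srch V St ι) (M.hole s0) s0
  have par := P.par
  dsimp only at par
  have hh : ∀ v ∈ P.R, M.hole (P.st v) = v := by
    intro v hv
    by_cases hr : v = M.hole s0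
    · rw [hr, P.st_r]
    · obtain ⟨_, _, h5, h6⟩ := par v hv hr
      rw [h6, M.nx_hole _ _ (mem_union.1 h5)]
  have hp : ∀ v ∈ P.R, M.par (P.st v) = P.p v := by
    intro v hv
    by_cases hr : v = M.hole s0
    · rw [hr, P.st_r, P.p_r, h1]
    · obtain ⟨h4, _, h5, h6⟩ := par v hv hr
      rw [h6, M.nx_par _ _ (mem_union.1 h5), hh _ h4]
  refine ⟨⟨P.R, M.hole s0, M.f s0, P.p, P.d, fun v => M.f (P.st v),
    fun v => (M.O (P.st v)).filter (fun u => u ∈ P.R ∧ P.d u ≤ P.d v + 1), Dm, S2, {univ},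
    fun _ _ => False,
    P.r_mem, P.d_r, P.p_r, h2, by simp only [P.st_r], fun v hv => hh v hv ▸ M.real _, hS,
    fun v _ => M.prop _, fun v hv m a b => M.full _ m a (by rwa [hh v hv]), fun v _ => M.dm_ne _,
    fun v hv hr => (par v hv hr).1, fun v hv hr => ?_, fun v hv hr k => ?_, ?_, ?_, ?_, ?_,
    fun v _ u hu => (mem_filter.1 hu).2⟩, P.st, P.q, rfl, rfl, rfl,
    P.st_r, fun v hv => ⟨hh v hv, hp v hv, rfl, rfl⟩,
    fun v hv hr => ⟨(par v hv hr).2.2.2, mem_union.1 (par v hv hr).2.2.1, (par v hv hr).2.1,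
      P.el v hv hr⟩, P.own, fun v hv u hu => ?_,
    fun x hx v hv a => P.hP x hx v hv (mem_union.2 a)⟩
  · have := (par v hv hr).2.1
    have := wp (P.st (P.p v)) v
    omega
  · obtain ⟨h4, h5, h6, _⟩ := par v hv hr
    have n : v ∉ M.O (P.st (P.p v)) := fun a =>
      k (mem_filter.2 ⟨a, hv, by rw [h5, Rules.len, if_pos a]⟩)
    have x := (mem_union.1 h6).resolve_left n
    have := M.wt3 (P.st (P.p v)) v
    refine ⟨hh _ h4 ▸ M.X_nadj _ v x, by rw [h5, Rules.len, if_neg n]; omega, ?_⟩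
    have := M.ne_p _ v (.inr x)
    rwa [hp _ h4] at this
  · intro v hv hr m md
    obtain ⟨h4, _, h5, h6⟩ := par v hv hr
    simp only [h6, M.nx_f _ _ (mem_union.1 h5) m md, hh _ h4]
  · intro v hv u hu
    have := M.O_adj _ u (mem_filter.1 hu).1
    rwa [hh v hv] at this
  · intro v hv u hu m hm
    exact M.uniq _ u (mem_filter.1 hu).1 m (by rwa [hh v hv])
  · intro v hv u hu
    have := M.ne_p _ u (.inl (mem_filter.1 hu).1)
    rwa [hp v hv] at this
  · obtain ⟨x, x1, x2⟩ : ∃ x ∈ P.R, mb (cl u) x := by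
      by_contra! k
      exact hP v u ⟨hv, mem_union.2 hu, fun a => k u a (hcl u), .inl k⟩
    have o := P.own _ x x1 x2
    refine ⟨o.1, o.2.1, P.hK v hv u (mem_union.2 hu) x x1 x2, fun k => ?_⟩
    have : u ∈ P.R := by
      by_contra a
      exact hP v u ⟨hv, mem_union.2 hu, a, .inr k⟩
    exact ⟨this, P.hI v hv u (mem_union.2 hu) this k⟩

end Pool.Agent.Lib.MP_12eaff_co.Frz.Acc2
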