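import Pool.Agent.Lib.MP_12eaff_co.Frz.Acc2.Pair
import Pool.Agent.Lib.MP_12eaff_co.Frz.Acc2.Sw
import Pool.Agent.Lib.MP_12eaff_co.Frz.Acc2.Ent

set_option autoImplicit false
set_option linter.unusedSectionVars false

namespace Pool.Agent.Lib.MP_12eaff_co.Frz.Acc2

open Finset Pool.Agent.Lib.MP_12eaff_co.Frz.BK
open scoped Classical

variable {V : Type} [Fintype V] {G : SimpleGraph V} {D : ℕ} {F : Fm V}

/-- `K` is a clique with `x` and `q`, and every other member can be exchanged with `q`. -/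
structure Hd (G : SimpleGraph V) (f : V → ℕ) (K : Finset V) (x q : V) : Prop where
  cl : IsClq G K
  hx : x ∈ K
  hq : q ∈ K
  ne : q ≠ x
  u : ∀ w ∈ K, w ≠ x → w ≠ q → Uq G f w q ∧ Uq G f q w

namespace HC

variable {f : V → ℕ} {a b q x y w w' w0 : V} {K : Finset V}

/-- A hole with four neighbours in a clique misses at most one member. -/
theorem hang4 (h : HC G D F b f) (db : F.Dg G D b)
    (hd : ∀ v ∈ K, F.Dg G D v) (hS : K ⊆ F.S) (hK : IsClq G K) (hb : b ∉ K)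
    (c4 : 4 ≤ (K.filter (G.Adj b)).card) (hw : w ∈ K) (hw' : w' ∈ K) (n : ¬ G.Adj b w)
    (n' : ¬ G.Adj b w') : w = w' := by
  have c1 : ((K.filter (G.Adj b)).filter fun z => ¬ Uq G f b z).card ≤ 1 :=
    card_le_one.2 fun s p t q => by
      simp only [mem_filter, Uq, not_forall, not_not] at p q
      obtain ⟨⟨p1, p2⟩, m, m1, m2, m3⟩ := p
      obtain ⟨⟨q1, q2⟩, m', n1, n2, n3⟩ := q
      rcases h.dbl2 db p2 m1 q2 n1 (Ne.symm m2) (Ne.symm n2) m3.symm n3.symm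
        (h.lt s (hS p1) p2.ne.symm) (h.lt t (hS q1) q2.ne.symm) with z | z
      exacts [z.symm, h.inj hK p1 q1 (by rw [z, m3])]
  have c2 := card_filter_add_card_filter_not (s := K.filter (G.Adj b)) fun z => Uq G f b z
  exact h.hanger hd hS hK hb (Z := (K.filter (G.Adj b)).filter fun z => Uq G f b z)
    ((filter_subset _ _).trans (filter_subset _ _)) (by omega)
    (fun z k => ⟨(mem_filter.1 (mem_filter.1 k).1).2, (mem_filter.1 k).2⟩) hw hw' n n'

/-- A neighbour of the old hole stays unique after the shift. -/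
theorem uq_shift (h : HC G D F x f) (uq : Uq G f x y) (xb : G.Adj x b) (ne : b ≠ y)
    (u : Uq G f a b) : Uq G (Acc2.shift D f x y) a b := fun m p q => by
  rw [shift_o ne xb.ne.symm]
  by_cases z : m = y
  · simpa [Acc2.shift, z] using (h.ne_D xb.ne.symm).symm
  by_cases z' : m = x
  · rw [z', shift_l (z' ▸ z)]
    exact (uq b xb ne).symm
  · rw [shift_o z z']
    exact u m p q

/-- The clique of a head with a tail is blocked by the absent colours only. -/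
theorem hd_abs (h : HC G D F x f) (k : Hd G f K x q) (dx : F.Dg G D x) (hS : K ⊆ F.S)
    (h0 : w0 ∈ K) (n1 : w0 ≠ x) (n2 : w0 ≠ q) : ∀ w ∈ K, ∀ γ ∈ Abs D f K, Sees G K f w γ :=
  (h.blocked dx hS k.cl k.hx).resolve_right fun ⟨r, r1, r2, r3⟩ => by
    by_cases e : r = q
    · obtain ⟨m, m1, m2, m3⟩ := (r3 w0 h0 (e ▸ n2)).1
      exact (k.u w0 h0 n1 n2).1 m m1 (fun z => m2 (z ▸ k.hq)) (e ▸ m3)
    · obtain ⟨m, m1, m2, m3⟩ := (r3 q k.hq (Ne.symm e)).1
      exact (k.u r r1 r2 e).2 m m1 (fun z => m2 (z ▸ r1)) m3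

/-- After the exit to `y`: if `y` misses one of `q`, `w`, the other one is doubled at `y`. -/
theorem hd_dbl (h : HC G D F x f) (k : Hd G f K x q) (hS : K ⊆ F.S) (sy : y ∈ F.S) (yK : y ∉ K)
    (xy : G.Adj x y) (uq : Uq G f x y) (hw : w ∈ K) (n1 : w ≠ x) (n2 : w ≠ q) :
    (¬ G.Adj y w → ¬ Uq G (Acc2.shift D f x y) y q) ∧
      (¬ G.Adj y q → ¬ Uq G (Acc2.shift D f x y) y w) := by
  have s := h.shift sy xy.ne.symm uq
  have wy : w ≠ y := fun e => yK (e ▸ hw)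
  have qy : q ≠ y := fun e => yK (e ▸ k.hq)
  have u1 := h.uq_shift uq (k.cl x k.hx q k.hq k.ne.symm) qy (k.u w hw n1 n2).1
  have u2 := h.uq_shift uq (k.cl x k.hx w hw n1.symm) wy (k.u w hw n1 n2).2
  have a := k.cl w hw q k.hq n2
  exact ⟨fun n => s.swap_dbl (hS hw) (hS k.hq) wy qy n u1 u2 a,
    fun n => s.swap_dbl (hS k.hq) (hS hw) qy wy n u2 u1 a.symm⟩

/-- General EXIT bound, state form. -/
theorem exit3 (h : HC G D F x f) (k : Hd G f K x q) (hS : K ⊆ F.S) (sy : y ∈ F.S) (yK : y ∉ K)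
    (xy : G.Adj x y) (uq : Uq G f x y) (dx : F.Dg G D x) (dy : F.Dg G D y)
    (n : ¬ G.Adj q y ∨ ∃ w0 ∈ K, ¬ G.Adj y w0 ∧ F.Dg G D w0) (hw : w ∈ (K.erase x).erase q)
    (hw' : w' ∈ (K.erase x).erase q) (a : G.Adj y w) (a' : G.Adj y w') : w = w' := by
  have s := h.shift sy xy.ne.symm uq
  have lt : ∀ v ∈ K, Acc2.shift D f x y v < D := fun v p => s.lt v (hS p) fun e => yK (e ▸ p)
  have cl := k.cl
  simp only [mem_erase] at hw hw'
  by_contra ne
  have ww := cl w hw.2.2 w' hw'.2.2 ne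
  by_cases g : G.Adj q y
  swap
  · have s1 := (h.hd_dbl k hS sy yK xy uq hw.2.2 hw.2.1 hw.1).2 fun e => g e.symm
    have s2 := (h.hd_dbl k hS sy yK xy uq hw'.2.2 hw'.2.1 hw'.1).2 fun e => g e.symm
    simp only [Uq, not_forall, not_not] at s1 s2
    obtain ⟨m, m1, m2, m3⟩ := s1
    obtain ⟨m', n1, n2, n3⟩ := s2
    rcases s.dbl2 dy a m1 a' n1 (Ne.symm m2) (Ne.symm n2) m3.symm n3.symm (lt w hw.2.2)
      (lt w' hw'.2.2) with z | z
    exacts [ne z.symm, s.ne ww (by rw [z, m3])]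
  obtain ⟨w0, h0, n, d0⟩ := n.resolve_left (not_not.2 g)
  have e1 : w0 ≠ x := fun e => n (e ▸ xy.symm)
  have e2 : w0 ≠ q := fun e => n (e ▸ g.symm)
  have b0 := (h.hd_dbl k hS sy yK xy uq h0 e1 e2).1 n
  have key : ∀ w, w ≠ q ∧ w ≠ x ∧ w ∈ K → G.Adj y w → Sees G K f w0 (f w) := fun w hw a => by
    by_contra z
    obtain ⟨m, m1, m2, m3⟩ := (h.exit_place hS sy cl k.hx yK xy uq
      (h.place_cyc cl (mem_erase.2 ⟨e1, h0⟩) n (mem_erase.2 hw.2) (mem_erase.2 ⟨k.ne, k.hq⟩)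
        (fun e => n (e ▸ a)) e2 hw.1 z
        (fun ⟨m, m1, m2, m3⟩ => (k.u w hw.2.2 hw.2.1 hw.1).1 m m1 (fun e => m2 (e ▸ k.hq)) m3)
        fun ⟨m, m1, m2, m3⟩ => (k.u w0 h0 e1 e2).2 m m1 (fun e => m2 (e ▸ h0)) m3)).2
    simp only [Uq, not_forall, not_not] at b0
    obtain ⟨m', n1, n2, n3⟩ := b0
    rcases s.dbl2 dy g.symm n1 a m1 (Ne.symm n2) (fun e => m2 (e ▸ hw.2.2)) n3.symm
      (by rw [shift_o a.ne.symm hw.2.1, shift_o m1.ne.symm fun e : m = x => m2 (e ▸ k.hx), m3])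
      (lt q k.hq) (lt w hw.2.2) with z | z
    exacts [hw.1 z, s.ne (cl q k.hq w hw.2.2 hw.1.symm) (by rw [z, n3])]
  have cq : IsClq G (K.erase x) := fun v p w q => cl v (mem_of_mem_erase p) w (mem_of_mem_erase q)
  have a0 := h.card_abs ((erase_subset x K).trans hS) cq (notMem_erase x K)
  have a1 := card_erase_add_one k.hx
  have a2 := h.sees_card d0 hS cl h0 (Abs D f (K.erase x) ∪ {f w, f w'}) ∅ (fun γ p => by
      rcases mem_union.1 p with p | p
      · refine ⟨(mem_Abs.1 p).1, h.hd_abs k dx hS h0 e1 e2 w0 h0 γ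
          (mem_Abs.2 ⟨(mem_Abs.1 p).1, fun v z => ?_⟩)⟩
        by_cases e : v = x
        · rw [e, h.hole]
          exact (mem_Abs.1 p).1.ne'
        · exact (mem_Abs.1 p).2 v (mem_erase.2 ⟨e, z⟩)
      · rcases mem_insert.1 p with rfl | p
        exacts [⟨h.lt w (hS hw.2.2) hw.2.1, key w hw a⟩,
          mem_singleton.1 p ▸ ⟨h.lt w' (hS hw'.2.2) hw'.2.1, key w' hw' a'⟩]) (by simp)
  rw [card_union_of_disjoint (disjoint_right.2 fun γ z p => by
      rcases mem_insert.1 z with rfl | z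
      exacts [(mem_Abs.1 p).2 w (mem_erase.2 hw.2) rfl,
        (mem_Abs.1 p).2 w' (mem_erase.2 hw'.2) (mem_singleton.1 z).symm]),
    card_pair (h.ne ww), card_empty] at a2
  omega

end HC

/-- The state of the parent with the hole moved to `x`. -/
noncomputable def Tr.st1 (T : Tr G D) (x : V) : V → ℕ := shift D (T.col (T.p x)) (T.p x) x

namespace IsB

variable {T : Tr G D} {x y b m w w' w0 : V} {K Z : Finset V}

open Tr IsA

theorem st1_real (hx : x ∈ T.R) (xr : x ≠ T.r) (hm : m ∉ T.Dm) : T.st1 x m = T.col x m :=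
  (T.col_p x hx xr m hm).symm

theorem st1_o (h1 : m ≠ x) (h2 : m ≠ T.p x) : T.st1 x m = T.col (T.p x) m := shift_o h1 h2

/-- An arc out of `x` is legal in the state of the parent, or has a port ticket there. -/
theorem st1_uq (hx : x ∈ T.R) (xr : x ≠ T.r) (hy : y ∈ T.O x)
    (np : ¬ T.Port (T.p x) x (T.col x y)) : Uq G (T.st1 x) x y := fun m p q e => by
  rw [st1_real hx xr (O_real hx hy)] at e
  by_cases md : m ∈ T.Dm
  · refine np (port_of hx hy p md ?_)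
    rw [← e, st1_o p.ne.symm fun z => T.real _ (T.p_mem x hx xr) (z ▸ md)]
  · exact T.uniq x hx y hy m p q (st1_real hx xr md ▸ e)

/-- The frame of a test in the state of the parent, after the shift to `x`. -/
theorem st1_hc (h : IsB T) (hx : x ∈ T.R) (xr : x ≠ T.r) (ho : x ∈ T.O (T.p x)) {S : Finset V}
    (h1 : T.p x ∈ S) (h2 : x ∈ S) (h3 : ∀ m ∈ S, m ∉ T.Dm) (h4 : Cov G S 2) :
    HC G D (T.fm (T.p x) S) x (T.st1 x) :=
  (h.hc (T.p_mem x hx xr) h1 h3 h4).shift h2 (p_ne hx xr).symm (h.uq_O (T.p_mem x hx xr) ho)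

theorem clq_real (hx : x ∈ T.R) (xr : x ≠ T.r) (hZ : Z ⊆ W T x) :
    ∀ m ∈ insert (T.p x) (insert x Z), m ∉ T.Dm := by
  simpa using ⟨T.real _ (T.p_mem x hx xr), T.real x hx, fun _ k => W_real hx (hZ k)⟩

theorem clq_sub (h : IsB T) (hx : x ∈ T.R) (xr : x ≠ T.r) (ho : x ∈ T.O (T.p x))
    (ns : T.NS (T.p x) x) (hZ : Z ⊆ W T x) : IsClq G (insert (T.p x) (insert x Z)) :=
  fun a p b q => (h.W_clq hx xr ho ns).1 a (insert_subset_insert _ (insert_subset_insert _ hZ) p)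
    b (insert_subset_insert _ (insert_subset_insert _ hZ) q)

/-- A tail can be exchanged with the parent in every state that agrees with the state of the
parent off `x`, `y` and in which the ports do not block. -/
theorem W_exch (h : IsB T) (hx : x ∈ T.R) (hw : w ∈ W T x) {f : V → ℕ}
    (pr : ∀ a b, G.Adj a b → f a ≠ f b) (y : V) (e : ∀ m, m ∉ T.Dm → m ≠ x → m ≠ y → m ≠ T.p x →
      f m = T.col (T.p x) m) (cq : f (T.p x) = T.c x) (cw : f w = T.col (T.p x) w)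
    (y1 : f y ≠ T.c x) (y2 : f y ≠ f w) (p1 : ∀ m ∈ T.Dm, G.Adj w m → f m ≠ T.c x)
    (p2 : ∀ m ∈ T.Dm, G.Adj (T.p x) m → f m ≠ T.col (T.p x) w) :
    Uq G f w (T.p x) ∧ Uq G f (T.p x) w := by
  obtain ⟨a0, xr, a2, -⟩ := mem_W.1 hw
  have hq := T.p_mem x hx xr
  refine ⟨fun m p q => ?_, fun m p q => ?_⟩
  · by_cases z : m = x
    · rw [z]
      exact pr _ _ (h.adj_par hx xr (W_par hw)).symm
    rw [cq]
    by_cases z' : m = y
    · exact z' ▸ y1
    by_cases md : m ∈ T.Dm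
    · exact p1 m md p
    · rw [e m md z z' q, ← col_p_self hx xr]
      exact W_uq hx hw m p z
  · by_cases z : m = x
    · exact z ▸ pr _ _ a0
    by_cases z' : m = y
    · exact z' ▸ y2
    rw [cw]
    by_cases md : m ∈ T.Dm
    · exact p2 m md p
    · rw [e m md z z' p.ne.symm]
      exact h.uq_O hq a2 m p q

/-- The clique of a head in the state of the parent. -/
theorem hd_st1 (h : IsB T) (hx : x ∈ T.R) (xr : x ≠ T.r) (ho : x ∈ T.O (T.p x))
    (ns : T.NS (T.p x) x) (hZ : Z ⊆ W T x) :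
    Hd G (T.st1 x) (insert (T.p x) (insert x Z)) x (T.p x) := by
  refine ⟨h.clq_sub hx xr ho ns hZ, by simp, by simp, p_ne hx xr, fun w p n1 n2 => ?_⟩
  have hw : w ∈ W T x := hZ (by simpa [n1, n2] using p)
  have hq := T.p_mem x hx xr
  have s := h.st1_hc hx xr ho (S := {T.p x, x}) (by simp) (by simp)
    (by simp [T.real _ hq, T.real x hx]) (Cov.two _ _)
  have ne : ∀ m ∈ T.Dm, T.st1 x m = T.col (T.p x) m := fun m md =>
    st1_o (fun z => T.real x hx (z ▸ md)) fun z => T.real _ hq (z ▸ md)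
  refine h.W_exch hx hw s.pr x (fun m _ p _ q => st1_o p q)
    (by rw [st1, shift_l (p_ne hx xr), col_p_self hx xr]) (st1_o n1 n2)
    (by rw [s.hole]; exact (c_lt hx xr).ne') (s.ne (mem_W.1 hw).1) (fun m md a => ?_)
    fun m md a => ?_
  · rw [ne m md, ← col_p_self hx xr]
    exact W_uq hx hw m a fun z => T.real x hx (z ▸ md)
  · rw [ne m md]
    exact h.uq_O hq (mem_W.1 hw).2.2.1 m a fun z => W_real hx hw (z ▸ md)

/-- The clique of a head in its own state. -/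
theorem hd_own (h : IsB T) (hx : x ∈ T.R) (xr : x ≠ T.r) (ho : x ∈ T.O (T.p x))
    (ns : T.NS (T.p x) x) (hZ : ∀ w ∈ Z, w ∈ W T x ∧ ¬ T.PW x x w) :
    Hd G (T.col x) (insert (T.p x) (insert x Z)) x (T.p x) := by
  refine ⟨h.clq_sub hx xr ho ns fun w k => (hZ w k).1, by simp, by simp, p_ne hx xr,
    fun w p n1 n2 => ?_⟩
  obtain ⟨hw, np⟩ := hZ w (by simpa [n1, n2] using p)
  exact h.W_exch hx hw (T.prop x hx) x (fun m md p _ q => col_step hx xr md p q) (col_par hx xr)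
    (W_col hx hw) (by rw [col_self hx]; exact (c_lt hx xr).ne') (T.prop x hx _ _ (mem_W.1 hw).1)
    (fun m md a e => np ⟨x, .refl x hx, .refl x hx, .inr ⟨m, md, a, e⟩⟩)
    fun m md a e => np ⟨x, .refl x hx, .refl x hx,
      .inl (port_of (T.p_mem x hx xr) (mem_W.1 hw).2.2.1 a md e)⟩

/-- In its own state the clique of a head with a tail is blocked by the absent colours only. -/
theorem own_abs (h : IsB T) (hx : x ∈ T.R) (ns : T.NS (T.p x) x)
    (hZ : ∀ w ∈ Z, w ∈ W T x ∧ ¬ T.PW x x w) (h0 : w0 ∈ Z) :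
    ∀ w ∈ insert (T.p x) (insert x Z), ∀ γ ∈ Abs D (T.col x) (insert (T.p x) (insert x Z)),
      Sees G (insert (T.p x) (insert x Z)) (T.col x) w γ := by
  obtain ⟨a0, xr, a2, -⟩ := mem_W.1 (hZ w0 h0).1
  have k := h.hd_own hx xr (W_par (hZ w0 h0).1) ns hZ
  exact (h.hc hx k.hx (clq_real hx xr fun w p => (hZ w p).1) ((Cov.clq k.cl).le one_le_two)).hd_abs
    k (h.dgo hx _) subset_rfl (by simp [h0]) a0.ne.symm
    (T.O_adj _ (T.p_mem x hx xr) w0 a2).ne.symm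

/-- The same in the state of the parent, without tickets. -/
theorem own_abs' (h : IsB T) (hx : x ∈ T.R) (ns : T.NS (T.p x) x) (hZ : Z ⊆ W T x) (h0 : w0 ∈ Z) :
    ∀ w ∈ insert (T.p x) (insert x Z), ∀ γ ∈ Abs D (T.st1 x) (insert (T.p x) (insert x Z)),
      Sees G (insert (T.p x) (insert x Z)) (T.st1 x) w γ := by
  obtain ⟨a0, xr, a2, -⟩ := mem_W.1 (hZ h0)
  have k := h.hd_st1 hx xr (W_par (hZ h0)) ns hZ
  exact (h.st1_hc hx xr (W_par (hZ h0)) k.hq k.hx (clq_real hx xr hZ)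
    ((Cov.clq k.cl).le one_le_two)).hd_abs k (h.dg (T.real x hx) ns _) subset_rfl (by simp [h0])
    a0.ne.symm (T.O_adj _ (T.p_mem x hx xr) w0 a2).ne.symm

theorem exit_out (hx : x ∈ T.R) (hy : y ∈ T.O x) (n : y ∉ Z) :
    y ∉ insert (T.p x) (insert x Z) := by
  simp [O_ne_p hx hy, (T.O_adj x hx y hy).ne.symm, n]

theorem exit_real (hx : x ∈ T.R) (xr : x ≠ T.r) (hy : y ∈ T.O x) (hZ : Z ⊆ W T x) :
    ∀ m ∈ insert y (insert (T.p x) (insert x Z)), m ∉ T.Dm := fun m p =>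
  (mem_insert.1 p).elim (fun e => e ▸ O_real hx hy) (clq_real hx xr hZ m)

/-- G0: an exit that misses a tail has the parent doubled. -/
theorem g0_dbl (h : IsB T) (hx : x ∈ T.R) (ns : T.NS (T.p x) x) (hy : y ∈ T.O x)
    (h0 : w0 ∈ W T x) (ne : y ≠ w0) (n : ¬ G.Adj y w0) :
    ¬ Uq G (shift D (T.col x) x y) y (T.p x) ∨ T.PW x x w0 := by
  refine or_iff_not_imp_right.2 fun np => ?_
  obtain ⟨a0, xr, a2, -⟩ := mem_W.1 h0
  have k := h.hd_own hx xr (W_par h0) ns (Z := {w0}) (by simp [h0, np])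
  exact ((h.hc hx (by simp) (exit_real hx xr hy (by simp [h0])) (Cov.clq1 k.cl y)).hd_dbl k
    (subset_insert _ _) (mem_insert_self _ _) (exit_out hx hy (by simp [ne])) (T.O_adj x hx y hy)
    (h.uq_O hx hy) (by simp) a0.ne.symm (T.O_adj _ (T.p_mem x hx xr) w0 a2).ne.symm).1 n

/-- G0 and EXIT in the state of the parent. -/
theorem st1_dbl (h : IsB T) (hx : x ∈ T.R) (ns : T.NS (T.p x) x) (hy : y ∈ T.O x)
    (hw : w ∈ W T x) (ne : y ≠ w) (np : ¬ T.Port (T.p x) x (T.col x y)) :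
    (¬ G.Adj y w → ¬ Uq G (shift D (T.st1 x) x y) y (T.p x)) ∧
      (¬ G.Adj y (T.p x) → ¬ Uq G (shift D (T.st1 x) x y) y w) := by
  obtain ⟨a0, xr, a2, -⟩ := mem_W.1 hw
  have k := h.hd_st1 hx xr (W_par hw) ns (Z := {w}) (by simp [hw])
  exact (h.st1_hc hx xr (W_par hw) (by simp) (by simp) (exit_real hx xr hy (by simp [hw]))
    (Cov.clq1 k.cl y)).hd_dbl k (subset_insert _ _) (mem_insert_self _ _)
    (exit_out hx hy (by simp [ne])) (T.O_adj x hx y hy) (st1_uq hx xr hy np) (by simp) a0.ne.symm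
    (T.O_adj _ (T.p_mem x hx xr) w a2).ne.symm

/-- G0: a child that is adjacent to the grandparent and misses a tail has no `t`. -/
theorem g0_t (h : IsB T) (hy : y ∈ T.ch x) (h0 : w0 ∈ W T x) (n : ¬ G.Adj y w0)
    (a : G.Adj y (T.p x)) : (T.p x ∈ T.Bd y ∧ ∀ e ∈ T.O y, ¬ T.PayT y e) ∨ T.PW x y w0 := by
  refine or_iff_not_imp_right.2 fun np => ?_
  obtain ⟨p1, p2, p3⟩ := T.mem_ch.1 hy
  have xy := anc_ch hy
  have hx := xy.mem.1
  obtain ⟨a0, xr, a2, -⟩ := mem_W.1 h0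
  have hq := T.p_mem x hx xr
  have xc := T.mem_ch.2 ⟨hx, xr, rfl⟩
  have wd := W_real hx h0
  have wy : w0 ≠ y := fun e => by
    have := (W_d hx h0).2
    have := d_ch hy
    rw [e] at *
    omega
  have cq := col_anc xc xy
  obtain ⟨u1, u2⟩ := h.W_exch hx h0 (T.prop y p1) y
    (fun m md p q r => by rw [col_step p1 p2 md q (p3 ▸ p), p3, col_step hx xr md p r]) cq
    (by rw [col_step p1 p2 wd wy (p3 ▸ a0.ne.symm), p3, W_col hx h0])
    (by rw [col_self p1]; exact (c_lt hx xr).ne') (by rw [col_self p1]; exact (col_ne_D p1 wy).symm)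
    (fun m md a e => np ⟨y, xy, .refl y p1, .inr ⟨m, md, a, e⟩⟩)
    fun m md a e => np ⟨y, xy, .refl y p1, .inl (port_of hq a2 a md e)⟩
  have k := h.swap_tr p1 wd (T.real _ hq) wy a.ne.symm n u1 u2 (T.O_adj _ hq w0 a2).symm
  refine ⟨(mem_Bd' p1 (T.real _ hq)).2 ⟨a, k⟩, fun e he t => ?_⟩
  have c : T.col y (T.p x) = T.col y e := by rw [t.2, p3, cq]
  by_cases z : T.p x = e
  exacts [k (z ▸ h.uq_O p1 he), h.uq_O p1 he _ a z c]

theorem mem_core (hx : x ∈ T.R) (hw : w ∈ W T x) (hZ : w ∈ Z) :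
    w ∈ ((insert (T.p x) (insert x Z)).erase x).erase (T.p x) := by
  obtain ⟨a0, xr, a2, -⟩ := mem_W.1 hw
  simp [hZ, a0.ne.symm, (T.O_adj _ (T.p_mem x hx xr) w a2).ne.symm]

/-- General EXIT bound: an exit that misses a member has at most one neighbour among the
tails (`w0` matters only if `y` is adjacent to the parent). -/
theorem exit_one3 (h : IsB T) (hx : x ∈ T.R) (hy : y ∈ T.O x) (ns : T.NS (T.p x) x)
    (ny : T.NS x y) (n : ¬ G.Adj (T.p x) y ∨
      ∃ w0 ∈ W T x, y ≠ w0 ∧ ¬ G.Adj y w0 ∧ T.NS x w0 ∧ ¬ T.PW x x w0) (hw : w ∈ W T x)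
    (hw' : w' ∈ W T x) (a : G.Adj y w) (a' : G.Adj y w') :
    w = w' ∨ T.PW x x w ∨ T.PW x x w' := by
  rcases n with n | ⟨w0, h0, ne, n, n0, np⟩
  · exact h.exit_one2 hx hy n ns ny hw hw' a a'
  by_contra! z
  have xr := (mem_W.1 hw).2.1
  have k := h.hd_own hx xr (W_par hw) ns (Z := {w0, w, w'}) (by simp [*])
  exact z.1 ((h.hc hx (by simp) (exit_real hx xr hy (by simp [insert_subset_iff, *]))
    (Cov.clq1 k.cl y)).exit3 k (subset_insert _ _) (mem_insert_self _ _)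
    (exit_out hx hy (by simp [ne, a.ne, a'.ne])) (T.O_adj x hx y hy) (h.uq_O hx hy) (h.dgo hx _)
    (h.dg (O_real hx hy) ny _) (.inr ⟨w0, by simp, n, h.dg (W_real hx h0) n0 _⟩)
    (mem_core hx hw (by simp)) (mem_core hx hw' (by simp)) a a')

/-- The same from the state of the parent: one ticket, for the arc `x → y`. -/
theorem exit_one3' (h : IsB T) (hx : x ∈ T.R) (hy : y ∈ T.O x) (ns : T.NS (T.p x) x)
    (ny : T.NS (T.p x) y) (n : ¬ G.Adj (T.p x) y ∨
      ∃ w0 ∈ W T x, y ≠ w0 ∧ ¬ G.Adj y w0 ∧ T.NS (T.p x) w0) (hw : w ∈ W T x)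
    (hw' : w' ∈ W T x) (a : G.Adj y w) (a' : G.Adj y w') :
    w = w' ∨ T.Port (T.p x) x (T.col x y) := by
  refine or_iff_not_imp_right.2 fun np => ?_
  have xr := (mem_W.1 hw).2.1
  have key : ∀ Z ⊆ W T x, w ∈ Z → w' ∈ Z → y ∉ Z →
      (¬ G.Adj (T.p x) y ∨ ∃ w0 ∈ Z, ¬ G.Adj y w0 ∧ T.NS (T.p x) w0) → w = w' :=
    fun Z hZ p p' q n =>
      have k := h.hd_st1 hx xr (W_par hw) ns hZ
      (h.st1_hc hx xr (W_par hw) (by simp) (by simp) (exit_real hx xr hy hZ)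
        (Cov.clq1 k.cl y)).exit3 k (subset_insert _ _) (mem_insert_self _ _) (exit_out hx hy q)
        (T.O_adj x hx y hy) (st1_uq hx xr hy np) (h.dg (T.real x hx) ns _)
        (h.dg (O_real hx hy) ny _)
        (n.imp_right fun ⟨w0, h0, n, n0⟩ => ⟨w0, by simp [h0], n, h.dg (W_real hx (hZ h0)) n0 _⟩)
        (mem_core hx hw p) (mem_core hx hw' p') a a'
  rcases n with n | ⟨w0, h0, ne, n, n0⟩
  · exact key {w, w'} (by simp [insert_subset_iff, *]) (by simp) (by simp) (by simp [a.ne, a'.ne])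
      (.inl n)
  · exact key {w0, w, w'} (by simp [insert_subset_iff, *]) (by simp) (by simp)
      (by simp [ne, a.ne, a'.ne]) (.inr ⟨w0, by simp, n, n0⟩)

/-- ENTRY for a shallow prober: of three members off `N(b)` one is a receiver that is not open. -/
theorem probe3 (h : IsB T) (hK : IsClq G K) (hx : x ∈ K)
    (tl : ∀ r ∈ K, r ≠ x → r ∈ T.R ∧ x ∈ T.O r ∧ T.col r x = T.c x) (hb : b ∈ T.R)
    (pb : x ∈ T.O b) (bK : b ∉ K) (nx : ¬ T.Anc x b) (db : T.d b ≤ T.d x + 1) {N : Finset V}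
    (hN : N ⊆ K.erase x) (ny : ∀ r ∈ N, ¬ G.Adj b r) (c3 : 3 ≤ N.card)
    (ns : ∀ a, T.Anc a b → T.NS a x) :
    (∃ r ∈ N, Sees G K (T.col b) r (T.col b x) ∧ T.Tight b r ∧ ¬ ∃ a a', T.Op2 r x b a a') ∨
      ∃ r ∈ N, ∃ a a', T.Op2 r x b a a' ∧ T.Shw a x (T.col a r) := by
  refine or_iff_not_imp_right.2 fun np => ?_
  by_contra no
  simp only [not_exists, not_and, not_forall, not_not] at no np
  have xd := O_real hb pb
  have rK : ∀ r ∈ K, r ∉ T.Dm := fun r k => by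
    by_cases e : r = x
    exacts [e ▸ xd, T.real r (tl r k e).1]
  have hc := h.hc hb (S := insert b K) (by simp) (by simpa using ⟨T.real b hb, rK⟩) (Cov.clq1 hK b)
  have dx := h.dg xd (ns b (.refl b hb)) (insert b K)
  have bx := T.O_adj b hb x pb
  have mN : ∀ r ∈ N, r ∈ K ∧ r ≠ x ∧ G.Adj x r := fun r k =>
    have := mem_erase.1 (hN k)
    ⟨this.2, this.1, hK x hx r this.2 this.1.symm⟩
  have cn : ∀ s ∈ T.R, ∀ r ∈ N, ∀ r' ∈ N, r ≠ r' → T.col s r ≠ T.col s r' :=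
    fun s p r q r' q' n => T.prop s p _ _ (hK r (mN r q).1 r' (mN r' q').1 n)
  have rN : ∀ r ∈ N, r ∉ T.Dm := fun r k => rK r (mN r k).1
  have ti : ∀ r ∈ N, (∀ γ ∈ Abs D (T.col b) K, Sees G K (T.col b) r γ) →
      T.Tight b r := fun r k p κ l q => by
    by_cases e : κ ∈ Abs D (T.col b) K
    · exact (p κ e).imp fun _ e => ⟨e.1, e.2.2⟩
    simp only [mem_Abs, l, true_and, not_forall, not_not] at e
    obtain ⟨w, w1, w2⟩ := e
    exact ⟨w, hK r (mN r k).1 w w1 fun e => q (by rw [← w2, e]), w2⟩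
  obtain ⟨r0, e0, op⟩ : ∃ r0, (r0 ∈ N → ¬ Uq G (T.col b) x r0) ∧
      ∀ r ∈ N, r ≠ r0 → ∃ a a', T.Op2 r x b a a' := by
    rcases hc.entry dx (subset_insert _ _) hK bK hx (h.uq_O hb pb) with p | ⟨r0, r1, r2, p⟩
    · exact ⟨x, fun k => absurd rfl (mN x k).2.1, fun r k _ => no r k ((p r (mN r k).1).1.resolve_left
        fun e => ny r k e.symm) (ti r k (p r (mN r k).1).2)⟩
    · refine ⟨r0, fun _ k => ?_, fun r k n => no r k ((p r (mN r k).1 n).2.1.resolve_left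
        fun e => ny r k e.symm) (ti r k (p r (mN r k).1 n).2.2)⟩
      obtain ⟨m, m1, m2, m3⟩ := (p x hx r2.symm).1
      exact k m m1 (fun e => m2 (e ▸ r1)) m3
  choose! A B op using op
  have ot := fun r (p : r ∈ N) (q : r ≠ r0) =>
    have t := tl r (mN r p).1 (mN r p).2.1
    h.op_tight t.1 t.2.1 t.2.2 nx (op r p q)
  have dA : ∀ r ∈ N, r ≠ r0 → T.d x ≤ T.d (A r) + 2 := fun r p q => by
    have t := tl r (mN r p).1 (mN r p).2.1
    have := (op r p q).dep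
    have := (O_mem t.1 t.2.1).2
    omega
  -- all witnesses are equal
  have dB : ∀ r ∈ N, r ≠ r0 → T.d (A r) + 2 ≤ T.d b := fun r p q => by
    have := (op r p q).2.1.lt fun e => (ot r p q).2.1 (e ▸ bx.symm)
    have := d_ch (op r p q).1
    omega
  have dC : ∀ r ∈ N, r ≠ r0 → T.d (B r) = T.d (A r) + 1 := fun r p q => by
    have := (op r p q).2.1.lt fun e => (ot r p q).2.1 (e ▸ bx.symm)
    have := dA r p q
    exact d_chO (op r p q).1 (ch_O (op r p q).1 (.inr (by omega)))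
  have eq : ∀ r ∈ N, r ≠ r0 → ∀ s ∈ N, s ≠ r0 → T.d (A r) ≤ T.d (A s) → A r = A s :=
    fun r p q s p' q' l => by
      by_contra ne
      have k := (op r p q).anc.comp (op s p' q').anc l
      have := k.lt ne
      have := dA r p q
      have := dB s p' q'
      have := dC r p q
      have e : B r = A s := ((op r p q).2.1.comp (op s p' q').anc (by omega)).eq_of_d (by omega)
      refine c_ch_ne (e ▸ (op s p' q').1) (T.mem_ch.1 (op r p q).1).2.1 ?_
      rw [(op r p q).2.2.2.1, (op s p' q').2.2.2.1, (tl r (mN r p).1 (mN r p).2.1).2.2,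
        (tl s (mN s p').1 (mN s p').2.1).2.2]
  have eq' : ∀ r ∈ N, r ≠ r0 → ∀ s ∈ N, s ≠ r0 → A r = A s := fun r p q s p' q' =>
    (le_total _ _).elim (eq r p q s p' q') fun l => (eq s p' q' r p q l).symm
  have r0N : r0 ∈ N := by
    by_contra k
    obtain ⟨s, t, u, s1, t1, u1, st, su, tu⟩ := two_lt_card_iff.1 (show 2 < N.card by omega)
    have n : ∀ r ∈ N, r ≠ r0 := fun r p e => k (e ▸ p)
    have aR := (op s s1 (n s s1)).anc.mem.1
    obtain ⟨-, -, c1, c2, c3⟩ := ot s s1 (n s s1)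
    exact (h.hc1 aR).three_dbl (h.dg xd (ns _ (op s s1 (n s s1)).anc) _)
      (by rw [c1, ← col_base hb xd nx]; exact T.lt b hb x pb)
      (fun κ p q => (c3 κ p q).imp fun _ e => ⟨e.1, e.2.2⟩) (mN s s1).2.2 (mN t t1).2.2
      (mN u u1).2.2 (cn _ aR s s1 t t1 st) (cn _ aR s s1 u u1 su) (cn _ aR t t1 u u1 tu) c2
      (eq' s s1 (n s s1) t t1 (n t t1) ▸ (ot t t1 (n t t1)).2.2.2.1)
      (eq' s s1 (n s s1) u u1 (n u u1) ▸ (ot u u1 (n u u1)).2.2.2.1) (col_le aR (rN s s1))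
      (col_le aR (rN t t1)) (col_le aR (rN u u1))
  -- the other members are unique in the state of `b`
  have uq : ∀ r ∈ N, r ≠ r0 → Uq G (T.col b) x r := fun r p q m m1 m2 m3 => by
    have d := e0 r0N
    simp only [Uq, not_forall, not_not] at d
    obtain ⟨m', n1, n2, n3⟩ := d
    rcases hc.dbl_nb2 dx bx.symm (T.lt b hb x pb) (h.probe_tight hb pb)
      (mN r0 r0N).2.2 n1 (mN r p).2.2 m1 (Ne.symm n2) (Ne.symm m2) n3.symm m3.symm
      (col_le hb (rN r0 r0N)) (col_le hb (rN r p)) with z | z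
    exacts [q z, cn b hb r p r0 r0N q (by rw [z, n3])]
  have := card_erase_add_one r0N
  obtain ⟨s, s1, t, t1, st⟩ := one_lt_card.1 (show 1 < (N.erase r0).card by omega)
  rw [mem_erase] at s1 t1
  have sl := fun r (p : r ∈ N) (q : r ≠ r0) =>
    have t := tl r (mN r p).1 (mN r p).2.1
    (h.op_slot t.1 t.2.1 t.2.2 nx (op r p q) (uq r p q)).resolve_right (np r p _ _ (op r p q))
  have ac : ∀ m, b ∈ T.ch m → T.d b ≤ T.d m + 1 → G.Adj b m := fun m k l =>
    (T.O_adj m (anc_ch k).mem.1 b (ch_O k (.inr (by omega)))).symm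
  have key : ∀ s ∈ N, s ≠ r0 → ∀ t ∈ N, t ≠ r0 → s ≠ t → ∀ m, T.Anc (B t) m → B t ≠ m →
      T.Anc m b → G.Adj x m → m ≠ b → T.c b ≠ T.col (A s) s := fun s p q t p' q' n m m1 m2 m3 m4 m5 e => by
    have := m1.lt m2
    have := m3.lt m5
    have := d_ch (op t p' q').1
    have := dA t p' q'
    have mc := m3.ch_of_d m5 (by omega)
    obtain ⟨-, p2, p3⟩ := T.mem_ch.1 mc
    have ms : m ≠ s := fun z => ny s p (z ▸ ac m mc (by omega))
    refine uq s p q m m4 ms ?_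
    rw [← p3, col_par hb p2, e, col_diff (op s p q).anc (rN s p) fun z => ?_]
    have := z.2.lt fun k => bK (k ▸ (mN s p).1)
    have xs := (mN s p).2.2
    have := z.1.lt fun k => (ot s p q).1 (by rw [k]; exact xs)
    have := dC s p q
    have := congrArg T.d (eq' s p q t p' q')
    by_cases l : T.d s = T.d m
    · exact ms ((m3.comp z.2 l.ge).eq_of_d l.le)
    · exact (ot s p q).2.1 (by
        rw [((op s p q).2.1.comp z.2 (by omega)).eq_of_d (by omega)]; exact xs)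
  obtain ⟨m, m1, m2, m3, m4, m5⟩ := sl s s1.2 s1.1
  obtain ⟨m', n1, n2, n3, n4, n5⟩ := sl t t1.2 t1.1
  have ne := cn _ (op s s1.2 s1.1).anc.mem.1 s s1.2 t t1.2 st
  have e := eq' s s1.2 s1.1 t t1.2 t1.1
  by_cases z : m = b
  · have c := m5.resolve_left fun k => bK (z ▸ k ▸ (mN s s1.2).1)
    exact key s s1.2 s1.1 t t1.2 t1.1 st m' n1 n2 n3 n4 (fun z' => ne (by
      rw [← c, e, ← n5.resolve_left fun k => bK (z' ▸ k ▸ (mN t t1.2).1), z, z'])) (z ▸ c)
  by_cases z' : m' = b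
  · exact key t t1.2 t1.1 s s1.2 s1.1 st.symm m m1 m2 m3 m4 z
      (z' ▸ n5.resolve_left fun k => bK (z' ▸ k ▸ (mN t t1.2).1))
  have := m1.lt m2
  have := m3.lt z
  have := n1.lt n2
  have := n3.lt z'
  have := d_ch (op s s1.2 s1.1).1
  have := d_ch (op t t1.2 t1.1).1
  have := dA s s1.2 s1.1
  have := dA t t1.2 t1.1
  have mc := m3.ch_of_d z (by omega)
  obtain rfl : m' = m := (n3.comp m3 (by omega)).eq_of_d (by omega)
  have bm := ac _ mc (by omega)
  exact ne (by rw [← m5.resolve_left fun k => ny s s1.2 (k ▸ bm), e,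
    n5.resolve_left fun k => ny t t1.2 (k ▸ bm)])

end IsB

end Pool.Agent.Lib.MP_12eaff_co.Frz.Acc2
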