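import Pool.Agent.Lib.MP_12eaff_co.Frz.Acc2.A
import Pool.Agent.Lib.MP_12eaff_co.Frz.Acc2.ATX

set_option autoImplicit false
set_option linter.unusedSectionVars false

namespace Pool.Agent.Lib.MP_12eaff_co.Frz.Acc2

open Finset Pool.Agent.Lib.MP_12eaff_co.Frz.BK
open scoped Classical

variable {V : Type} [Fintype V] {G : SimpleGraph V} {D : ℕ}

namespace Tr

variable (T : Tr G D)

/-- The double of `z` in its own state consists of two real vertices. -/
def RealBd (z : V) : Prop := T.Bd z ≠ ∅ ∧ ∀ m ∈ T.Bd z, m ∉ T.Dm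

/-- No filling, the hole not counted if its double is real. -/
def NFz : Prop := ∀ z ∈ T.R, T.RealBd z → ∀ g : V → ℕ, (∀ m ∈ T.Dm, g m = T.col z m) →
  (∀ m, m ∉ T.Dm → g m < D) → (∀ a b, G.Adj a b → g a ≠ g b) →
  (∀ A ∈ T.Sx, Cov G ((A.filter fun a => g a ≠ T.col z a).erase z) 2) → False

/-- No filling inside a clique with at least four vertices joined to three more vertices. -/
def NF3 : Prop := ∀ z ∈ T.R, ∀ (Y : Finset V) (a b d : V), IsClq G Y → 4 ≤ Y.card →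
  (∀ y ∈ Y, G.Adj y a ∧ G.Adj y b ∧ G.Adj y d) → z ∈ {a, b, d} ∪ Y →
  (∀ m ∈ {a, b, d} ∪ Y, m ∉ T.Dm) → HC G D (T.fm z ({a, b, d} ∪ Y)) z (T.col z)

variable {T}

theorem NF.nf3 (h : T.NF 3) : T.NF3 := fun _ hz _ _ _ _ hY _ hx hv hr => h.hc3 hz hY hx hv hr

theorem NF.nfz (h : T.NF 3) : T.NFz := fun z hz _ g a b c d =>
  h z hz g a b c fun A p => ((d A p).ins z).mono (subset_insert_iff.2 Subset.rfl)

/-- A test set that has no independent triple apart from the hole in any slot set. -/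
theorem NFz.hcx (h : T.NFz) {z : V} (hz : z ∈ T.R) (hb : T.RealBd z) {S : Finset V} (h1 : z ∈ S)
    (h2 : ∀ m ∈ S, m ∉ T.Dm) (h3 : ∀ A ∈ T.Sx, Cov G (S.erase z ∩ A) 2) :
    HC G D (T.fm z S) z (T.col z) :=
  hc_of hz h1 h2 fun g a b c d => h z hz hb g b c d fun A p => (h3 A p).mono fun x k => by
    obtain ⟨k0, k⟩ := mem_erase.1 k
    exact mem_inter.2 ⟨mem_erase.2 ⟨k0, by_contra fun q => (mem_filter.1 k).2 (a x q)⟩,
      (mem_filter.1 k).1⟩

/-- A test set that has no independent triple apart from the hole. -/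
theorem NFz.hc (h : T.NFz) {z : V} (hz : z ∈ T.R) (hb : T.RealBd z) {S : Finset V} (h1 : z ∈ S)
    (h2 : ∀ m ∈ S, m ∉ T.Dm) (h3 : Cov G (S.erase z) 2) : HC G D (T.fm z S) z (T.col z) :=
  h.hcx hz hb h1 h2 fun _ _ => h3.mono inter_subset_left

end Tr

end Pool.Agent.Lib.MP_12eaff_co.Frz.Acc2
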