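import Pool.Agent.Lib.MP_12eaff_co.Frz.Acc2.Wit
import Pool.Agent.Lib.MP_12eaff_co.Frz.Acc2.NF

set_option autoImplicit false
set_option linter.unusedSectionVars false

namespace Pool.Agent.Lib.MP_12eaff_co.Frz.Acc2

open Finset Pool.Agent.Lib.MP_12eaff_co.Frz.BK
open scoped Classical

variable {V : Type} [Fintype V] {G : SimpleGraph V} {D : ℕ} {F : Fm V}

/-- Both doubled neighbours `a, b` of the hole take the colour of `g`, `k`, which move away. -/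
theorem HC.two_t {f : V → ℕ} {u a b g k : V} (h : HC G D F u f) (hd : F.Dg G D u)
    (hS : {u, a, g, b, k} ⊆ F.S) (ua : G.Adj u a) (ub : G.Adj u b) (ab : a ≠ b) (c : f a = f b)
    (ag : G.Adj a g) (bk : G.Adj b k) (c' : f g = f k) (q1 : Uq G f a g) (q2 : Uq G f b k)
    (n1 : ¬ G.Adj u g) (n2 : ¬ G.Adj u k) (gu : g ≠ u) (ku : k ≠ u) :
    (∀ κ < D, κ ≠ f g → ∃ m, G.Adj g m ∧ m ≠ a ∧ m ≠ b ∧ f m = κ) ∨
      ∀ κ < D, κ ≠ f k → ∃ m, G.Adj k m ∧ m ≠ a ∧ m ≠ b ∧ f m = κ := by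
  by_contra! z
  obtain ⟨⟨κ, k1, k2, k3⟩, η, e1, e2, e3⟩ := z
  have la := h.lt a (hS (by simp)) ua.ne.symm
  have lg := h.lt g (hS (by simp)) gu
  have nab : ¬ G.Adj a b := fun p => h.ne p c
  have ngk : ¬ G.Adj g k := fun p => h.ne p c'
  have := h.ne ag
  have := ua.ne
  have := ub.ne
  have := ag.ne
  have := bk.ne
  have gb : g ≠ b := fun e => nab (e ▸ ag)
  have ka : k ≠ a := fun e => nab (e ▸ bk.symm)
  refine h.fill (K := {u, a, g, b, k}) hS (by simp)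
    (fun m => if m = u then f a else if m = g then κ else if m = k then η else f g) (fun m _ => ?_)
    (fun m p ⟨e, x1, x2, x3⟩ => ?_) fun x p y p' e => ?_
  · split_ifs
    exacts [la, k1, e1, lg]
  · simp only [mem_insert, mem_singleton, not_or] at p x2
    rcases p with rfl | rfl | rfl | rfl | rfl
    · have x4 : f e = f a := by simpa using x3
      exact h.double hd ua ub ab c la x1 (x4 ▸ la) x2.2.1 x2.2.2.2.1 a ua (Ne.symm x2.2.1) x4.symm
    · exact q1 e x1 x2.2.2.1 (by simpa [ua.ne.symm, ag.ne, ka.symm] using x3)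
    · exact k3 e x1 x2.2.1 x2.2.2.2.1 (by simpa [gu] using x3)
    · exact q2 e x1 x2.2.2.2.2 (by simpa [ub.ne.symm, gb.symm, bk.ne, c'] using x3)
    · by_cases r : m = g
      · exact k3 e (r ▸ x1) x2.2.1 x2.2.2.2.1 (by simpa [gu, r] using x3)
      · exact e3 e x1 x2.2.1 x2.2.2.2.1 (by simpa [ku, r] using x3)
  · have := e.symm
    have := e.ne
    have := q1 k
    have := q2 g
    simp only [mem_insert, mem_singleton] at p p'
    grind

/-- One doubled neighbour `b` of the hole is recoloured, the other takes the colour of `g`. -/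
theorem HC.one_t {f : V → ℕ} {u a b g : V} {η : ℕ} (h : HC G D F u f) (hd : F.Dg G D u)
    (hS : {u, a, g, b} ⊆ F.S) (ua : G.Adj u a) (ub : G.Adj u b) (ab : a ≠ b) (c : f a = f b)
    (ag : G.Adj a g) (q1 : Uq G f a g) (n1 : ¬ G.Adj u g) (gu : g ≠ u) (e1 : η < D)
    (e2 : η ≠ f b) (e3 : ∀ m, G.Adj b m → f m ≠ η) {κ : ℕ} (k1 : κ < D) (k2 : κ ≠ f g) :
    (∃ m, G.Adj g m ∧ m ≠ a ∧ m ≠ b ∧ f m = κ) ∨ κ = η ∧ G.Adj g b := by
  by_contra! z
  have la := h.lt a (hS (by simp)) ua.ne.symm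
  have lg := h.lt g (hS (by simp)) gu
  have nab : ¬ G.Adj a b := fun p => h.ne p c
  have := h.ne ag
  have := ua.ne
  have := ub.ne
  have := ag.ne
  have gb : g ≠ b := fun e => nab (e ▸ ag)
  refine h.fill (K := {u, a, g, b}) hS (by simp)
    (fun m => if m = u then f a else if m = g then κ else if m = b then η else f g) (fun m _ => ?_)
    (fun m p ⟨e, x1, x2, x3⟩ => ?_) fun x p y p' e => ?_
  · split_ifs
    exacts [la, k1, e1, lg]
  · simp only [mem_insert, mem_singleton, not_or] at p x2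
    rcases p with rfl | rfl | rfl | rfl
    · have x4 : f e = f a := by simpa using x3
      exact h.double hd ua ub ab c la x1 (x4 ▸ la) x2.2.1 x2.2.2.2 a ua (Ne.symm x2.2.1) x4.symm
    · exact q1 e x1 x2.2.2.1 (by simpa [ua.ne.symm, ag.ne, ab] using x3)
    · exact z.1 e x1 x2.2.1 x2.2.2.2 (by simpa [gu] using x3)
    · exact e3 e x1 (by simpa [ub.ne.symm, gb.symm] using x3)
  · have := e.symm
    have := e.ne
    have := z.2
    simp only [mem_insert, mem_singleton] at p p'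
    grind

namespace IsB

variable {T : Tr G D} {u a b s m : V}

open Tr IsA

/-- A second witness at the parent `g` for the colour of its child `a`: a debit at `g`, a token,
an open witness or a port ticket. -/
theorem tok_of (ha : a ∈ T.R) (ar : a ≠ T.r) (po : a ∈ T.O (T.p a)) (hs : s ∈ T.R)
    (n : ¬ T.Anc (T.p a) s) (m1 : G.Adj (T.p a) m) (m2 : m ≠ a) (m3 : T.col s m = T.c a) :
    (T.PayT (T.p a) a ∧ T.col s (T.p (T.p a)) = T.c a ∧
      ∀ m, G.Adj (T.p a) m → m ≠ a → m ≠ T.p (T.p a) → T.col s m ≠ T.c a) ∨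
      (∃ x, T.PayP (T.Vis (T.p a) s) x (T.p a) a) ∨ (∃ m x, T.Opn (T.p a) a s m x) ∨
      T.PayD (T.Vis (T.p a) s) (T.p a) a := by
  have c := col_p_self ha ar
  by_cases k : ∃ m, G.Adj (T.p a) m ∧ m ≠ a ∧ (T.PayT (T.p a) a → m ≠ T.p (T.p a)) ∧
      T.col s m = T.c a
  · obtain ⟨m, k1, k2, k3, k4⟩ := k
    exact .inr (high (T.p_mem a ha ar) po hs n k1 k2 k3 (k4.trans c.symm))
  push Not at k
  have : T.PayT (T.p a) a ∧ m = T.p (T.p a) := by
    by_contra p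
    exact k m m1 m2 (fun x y => p ⟨x, y⟩) m3
  exact .inl ⟨this.1, this.2 ▸ m3, fun m x y z => k m x y fun _ => z⟩

/-- The debit `u = t(a)` in the state `s(u)`. -/
def _root_.Pool.Agent.Lib.MP_12eaff_co.Frz.Acc2.Deb (T : Tr G D) (a u : V) : Prop :=
  T.PayT a u ∧ T.col u (T.p a) = T.col a u ∧ Uq G (T.col u) a (T.p a)

/-- The arc `a → u` has a pair or a port ticket in the tight state `s(u)`. -/
def _root_.Pool.Agent.Lib.MP_12eaff_co.Frz.Acc2.Tkt (T : Tr G D) (a u : V) : Prop :=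
  ¬ T.Anc a u ∧ T.Tight u a ∧ ((∃ x, T.PayP (T.Vis a u) x a u) ∨ T.PayD (T.Vis a u) a u)

theorem deb_off (h : IsB T) (hu : u ∈ T.R) (ha : a ∈ T.R) (o : u ∈ T.O a) (n : ¬ T.Anc u a)
    (nq : ¬ G.Adj a (T.p u)) (d : Deb T a u) : ¬ T.Anc (T.p a) u ∧ T.col u (T.p a) = T.c u ∧
      ¬ G.Adj u (T.p a) := by
  have c := col_base ha (T.real u hu) n
  have ur : u ≠ T.r := fun e => n (e ▸ anc_r ha)
  have hg := T.p_mem a ha d.1.1.1
  refine ⟨fun p => col_ne_base (t_nr ha o d.1) p (d.2.1.trans d.1.2), d.2.1.trans c, fun p =>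
    h.ne_par hu ur p (T.real _ hg) (fun e => nq ?_) (d.2.1.trans c)⟩
  exact e ▸ (T.O_adj _ hg a d.1.1.2).symm

/-- REC: both members of the real double of `u` probe `u` and miss the parent of `u`.  Then one
arc has a ticket, or some `a` has the debit `u = t(a)` and its parent sees the colour of `a`
again; the parent is tight unless it is adjacent to the other member, which is not tight. -/
theorem rec2 (h : IsB T) (nz : T.NFz) (hu : u ∈ T.R) (ab : a ≠ b)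
    (hB : ∀ v, v = a ∨ v = b → v ∈ T.R ∧ v ∈ T.Bd u ∧ u ∈ T.O v ∧ ¬ T.Anc u v ∧ ¬ G.Adj v (T.p u)) :
    ∃ v w, (v = a ∧ w = b ∨ v = b ∧ w = a) ∧ T.Tight u v ∧ (Tkt T v u ∨ Deb T v u ∧
      ¬ T.Anc (T.p v) u ∧ (∃ m, G.Adj (T.p v) m ∧ m ≠ v ∧ T.col u m = T.c v) ∧
      (T.Tight u (T.p v) ∨ ¬ T.Tight u w ∧ G.Adj (T.p v) w)) := by
  have key : ∀ v, v = a ∨ v = b → T.Tight u v → ¬ Tkt T v u → Deb T v u ∧ T.col u v = T.c v :=
    fun v k t n => by
      obtain ⟨p1, p2, p3, p4, p5⟩ := hB v k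
      obtain ⟨q1, q2⟩ := h.n0 hu p1 p3 p4 (fun e => (T.mem_H.1 (h.Bd_H hu p2)).2.2.2 e) p5 t
      exact ⟨q2.resolve_right fun z => n ⟨q1, t, z⟩, col_base hu (T.real v p1) q1⟩
  obtain ⟨a1, a2, a3, a4, a5⟩ := hB a (.inl rfl)
  obtain ⟨b1, b2, b3, b4, b5⟩ := hB b (.inr rfl)
  have rb : T.RealBd u := ⟨ne_empty_of_mem a2, fun m k => by
    obtain ⟨x, y, -, -, e⟩ := (h.Bd_cases hu).resolve_left (ne_empty_of_mem a2)
    have := T.real a a1
    have := T.real b b1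
    simp only [e, mem_insert, mem_singleton] at a2 b2 k
    grind⟩
  have one : ∀ v w, v = a ∨ v = b → w = a ∨ w = b → v ≠ w → T.Tight u v → ¬ T.Tight u w →
      Tkt T v u ∨ Deb T v u ∧ ¬ T.Anc (T.p v) u ∧
        (∃ m, G.Adj (T.p v) m ∧ m ≠ v ∧ T.col u m = T.c v) ∧
        (T.Tight u (T.p v) ∨ ¬ T.Tight u w ∧ G.Adj (T.p v) w) := fun v w p q ne t n => by
    refine or_iff_not_imp_left.2 fun k => ?_
    obtain ⟨d, cv⟩ := key v p t k
    obtain ⟨p1, p2, p3, p4, p5⟩ := hB v p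
    obtain ⟨q1, q2, -⟩ := hB w q
    obtain ⟨o1, o2, o3⟩ := h.deb_off hu p1 p3 p4 p5 d
    have hg := T.p_mem v p1 d.1.1.1
    have vg := (T.O_adj _ hg v d.1.1.2).symm
    have n' := n
    simp only [Tr.Tight, not_forall, not_exists, not_and] at n'
    obtain ⟨η, e1, e2, e3⟩ := n'
    have s := fun κ => (h.hcE hu (T.real w q1) (T.real v p1) (T.real _ hg)
      (mem_Bd.1 q2).1 vg).one_t (κ := κ) (h.dgo hu _) (a := v) (g := T.p v) (b := w)
      (by simp [insert_subset_iff]) (mem_Bd.1 p2).1 (mem_Bd.1 q2).1 ne (h.Bd_col hu p2 q2) vg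
      d.2.2 o3 (fun e => o1 (e ▸ .refl _ (e ▸ hu))) e1 e2 e3
    refine ⟨d, o1, ?_, or_iff_not_imp_right.2 fun z κ x y => ?_⟩
    · obtain ⟨m, m1, m2, -, m3⟩ := (s _ (mem_Bd.1 p2).2.2 (T.prop u hu _ _ vg)).resolve_right
        fun z => e2 (z.1 ▸ h.Bd_col hu p2 q2)
      exact ⟨m, m1, m2, m3.trans cv⟩
    · obtain ⟨m, m1, -, -, m3⟩ := (s κ x y).resolve_right fun e => z ⟨n, e.2⟩
      exact ⟨m, m1, m3⟩
  by_cases ta : T.Tight u a
  swap
  · have tb := h.Bd_tight hu a2 b2 (T.real a a1) (T.real b b1) ab ta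
    exact ⟨b, a, .inr ⟨rfl, rfl⟩, tb, one b a (.inr rfl) (.inl rfl) ab.symm tb ta⟩
  by_cases tb : T.Tight u b
  swap
  · exact ⟨a, b, .inl ⟨rfl, rfl⟩, ta, one a b (.inl rfl) (.inr rfl) ab ta tb⟩
  by_cases ka : Tkt T a u
  · exact ⟨a, b, .inl ⟨rfl, rfl⟩, ta, .inl ka⟩
  by_cases kb : Tkt T b u
  · exact ⟨b, a, .inr ⟨rfl, rfl⟩, tb, .inl kb⟩
  obtain ⟨da, ca⟩ := key a (.inl rfl) ta ka
  obtain ⟨db, cb⟩ := key b (.inr rfl) tb kb
  obtain ⟨o1, o2, o3⟩ := h.deb_off hu a1 a3 a4 a5 da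
  obtain ⟨r1, r2, r3⟩ := h.deb_off hu b1 b3 b4 b5 db
  have hg := T.p_mem a a1 da.1.1.1
  have hk := T.p_mem b b1 db.1.1.1
  have ag := (T.O_adj _ hg a da.1.1.2).symm
  have bk := (T.O_adj _ hk b db.1.1.2).symm
  have c := h.Bd_col hu a2 b2
  rcases (nz.hc hu rb (S := {u, a, T.p a, b, T.p b}) (by simp) (by
      simpa using ⟨T.real u hu, T.real a a1, T.real _ hg, T.real b b1, T.real _ hk⟩)
    ((Cov.edges ag bk).mono (erase_insert_subset _ _))).two_t (h.dgo hu _) subset_rfl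
    (mem_Bd.1 a2).1 (mem_Bd.1 b2).1 ab c ag bk (o2.trans r2.symm) da.2.2 db.2.2 o3 r3
    (fun e => o1 (e ▸ .refl _ (e ▸ hu))) (fun e => r1 (e ▸ .refl _ (e ▸ hu))) with t | t
  · obtain ⟨m, m1, m2, -, m3⟩ := t _ (mem_Bd.1 a2).2.2 (T.prop u hu _ _ ag)
    exact ⟨a, b, .inl ⟨rfl, rfl⟩, ta, .inr ⟨da, o1, ⟨m, m1, m2, m3.trans ca⟩,
      .inl fun κ x y => let ⟨m, p, _, _, q⟩ := t κ x y; ⟨m, p, q⟩⟩⟩
  · obtain ⟨m, m1, -, m2, m3⟩ := t _ (mem_Bd.1 b2).2.2 (T.prop u hu _ _ bk)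
    exact ⟨b, a, .inr ⟨rfl, rfl⟩, tb, .inr ⟨db, r1, ⟨m, m1, m2, m3.trans cb⟩,
      .inl fun κ x y => let ⟨m, p, _, _, q⟩ := t κ x y; ⟨m, p, q⟩⟩⟩

end IsB

end Pool.Agent.Lib.MP_12eaff_co.Frz.Acc2
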