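import Pool.Agent.Lib.MP_12eaff_co.Frz.BK.Ext
import Pool.Agent.Lib.MP_12eaff_co.Frz.BK.Greedy

set_option autoImplicit false
set_option linter.unusedSectionVars false

namespace Pool.Agent.Lib.MP_12eaff_co.Frz.Acc2

open Finset Pool.Agent.Lib.MP_12eaff_co.Frz.BK
open scoped Classical

variable {V : Type} [Fintype V] {G : SimpleGraph V} {D : ℕ}

namespace ZG

/-- No colour is seen by all members and no pair by all members but one. -/
def Good (F : Finset V) (A : V → Finset ℕ) : Prop :=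
  (∀ y, ∃ w ∈ F, y ∉ A w) ∧
    ∀ y g, y ≠ g → (F.filter fun w => y ∈ A w ∧ g ∈ A w).card + 2 ≤ F.card

theorem Good.congr {F : Finset V} {A A' : V → Finset ℕ} (h : Good F A)
    (e : ∀ w ∈ F, A' w = A w) : Good F A' :=
  ⟨fun y => (h.1 y).elim fun w p => ⟨w, p.1, by rw [e w p.1]; exact p.2⟩, fun y g n => by
    rw [filter_congr fun w p => by rw [e w p]]; exact h.2 y g n⟩

/-- A new common neighbour of the members of `N` loses at most `|N|` colours. -/
theorem bans {F N : Finset V} {A : V → Finset ℕ} (h : Good F A) (hN : N ⊆ F)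
    (h3 : N.card + 3 ≤ F.card) (h2 : ∀ w ∈ F, (A w).card ≤ 2) :
    ∃ B : Finset ℕ, B.card ≤ N.card ∧
      ∀ y ∉ B, Good F fun w => if w ∈ N then insert y (A w) else A w := by
  set O := F \ N with hO
  have cO : O.card + N.card = F.card := card_sdiff_add_card_eq_card hN
  have oF : ∀ w ∈ O, w ∈ F := fun w p => (mem_sdiff.1 p).1
  let bad : ℕ → Prop := fun y => ¬ Good F fun w => if w ∈ N then insert y (A w) else A w
  have k0 : ∀ y, (∀ w ∈ N, y ∈ A w) → ¬ bad y := fun y p q => q (h.congr fun w _ => by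
    split_ifs with e
    exacts [insert_eq_of_mem (p w e), rfl])
  have k1 : ∀ y, bad y → (∀ w ∈ O, y ∈ A w) ∨ ∃ g, y ≠ g ∧
      F.card ≤ (O.filter fun w => y ∈ A w ∧ g ∈ A w).card + (N.filter fun w => g ∈ A w).card + 1 := by
    intro y q
    by_contra c
    push Not at c
    obtain ⟨⟨w0, c1, c2⟩, c3⟩ := c
    have m : ∀ w z, z ≠ y → (z ∈ (if w ∈ N then insert y (A w) else A w) ↔ z ∈ A w) :=
      fun w z n => by split_ifs <;> simp [n]
    have key : ∀ g, y ≠ g → (F.filter fun w => y ∈ (if w ∈ N then insert y (A w) else A w) ∧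
        g ∈ (if w ∈ N then insert y (A w) else A w)).card + 2 ≤ F.card := fun g n => by
      refine le_trans (Nat.add_le_add_right ((card_le_card fun w p => ?_).trans
        (card_union_le _ _)) 2) (c3 g n)
      obtain ⟨p1, p2, p3⟩ := mem_filter.1 p
      rw [m w g n.symm] at p3
      by_cases e : w ∈ N
      · exact mem_union_right _ (mem_filter.2 ⟨e, p3⟩)
      · rw [if_neg e] at p2
        exact mem_union_left _ (mem_filter.2 ⟨mem_sdiff.2 ⟨p1, e⟩, p2, p3⟩)
    refine q ⟨fun z => ?_, fun z g n => ?_⟩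
    · by_cases e : z = y
      · exact ⟨w0, oF _ c1, by simpa only [if_neg (mem_sdiff.1 c1).2, e] using c2⟩
      · exact (h.1 z).imp fun w p => ⟨p.1, fun r => p.2 ((m w z e).1 r)⟩
    · by_cases e : z = y
      · exact e ▸ key g (e ▸ n)
      · by_cases e' : g = y
        · have := key z (Ne.symm e)
          rw [filter_congr fun w _ => and_comm] at this
          exact e' ▸ this
        · rw [filter_congr fun w _ => by rw [m w z e, m w g e']]
          exact h.2 z g n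
  have k2 : ∀ y, bad y → F.card ≤ (O.filter fun w => y ∈ A w).card + N.card + 1 := fun y q => by
    rcases k1 y q with p | ⟨g, -, p⟩
    · rw [filter_true_of_mem p]; omega
    · have a : (O.filter fun w => y ∈ A w ∧ g ∈ A w).card ≤ (O.filter fun w => y ∈ A w).card :=
        card_le_card fun w r => mem_filter.2 ⟨(mem_filter.1 r).1, (mem_filter.1 r).2.1⟩
      have b := card_filter_le N fun w => g ∈ A w
      omega
  have k3 : ∀ y g, y ≠ g → (O.filter fun w => y ∈ A w ∧ g ∈ A w).card + 2 ≤ F.card :=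
    fun y g n => le_trans (Nat.add_le_add_right (card_le_card
      (filter_subset_filter _ sdiff_subset)) 2) (h.2 y g n)
  rcases Nat.eq_zero_or_pos N.card with n0 | n0
  · exact ⟨∅, by simp, fun y _ => not_not.1 (k0 y (by simp [card_eq_zero.1 n0]))⟩
  by_cases tb : ∃ y g, y ≠ g ∧ F.card ≤ (O.filter fun w => y ∈ A w ∧ g ∈ A w).card +
      (N.filter fun w => g ∈ A w).card + 1
  · obtain ⟨y, g, n, p⟩ := tb
    have b := card_filter_le N fun w => g ∈ A w
    have k4 : ∀ z, bad z → z = y ∨ z = g := fun z q => by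
      have a := k2 z q
      have d := card_union_add_card_inter (O.filter fun w => y ∈ A w ∧ g ∈ A w)
        (O.filter fun w => z ∈ A w)
      have e : ((O.filter fun w => y ∈ A w ∧ g ∈ A w) ∪ O.filter fun w => z ∈ A w).card ≤ O.card :=
        card_le_card (union_subset (filter_subset _ _) (filter_subset _ _))
      obtain ⟨w, hw⟩ := card_pos.1 (show 0 < ((O.filter fun w => y ∈ A w ∧ g ∈ A w) ∩
        O.filter fun w => z ∈ A w).card by omega)
      simp only [mem_inter, mem_filter] at hw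
      have : {y, g} = A w := eq_of_subset_of_card_le
        (insert_subset hw.1.2.1 (singleton_subset_iff.2 hw.1.2.2))
        (by rw [card_pair n]; exact h2 w (oF w hw.1.1))
      simpa [← this] using hw.2.2
    by_cases n1 : N.card = 1
    · have a := k3 y g n
      have : (N.filter fun w => g ∈ A w) = N :=
        eq_of_subset_of_card_le (filter_subset _ _) (by omega)
      exact ⟨{y}, by simp [n1], fun z r => not_not.1 fun q => (k4 z q).elim
        (fun e => r (mem_singleton.2 e)) fun e => k0 g (filter_eq_self.1 this) (e ▸ q)⟩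
    · exact ⟨{y, g}, card_le_two.trans (by omega), fun z r => not_not.1 fun q =>
        r (by simpa using k4 z q)⟩
  · have k4 : ∀ z, bad z → ∀ w ∈ O, z ∈ A w := fun z q =>
      (k1 z q).resolve_right fun ⟨g, p⟩ => tb ⟨z, g, p⟩
    obtain ⟨w0, hw⟩ := card_pos.1 (show 0 < O.card by omega)
    refine ⟨(A w0).filter bad, ?_, fun z r => not_not.1 fun q =>
      r (mem_filter.2 ⟨k4 z q w0 hw, q⟩)⟩
    by_cases n1 : N.card = 1
    · rw [n1]
      refine card_le_one.2 fun a p b q => by_contra fun n => ?_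
      have := k3 a b n
      rw [filter_true_of_mem fun w r =>
        ⟨k4 a (mem_filter.1 p).2 w r, k4 b (mem_filter.1 q).2 w r⟩] at this
      omega
    · exact ((card_filter_le _ _).trans (h2 w0 (oF _ hw))).trans (by omega)

/-- The colours that `w` sees outside `K`. -/
noncomputable def sn (G : SimpleGraph V) (D : ℕ) (c : V → ℕ) (K : Finset V) (w : V) : Finset ℕ :=
  ((nb G w \ K).filter fun m => c m < D).image c

theorem mem_sn {c : V → ℕ} {K : Finset V} {w : V} {y : ℕ} :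
    y ∈ sn G D c K w ↔ ∃ m, G.Adj w m ∧ m ∉ K ∧ c m < D ∧ c m = y := by
  simp [sn, and_assoc]

theorem sn_le (c : V → ℕ) (K : Finset V) (w : V) : (sn G D c K w).card ≤ (nb G w \ K).card :=
  card_image_le.trans (card_filter_le _ _)

end ZG

open ZG

/-- Extension over a family of disjoint sets with a vertex cover `Z` of the cross edges. -/
theorem zg0 {𝒦 : Finset (Finset V)} {U Z : Finset V} (hU : ∀ v, v ∈ U ↔ ∃ K ∈ 𝒦, v ∈ K)
    (dj : ∀ K ∈ 𝒦, ∀ K' ∈ 𝒦, ∀ v ∈ K, v ∈ K' → K = K') (hK : ∀ K ∈ 𝒦, K.card ≤ D)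
    (cov : ∀ K ∈ 𝒦, ∀ u ∈ K, ∀ v ∈ U, v ∉ K → G.Adj u v → u ∈ Z ∨ v ∈ Z)
    (h2 : ∀ K ∈ 𝒦, 2 ≤ (K \ Z).card) (hF : ∀ K ∈ 𝒦, ∀ w ∈ K \ Z, (nb G w \ K).card ≤ 2)
    (hZ : ∀ K ∈ 𝒦, ∀ v ∈ K ∩ Z, (K ∩ Z).card + (nb G v \ K).card ≤ D)
    (hN : ∀ K ∈ 𝒦, ∀ v ∈ U ∩ Z, ((K \ Z).filter fun w => G.Adj v w ∧ v ∉ K).card + 3 ≤
      (K \ Z).card)
    {c : V → ℕ} (pr : ∀ a b, a ∉ U → b ∉ U → G.Adj a b → c a < D → c a ≠ c b)
    (nA : ∀ K ∈ 𝒦, ∀ y < D, ∃ w ∈ K \ Z, ∀ m ∉ U, G.Adj w m → c m ≠ y)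
    (nB : ∀ K ∈ 𝒦, ∀ y < D, ∀ g < D, y ≠ g → ((K \ Z).filter fun w =>
      (∃ m ∉ U, G.Adj w m ∧ c m = y) ∧ ∃ m ∉ U, G.Adj w m ∧ c m = g).card + 2 ≤ (K \ Z).card) :
    ∃ c' : V → ℕ, (∀ v ∉ U, c' v = c v) ∧ (∀ v ∈ U, c' v < D) ∧ PCol G D c' := by
  have step : ∀ T : Finset V, T ⊆ U ∩ Z → ∃ c' : V → ℕ, (∀ v ∉ U, c' v = c v) ∧
      (∀ v ∈ U, (c' v < D ↔ v ∈ T)) ∧ PCol G D c' ∧ ∀ K ∈ 𝒦, Good (K \ Z) (sn G D c' K) := by
    intro T
    induction T using Finset.induction_on with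
    | empty =>
      intro _
      have k : ∀ K w y, y ∈ sn G D (fun v => if v ∈ U then D else c v) K w →
          y < D ∧ ∃ m ∉ U, G.Adj w m ∧ c m = y := fun K w y p => by
        obtain ⟨m, a, -, b, d⟩ := mem_sn.1 p
        by_cases e : m ∈ U
        · simp [e] at b
        · rw [if_neg e] at b d
          exact ⟨d ▸ b, m, e, a, d⟩
      refine ⟨fun v => if v ∈ U then D else c v, fun v p => if_neg p, fun v p => by simp [p],
        fun a b e p => ?_, fun K p => ⟨fun y => ?_, fun y g n => ?_⟩⟩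
      · by_cases q : a ∈ U
        · simp [q] at p
        · simp only [if_neg q] at p ⊢
          split_ifs with r
          exacts [p.ne, pr a b q r e p]
      · by_cases q : y < D
        · obtain ⟨w, a, b⟩ := nA K p y q
          exact ⟨w, a, fun r => by
            obtain ⟨-, m, d, e, f⟩ := k K w y r
            exact b m d e f⟩
        · obtain ⟨w, a⟩ := card_pos.1 (lt_of_lt_of_le two_pos (h2 K p))
          exact ⟨w, a, fun r => q (k K w y r).1⟩
      · by_cases q : y < D ∧ g < D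
        · refine le_trans (Nat.add_le_add_right (card_le_card fun w r => ?_) 2)
            (nB K p y q.1 g q.2 n)
          obtain ⟨a, b, d⟩ := mem_filter.1 r
          exact mem_filter.2 ⟨a, (k K w y b).2, (k K w g d).2⟩
        · rw [filter_false_of_mem fun w _ r => q ⟨(k K w y r.1).1, (k K w g r.2).1⟩]
          exact h2 K p
    | insert v T hv ih =>
      intro s
      obtain ⟨c1, a1, a2, a3, a4⟩ := ih ((subset_insert _ _).trans s)
      have vz := s (mem_insert_self _ _)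
      have vU := (mem_inter.1 vz).1
      obtain ⟨K0, k0, vK⟩ := (hU v).1 vU
      have cv : ¬ c1 v < D := fun e => hv ((a2 v vU).1 e)
      have ex := fun K (p : K ∈ 𝒦) => bans (a4 K p) (filter_subset _ _) (hN K p v vz)
        fun w q => (sn_le c1 K w).trans (hF K p w q)
      choose! B b1 b2 using ex
      have e1 : (𝒦.biUnion B).card ≤ ((nb G v \ K0).filter fun m => ¬ c1 m < D).card := by
        refine card_biUnion_le.trans ((sum_le_sum b1).trans ?_)
        rw [← card_biUnion]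
        · refine card_le_card fun w p => ?_
          obtain ⟨K, p1, p2⟩ := mem_biUnion.1 p
          obtain ⟨p3, p4, p5⟩ := mem_filter.1 p2
          obtain ⟨p6, p7⟩ := mem_sdiff.1 p3
          exact mem_filter.2 ⟨mem_sdiff.2 ⟨mem_nb.2 p4, fun e => p5 (dj K0 k0 K p1 w e p6 ▸ vK)⟩,
            fun e => p7 (mem_inter.1 (s (mem_insert_of_mem
              ((a2 w ((hU w).2 ⟨K, p1, p6⟩)).1 e)))).2⟩
        · exact fun K p K' q n => disjoint_left.2 fun w r t => n (dj K p K' q w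
            (mem_sdiff.1 (mem_filter.1 r).1).1 (mem_sdiff.1 (mem_filter.1 t).1).1)
      have e2 := card_filter_add_card_filter_not (s := nb G v \ K0) fun m => c1 m < D
      have e3 : (sn G D c1 K0 v).card ≤ ((nb G v \ K0).filter fun m => c1 m < D).card :=
        card_image_le
      have vi : v ∈ K0 ∩ Z := mem_inter.2 ⟨vK, (mem_inter.1 vz).2⟩
      have e4 : (((K0 ∩ Z).erase v).image c1).card + 1 ≤ (K0 ∩ Z).card := by
        rw [← card_erase_add_one vi]
        exact Nat.add_le_add_right card_image_le 1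
      have e5 := hZ K0 k0 v vi
      obtain ⟨y, y1, y2⟩ := exists_col_notMem (D := D)
        (((K0 ∩ Z).erase v).image c1 ∪ (sn G D c1 K0 v ∪ 𝒦.biUnion B)) (by
          have := card_union_le (((K0 ∩ Z).erase v).image c1) (sn G D c1 K0 v ∪ 𝒦.biUnion B)
          have := card_union_le (sn G D c1 K0 v) (𝒦.biUnion B)
          omega)
      simp only [mem_union, not_or] at y2
      refine ⟨Function.update c1 v y, fun u p => ?_, fun u p => ?_, a3.put fun e p q => ?_,
        fun K p => (b2 K p y fun e => y2.2.2 (mem_biUnion.2 ⟨K, p, e⟩)).congr fun w q => ?_⟩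
      · rw [Function.update_of_ne fun e : u = v => p (e ▸ vU), a1 u p]
      · by_cases e : u = v
        · simp [e, y1]
        · rw [Function.update_of_ne e, a2 u p, mem_insert, or_iff_right e]
      · by_cases r : e ∈ K0
        · exact y2.1 (mem_image.2 ⟨e, mem_erase.2 ⟨p.ne', mem_inter.2 ⟨r, (mem_inter.1 (s
            (mem_insert_of_mem ((a2 e ((hU e).2 ⟨K0, k0, r⟩)).1 (q ▸ y1))))).2⟩⟩, q⟩)
        · exact y2.2.1 (mem_sn.2 ⟨e, p, r, q ▸ y1, q⟩)
      · ext z
        have o : z ∈ sn G D (Function.update c1 v y) K w ↔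
            (G.Adj v w ∧ v ∉ K) ∧ z = y ∨ z ∈ sn G D c1 K w := by
          rw [mem_sn, mem_sn]
          constructor
          · rintro ⟨m, r1, r2, r3, r4⟩
            by_cases e : m = v
            · subst e
              exact .inl ⟨⟨r1.symm, r2⟩, by simpa using r4.symm⟩
            · rw [Function.update_of_ne e] at r3 r4
              exact .inr ⟨m, r1, r2, r3, r4⟩
          · rintro (⟨⟨r1, r2⟩, r3⟩ | ⟨m, r1, r2, r3, r4⟩)
            · exact ⟨v, r1.symm, r2, by simpa using y1, by simpa using r3.symm⟩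
            · have e : m ≠ v := fun e => cv (e ▸ r3)
              exact ⟨m, r1, r2, by rwa [Function.update_of_ne e], by rwa [Function.update_of_ne e]⟩
        rw [o]
        split_ifs with r
        · rw [mem_insert, and_iff_right (mem_filter.1 r).2]
        · exact or_iff_right fun t => r (mem_filter.2 ⟨q, t.1⟩)
  obtain ⟨c1, a1, a2, a3, a4⟩ := step _ Subset.rfl
  have ex := fun K (p : K ∈ 𝒦) => ext_hall (K \ Z) (range D \ (K ∩ Z).image c1) (sn G D c1 K)
    (by
      have a := le_card_sdiff ((K ∩ Z).image c1) (range D)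
      have b : ((K ∩ Z).image c1).card ≤ (K ∩ Z).card := card_image_le
      have d := card_sdiff_add_card_inter K Z
      have := hK K p
      rw [card_range] at a
      omega)
    (fun w q => (sn_le c1 K w).trans (hF K p w q))
    (fun y _ => by
      obtain ⟨w, q, r⟩ := (a4 K p).1 y
      exact card_lt_card (filter_ssubset.2 ⟨w, q, r⟩))
    fun y _ g _ n => (a4 K p).2 y g n
  choose! f f1 f2 using ex
  choose! κ κ1 κ2 using fun v => (hU v).1
  have m : ∀ v ∈ U \ Z, v ∈ κ v \ Z := fun v p =>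
    mem_sdiff.2 ⟨κ2 v (mem_sdiff.1 p).1, (mem_sdiff.1 p).2⟩
  have lt : ∀ v ∈ U \ Z, f (κ v) v < D := fun v p =>
    mem_range.1 (mem_sdiff.1 (f2 _ (κ1 v (mem_sdiff.1 p).1) v (m v p)).1).1
  have out : ∀ u ∈ U \ Z, ∀ v ∉ U \ Z, G.Adj u v → f (κ u) u ≠ c1 v := fun u p v q e r => by
    have uU := (mem_sdiff.1 p).1
    obtain ⟨a, b⟩ := f2 _ (κ1 u uU) u (m u p)
    by_cases t : v ∈ κ u
    · exact (mem_sdiff.1 a).2 (mem_image.2 ⟨v, mem_inter.2 ⟨t, by_contra fun z =>
        q (mem_sdiff.2 ⟨(hU v).2 ⟨_, κ1 u uU, t⟩, z⟩)⟩, r.symm⟩)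
    · exact b (mem_sn.2 ⟨v, e, t, r ▸ lt u p, r.symm⟩)
  refine ⟨fun v => if v ∈ U \ Z then f (κ v) v else c1 v, fun v p => ?_, fun v p => ?_,
    fun u v e l => ?_⟩
  · exact (if_neg fun q => p (mem_sdiff.1 q).1).trans (a1 v p)
  · beta_reduce
    split_ifs with q
    · exact lt v q
    · exact (a2 v p).2 (mem_inter.2 ⟨p, by_contra fun z => q (mem_sdiff.2 ⟨p, z⟩)⟩)
  · by_cases p : u ∈ U \ Z <;> by_cases q : v ∈ U \ Z
    · simp only [if_pos p, if_pos q]
      obtain ⟨p1, p2⟩ := mem_sdiff.1 p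
      obtain ⟨q1, q2⟩ := mem_sdiff.1 q
      have t : v ∈ κ u := by_contra fun t =>
        (cov _ (κ1 u p1) u (κ2 u p1) v q1 t e).elim p2 q2
      rw [dj _ (κ1 v q1) _ (κ1 u p1) v (κ2 v q1) t]
      exact f1 _ (κ1 u p1) u (m u p) v (mem_sdiff.2 ⟨t, q2⟩) e.ne
    · simp only [if_pos p, if_neg q]
      exact out u p v q e
    · simp only [if_neg p, if_pos q]
      exact (out v q u p e.symm).symm
    · simp only [if_neg p, if_neg q] at l ⊢
      exact a3 u v e l

theorem out_le (hd : ∀ v, (nb G v).card ≤ D + 1) {K : Finset V} (h : IsClq G K) (e : K.card = D)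
    {w : V} (p : w ∈ K) : (nb G w \ K).card ≤ 2 := by
  have a := card_sdiff_add_card_inter (nb G w) K
  have b : (K.erase w).card ≤ (nb G w ∩ K).card := card_le_card fun x q =>
    mem_inter.2 ⟨mem_nb.2 (h w p x (mem_erase.1 q).2 (mem_erase.1 q).1.symm), (mem_erase.1 q).2⟩
  have := card_erase_add_one p
  have := hd w
  omega

/-- Lemma ZG: disjoint cliques of size `D`, a vertex cover `Z` of the cross edges that leaves at
least five members of every clique, parked holes `P`. A colouring off `U ∪ P` without the patterns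
A and B on pure slots extends to `U`. -/
theorem zg (hd : ∀ v, (nb G v).card ≤ D + 1) {𝒦 : Finset (Finset V)} {U Z P : Finset V}
    (hU : ∀ v, v ∈ U ↔ ∃ K ∈ 𝒦, v ∈ K) (dj : ∀ K ∈ 𝒦, ∀ K' ∈ 𝒦, ∀ v ∈ K, v ∈ K' → K = K')
    (hK : ∀ K ∈ 𝒦, IsClq G K ∧ K.card = D)
    (cov : ∀ K ∈ 𝒦, ∀ u ∈ K, ∀ v ∈ U, v ∉ K → G.Adj u v → u ∈ Z ∨ v ∈ Z)
    (h5 : ∀ K ∈ 𝒦, 5 ≤ (K \ Z).card) {g : V → ℕ}
    (pr : ∀ a b, a ∉ U ∪ P → b ∉ U ∪ P → G.Adj a b → g a < D → g a ≠ g b)
    (nA : ∀ K ∈ 𝒦, ∀ y < D, ∃ w ∈ K \ Z, ∀ m ∉ U ∪ P, G.Adj w m → g m ≠ y)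
    (nB : ∀ K ∈ 𝒦, ∀ y < D, ∀ z < D, y ≠ z → ((K \ Z).filter fun w =>
      (∃ m ∉ U ∪ P, G.Adj w m ∧ g m = y) ∧ ∃ m ∉ U ∪ P, G.Adj w m ∧ g m = z).card + 2 ≤
        (K \ Z).card) :
    ∃ c : V → ℕ, (∀ v ∉ U ∪ P, c v = g v) ∧ (∀ v ∈ U, c v < D) ∧ (∀ v ∈ P, v ∉ U → c v = D) ∧
      PCol G D c := by
  have k : ∀ m y, y < D → m ∉ U → (if m ∈ P then D else g m) = y → m ∉ U ∪ P ∧ g m = y :=
    fun m y l p q => by
      split_ifs at q with e
      · omega
      · exact ⟨by simp [p, e], q⟩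
  obtain ⟨c, c1, c2, c3⟩ := zg0 (G := G) (D := D) (Z := Z) (c := fun m => if m ∈ P then D else g m)
    hU dj (fun K p => (hK K p).2.le) cov (fun K p => le_trans (by norm_num) (h5 K p))
    (fun K p w q => out_le hd (hK K p).1 (hK K p).2 (mem_sdiff.1 q).1)
    (fun K p v q => by
      have := out_le hd (hK K p).1 (hK K p).2 (mem_inter.1 q).1
      have := card_sdiff_add_card_inter K Z
      have := h5 K p
      have := (hK K p).2
      omega)
    (fun K p v q => by
      obtain ⟨K0, k0, vK⟩ := (hU v).1 (mem_inter.1 q).1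
      have := out_le hd (hK K0 k0).1 (hK K0 k0).2 vK
      have : ((K \ Z).filter fun w => G.Adj v w ∧ v ∉ K).card ≤ (nb G v \ K0).card :=
        card_le_card fun w r => by
          obtain ⟨r1, r2, r3⟩ := mem_filter.1 r
          exact mem_sdiff.2 ⟨mem_nb.2 r2, fun e => r3 (dj K0 k0 K p w e (mem_sdiff.1 r1).1 ▸ vK)⟩
      have := h5 K p
      omega)
    (fun a b p q e l r => by
      obtain ⟨a1, a2⟩ := k a _ l p rfl
      obtain ⟨b1, b2⟩ := k b _ l q r.symm
      exact pr a b a1 b1 e (a2 ▸ l) (a2.trans b2.symm))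
    (fun K p y l => (nA K p y l).imp fun w q => ⟨q.1, fun m r e t =>
      q.2 m (k m y l r t).1 e (k m y l r t).2⟩)
    fun K p y l z l' n => le_trans (Nat.add_le_add_right (card_le_card fun w r => by
      obtain ⟨r1, ⟨m, a1, a2, a3⟩, m', b1, b2, b3⟩ := mem_filter.1 r
      exact mem_filter.2 ⟨r1, ⟨m, (k m y l a1 a3).1, a2, (k m y l a1 a3).2⟩,
        m', (k m' z l' b1 b3).1, b2, (k m' z l' b1 b3).2⟩) 2) (nB K p y l z l' n)
  exact ⟨c, fun v p => (c1 v fun e => p (mem_union_left _ e)).trans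
    (if_neg fun e => p (mem_union_right _ e)), c2, fun v p q => (c1 v q).trans (if_pos p), c3⟩

/-- Without holes the graph is colourable. -/
theorem zg_colr (hd : ∀ v, (nb G v).card ≤ D + 1) {𝒦 : Finset (Finset V)} {U Z : Finset V}
    (hU : ∀ v, v ∈ U ↔ ∃ K ∈ 𝒦, v ∈ K) (dj : ∀ K ∈ 𝒦, ∀ K' ∈ 𝒦, ∀ v ∈ K, v ∈ K' → K = K')
    (hK : ∀ K ∈ 𝒦, IsClq G K ∧ K.card = D)
    (cov : ∀ K ∈ 𝒦, ∀ u ∈ K, ∀ v ∈ U, v ∉ K → G.Adj u v → u ∈ Z ∨ v ∈ Z)
    (h5 : ∀ K ∈ 𝒦, 5 ≤ (K \ Z).card) {g : V → ℕ} (fu : ∀ a ∉ U, g a < D)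
    (pr : ∀ a b, a ∉ U → b ∉ U → G.Adj a b → g a ≠ g b)
    (nA : ∀ K ∈ 𝒦, ∀ y < D, ∃ w ∈ K \ Z, ∀ m ∉ U, G.Adj w m → g m ≠ y)
    (nB : ∀ K ∈ 𝒦, ∀ y < D, ∀ z < D, y ≠ z → ((K \ Z).filter fun w =>
      (∃ m ∉ U, G.Adj w m ∧ g m = y) ∧ ∃ m ∉ U, G.Adj w m ∧ g m = z).card + 2 ≤ (K \ Z).card) :
    Colr G D := by
  obtain ⟨c, c1, c2, -, c3⟩ := zg (P := ∅) (g := g) hd hU dj hK cov h5
    (by simpa using fun a b p q e _ => pr a b p q e) (by simpa using nA) (by simpa using nB)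
  have l : ∀ v, c v < D := fun v => by
    by_cases e : v ∈ U
    exacts [c2 v e, c1 v (by simpa using e) ▸ fu v e]
  exact ⟨c, l, fun u v e => c3 u v e (l u)⟩

end Pool.Agent.Lib.MP_12eaff_co.Frz.Acc2
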